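import Pool.Agent.Lib.P325rc.Defs

/-!
Module Card (1.3h). The number of tables.
PROOF. RM n d is spanned by the functions mono J = ∏_j (coordinate J j, or 1), J : Fin d → Option (Fin n): expand
pr L = ∏_j (∑_i a_ji x_i + c_j) (Finset.prod_univ_sum). There are (n + 1)^d of them, so every element of RM n d is
∑_J c_J mono J with c : (Fin d → Option (Fin n)) → ZMod 2, at most 2^((n+1)^d) elements. A table is determined by its s
coordinates: Tb n d s embeds into Fin s → RM n d.
-/

open scoped BigOperators

namespace Pool.Agent.Lib.P325rc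

open Pool.Agent.Lib.P325x (Pt sg mean)

namespace CardAux

/-- The coordinate functions and the constant one. -/
def val {n : ℕ} (o : Option (Fin n)) (p : Pt n) : ZMod 2 :=
  match o with
  | none => 1
  | some i => p i

/-- The coefficients of an affine form. -/
def coef {n : ℕ} (l : Af n) (o : Option (Fin n)) : ZMod 2 :=
  match o with
  | none => l.2
  | some i => l.1 i

/-- The monomials. -/
def mono {n d : ℕ} (J : Fin d → Option (Fin n)) (p : Pt n) : ZMod 2 := ∏ j, val (J j) p

theorem af_eq {n : ℕ} (l : Af n) (p : Pt n) : af l p = ∑ o, coef l o * val o p := by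
  rw [Fintype.sum_option]
  simp only [af, coef, val, mul_one, dotProduct]
  exact add_comm _ _

theorem pr_eq {n d : ℕ} (L : Fin d → Af n) :
    pr L = ∑ J : Fin d → Option (Fin n), (∏ j, coef (L j) (J j)) • mono J := by
  funext p
  rw [Finset.sum_apply]
  have h1 : pr L p = ∏ j, ∑ o, coef (L j) o * val o p :=
    Finset.prod_congr rfl fun j _ => af_eq (L j) p
  rw [h1, Finset.prod_univ_sum, Fintype.piFinset_univ]
  refine Finset.sum_congr rfl fun J _ => ?_
  rw [Pi.smul_apply, smul_eq_mul, mono, Finset.prod_mul_distrib]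

theorem rm_le (n d : ℕ) : RM n d ≤
    LinearMap.range (Fintype.linearCombination (ZMod 2)
      (mono : (Fin d → Option (Fin n)) → Pt n → ZMod 2)) := by
  refine Submodule.span_le.2 ?_
  rintro _ ⟨L, rfl⟩
  refine ⟨fun J => ∏ j, coef (L j) (J j), ?_⟩
  rw [Fintype.linearCombination_apply]
  exact (pr_eq L).symm

end CardAux

open CardAux

theorem card_rm (n d : ℕ) : Nat.card (RM n d) ≤ 2 ^ ((n + 1) ^ d) := by
  have h1 : (RM n d : Set (Pt n → ZMod 2)) ⊆
      (Fintype.linearCombination (ZMod 2)
        (mono : (Fin d → Option (Fin n)) → Pt n → ZMod 2)) '' Set.univ := by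
    intro f hf
    obtain ⟨c, hc⟩ := rm_le n d hf
    exact ⟨c, Set.mem_univ _, hc⟩
  have h2 : Nat.card (RM n d) = (RM n d : Set (Pt n → ZMod 2)).ncard := rfl
  rw [h2]
  refine (Set.ncard_le_ncard h1 (Set.toFinite _)).trans ?_
  refine (Set.ncard_image_le (Set.toFinite _)).trans ?_
  rw [Set.ncard_univ, Nat.card_eq_fintype_card, Fintype.card_fun, ZMod.card, Fintype.card_fun,
    Fintype.card_option, Fintype.card_fin, Fintype.card_fin]

theorem card_tb (n d s : ℕ) : Fintype.card (Tb n d s) ≤ 2 ^ (s * (n + 1) ^ d) := by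
  rw [← Nat.card_eq_fintype_card]
  have hinj : Function.Injective (fun (y : Tb n d s) (i : Fin s) =>
      (⟨fun p => y.1 p i, y.2 i⟩ : RM n d)) := by
    intro y y' h
    refine Subtype.ext (funext fun p => funext fun i => ?_)
    have h1 := congrArg Subtype.val (congrFun h i)
    exact congrFun h1 p
  refine (Nat.card_le_card_of_injective _ hinj).trans ?_
  rw [Nat.card_fun, Nat.card_eq_fintype_card (α := Fin s), Fintype.card_fin]
  refine (Nat.pow_le_pow_left (card_rm n d) s).trans ?_
  rw [← pow_mul, mul_comm]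

end Pool.Agent.Lib.P325rc
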