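import Pool.Agent.Lib.P325rc.Dist

/-!
Pairwise independence of the values of a random affine form.
-/

open scoped BigOperators

namespace Pool.Agent.Lib.P325rc

open Pool.Agent.Lib.P325x (Pt sg mean zmod_two_cases pt_add_self sum_sg_dot sg_add sg_zero sg_one)

theorem card_Af {n : ℕ} : (Fintype.card (Af n) : ℝ) = 2 * 2 ^ n := by
  rw [Fintype.card_prod, ZMod.card, Fintype.card_fun, ZMod.card, Fintype.card_fin]
  push_cast
  ring

theorem card_Af' {n : ℕ} : Fintype.card (Af n) = 2 ^ (n + 1) := by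
  rw [Fintype.card_prod, ZMod.card, Fintype.card_fun, ZMod.card, Fintype.card_fin, pow_succ]

variable {n : ℕ} {X : Type} [AddCommGroup X] [Module (ZMod 2) X]

theorem sum_sg_af (p q : Pt n) : ∑ l : Af n, sg (af l p) * sg (af l q) =
    if p = q then (Fintype.card (Af n) : ℝ) else 0 := by
  have h1 : ∀ l : Af n, sg (af l p) * sg (af l q) = sg ((p + q) ⬝ᵥ l.1) := by
    intro l
    rw [← sg_add]
    congr 1
    have h : l.2 + l.2 = 0 := CharTwo.add_self_eq_zero _
    simp only [af]
    rw [add_dotProduct, dotProduct_comm p, dotProduct_comm q]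
    calc l.1 ⬝ᵥ p + l.2 + (l.1 ⬝ᵥ q + l.2) = l.1 ⬝ᵥ p + l.1 ⬝ᵥ q + (l.2 + l.2) := by abel
      _ = _ := by rw [h, add_zero]
  simp only [h1]
  rw [Fintype.sum_prod_type]
  simp only [Finset.sum_const, Finset.card_univ, ZMod.card, nsmul_eq_mul]
  rw [← Finset.mul_sum, sum_sg_dot, card_Af]
  by_cases hpq : p = q
  · subst hpq
    rw [if_pos (pt_add_self p), if_pos rfl]
    push_cast
    ring
  · have : p + q ≠ 0 := by
      intro h
      apply hpq
      have e : p = p + q + q := by rw [add_assoc, pt_add_self, add_zero]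
      rw [e, h, zero_add]
    rw [if_neg this, if_neg hpq, mul_zero]

/-- Chebyshev's inequality for the half weights. -/
theorem cheb_fin (β : Pt n → X) {D : ℕ} (hw : 4 * D < wt β) (h16 : 16 ≤ wt β)
    (Gd : Finset (Af n))
    (hG : ∀ l ∈ Gd, wt (fun p => af l p • β p) ≤ D) :
    4 * Gd.card ≤ Fintype.card (Af n) := by
  classical
  set S : Finset (Pt n) := Finset.univ.filter fun p => β p ≠ 0 with hS
  have hwS : wt β = S.card := rfl
  have h1 : ∀ l : Af n, ∑ p ∈ S, sg (af l p) =
      (S.card : ℝ) - 2 * wt (fun p => af l p • β p) := by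
    intro l
    have e1 : (wt (fun p => af l p • β p) : ℝ) = ∑ p ∈ S, (if af l p = 1 then (1 : ℝ) else 0) := by
      unfold wt
      rw [Finset.sum_boole, hS, Finset.filter_filter]
      congr 2
      ext p
      simp only [Finset.mem_filter, Finset.mem_univ, true_and]
      rcases zmod_two_cases (af l p) with h | h
      · rw [h]; simp
      · rw [h]; simp
    rw [e1, Finset.card_eq_sum_ones]
    push_cast
    rw [Finset.mul_sum, ← Finset.sum_sub_distrib]
    refine Finset.sum_congr rfl fun p _ => ?_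
    rcases zmod_two_cases (af l p) with h | h
    · rw [h, sg_zero]; norm_num
    · rw [h, sg_one]; norm_num
  have h2 : ∑ l : Af n, (∑ p ∈ S, sg (af l p)) ^ 2 = S.card * Fintype.card (Af n) := by
    have e1 : ∀ l : Af n, (∑ p ∈ S, sg (af l p)) ^ 2 =
        ∑ p ∈ S, ∑ q ∈ S, sg (af l p) * sg (af l q) := by
      intro l
      rw [sq, Finset.sum_mul_sum]
    simp only [e1]
    rw [Finset.sum_comm]
    simp_rw [Finset.sum_comm (s := (Finset.univ : Finset (Af n))), sum_sg_af]
    rw [Finset.card_eq_sum_ones]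
    push_cast
    rw [Finset.sum_mul]
    refine Finset.sum_congr rfl fun p hp => ?_
    rw [Finset.sum_ite_eq, if_pos hp, one_mul]
  have hSc : (4 * D : ℝ) < S.card := by
    rw [hwS] at hw
    exact_mod_cast hw
  have hD' : (16 : ℝ) ≤ S.card := by
    rw [hwS] at h16
    exact_mod_cast h16
  have h3 : (Gd.card : ℝ) * ((S.card : ℝ) / 2) ^ 2 ≤ S.card * Fintype.card (Af n) := by
    rw [← h2, ← nsmul_eq_mul, ← Finset.sum_const]
    refine (Finset.sum_le_sum fun l hl => ?_).trans
      (Finset.sum_le_sum_of_subset_of_nonneg (Finset.subset_univ Gd) fun l _ _ => sq_nonneg _)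
    rw [h1]
    have e1 : (wt (fun p => af l p • β p) : ℝ) ≤ D := by exact_mod_cast hG l hl
    apply pow_le_pow_left₀ (by positivity)
    linarith
  have hS0 : (0 : ℝ) < S.card := by linarith
  have h4 : (Gd.card : ℝ) * S.card ≤ 4 * Fintype.card (Af n) := by
    have e1 : (Gd.card : ℝ) * ((S.card : ℝ) / 2) ^ 2 = (Gd.card * S.card / 4) * S.card := by ring
    rw [e1, mul_comm (S.card : ℝ)] at h3
    have := le_of_mul_le_mul_right h3 hS0
    linarith
  have h5 : (4 * Gd.card : ℝ) ≤ Fintype.card (Af n) := by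
    have e1 : (Gd.card : ℝ) * 16 ≤ Gd.card * S.card :=
      mul_le_mul_of_nonneg_left (by linarith) (Nat.cast_nonneg _)
    linarith
  exact_mod_cast h5

theorem sum_sg_af_one (p : Pt n) : ∑ l : Af n, sg (af l p) = 0 := by
  have h1 := Equiv.sum_comp (Equiv.addRight ((0, 1) : Af n)) (fun l : Af n => sg (af l p))
  have h2 : ∀ l : Af n, sg (af (Equiv.addRight ((0, 1) : Af n) l) p) = -sg (af l p) := by
    intro l
    rw [Equiv.coe_addRight, af_add, af_one, sg_add, sg_one]
    ring
  simp only [h2, Finset.sum_neg_distrib] at h1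
  linarith

theorem count_one (p : Pt n) : 2 * Nat.card {l : Af n // af l p = 1} = 2 ^ (n + 1) := by
  classical
  have h1 : (Nat.card {l : Af n // af l p = 1} : ℝ) = ∑ l : Af n, (1 - sg (af l p)) / 2 := by
    rw [Nat.card_eq_fintype_card, Fintype.card_subtype, ← Finset.sum_boole]
    refine Finset.sum_congr rfl fun l _ => ?_
    rcases zmod_two_cases (af l p) with h | h
    · rw [h, sg_zero]; norm_num
    · rw [h, sg_one]; norm_num
  rw [← Finset.sum_div, Finset.sum_sub_distrib, sum_sg_af_one] at h1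
  simp only [Finset.sum_const, Finset.card_univ, nsmul_eq_mul, mul_one, sub_zero] at h1
  have h2 : (2 * Nat.card {l : Af n // af l p = 1} : ℝ) = ((2 ^ (n + 1) : ℕ) : ℝ) := by
    rw [h1, ← card_Af']
    ring
  exact_mod_cast h2

theorem count_two (p p' : Pt n) (h : p ≠ p') :
    4 * Nat.card {l : Af n // af l p = 1 ∧ af l p' = 1} = 2 ^ (n + 1) := by
  classical
  have h1 : (Nat.card {l : Af n // af l p = 1 ∧ af l p' = 1} : ℝ) =
      ∑ l : Af n, (1 - sg (af l p) - sg (af l p') + sg (af l p) * sg (af l p')) / 4 := by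
    rw [Nat.card_eq_fintype_card, Fintype.card_subtype, ← Finset.sum_boole]
    refine Finset.sum_congr rfl fun l _ => ?_
    rcases zmod_two_cases (af l p) with h | h <;> rcases zmod_two_cases (af l p') with h' | h'
    · rw [h, h', sg_zero]; norm_num
    · rw [h, h', sg_zero, sg_one]; norm_num
    · rw [h, h', sg_zero, sg_one]; norm_num
    · rw [h, h', sg_one]; norm_num
  rw [← Finset.sum_div, Finset.sum_add_distrib, Finset.sum_sub_distrib, Finset.sum_sub_distrib,
    sum_sg_af_one, sum_sg_af_one, sum_sg_af, if_neg h] at h1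
  simp only [Finset.sum_const, Finset.card_univ, nsmul_eq_mul, mul_one, sub_zero, add_zero] at h1
  have h2 : (4 * Nat.card {l : Af n // af l p = 1 ∧ af l p' = 1} : ℝ) =
      ((2 ^ (n + 1) : ℕ) : ℝ) := by
    rw [h1, ← card_Af']
    ring
  exact_mod_cast h2

theorem cheb (D : ℕ) (β : Pt n → X) (h1 : 4 * D < wt β) (h2 : 16 ≤ wt β) :
    4 * Nat.card {l : Af n // wt (fun p => af l p • β p) ≤ D} ≤ 2 ^ (n + 1) := by
  classical
  rw [Nat.card_eq_fintype_card, Fintype.card_subtype, ← card_Af']
  refine cheb_fin β h1 h2 _ fun l hl => ?_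
  rw [Finset.mem_filter] at hl
  exact hl.2

end Pool.Agent.Lib.P325rc
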