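import Pool.Agent.Lib.P325x.Affine
import Pool.Agent.Lib.P325x.Defs

/-!
P325rc: games with Reed-Muller codes in place of long codes. Definitions. The labels of the outer
game are the points of `Pt n`, the labels of the new game are the points of `Pt s`. Tables are
functions `Pt n → Pt s` whose coordinates have degree at most `d`.
-/

open scoped BigOperators

namespace Pool.Agent.Lib.P325rc

open Pool.Agent.Lib.P325x (Pt sg mean Game)

/-- Affine forms on `Pt n`. -/
abbrev Af (n : ℕ) : Type := Pt n × ZMod 2

/-- The value of an affine form. -/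
def af {n : ℕ} (l : Af n) (p : Pt n) : ZMod 2 := l.1 ⬝ᵥ p + l.2

/-- The product of affine forms. -/
def pr {n d : ℕ} (L : Fin d → Af n) (p : Pt n) : ZMod 2 := ∏ j, af (L j) p

/-- The functions of degree at most `d`: the span of the products of `d` affine forms. -/
def RM (n d : ℕ) : Submodule (ZMod 2) (Pt n → ZMod 2) :=
  Submodule.span (ZMod 2) (Set.range fun L : Fin d → Af n => pr L)

/-- The tables: functions `Pt n → Pt s` all of whose coordinates have degree at most `d`. -/
def Tb (n d s : ℕ) : Submodule (ZMod 2) (Pt n → Pt s) where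
  carrier := {y | ∀ i, (fun p => y p i) ∈ RM n d}
  add_mem' ha hb := fun i => (RM n d).add_mem (ha i) (hb i)
  zero_mem' := fun _ => (RM n d).zero_mem
  smul_mem' c _ ha := fun i => (RM n d).smul_mem c (ha i)

/-- `α` is orthogonal to all functions of degree at most `d`. -/
def Du {n : ℕ} {X : Type} [AddCommGroup X] [Module (ZMod 2) X] (d : ℕ) (α : Pt n → X) : Prop :=
  ∀ L : Fin d → Af n, ∑ p, pr L p • α p = 0

/-- The number of points at which `α` is not zero. -/
noncomputable def wt {P X : Type} [Fintype P] [Zero X] (α : P → X) : ℕ := by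
  classical
  exact (Finset.univ.filter fun p => α p ≠ 0).card

/-- The fraction of the tuples of `d` affine forms whose product `L` has `∑ p, pr L p • α p ≠ 0`. -/
noncomputable def rej {n : ℕ} {X : Type} [AddCommGroup X] [Module (ZMod 2) X] (d : ℕ)
    (α : Pt n → X) : ℝ := by
  classical
  exact mean fun L : Fin d → Af n => if ∑ p, pr L p • α p = 0 then (0 : ℝ) else 1

/-- The character `α` of the tables. -/
noncomputable def ch {n s : ℕ} (α y : Pt n → Pt s) : ℝ := sg (∑ p, α p ⬝ᵥ y p)

/-- The parameters of the noise: `m` products of `d` affine forms with a coefficient each. -/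
abbrev Nz (n d s m : ℕ) : Type := Fin m → (Fin d → Af n) × Pt s

/-- The noise. -/
def nzt {n d s m : ℕ} (ν : Nz n d s m) (p : Pt n) : Pt s := ∑ i, pr (ν i).1 p • (ν i).2

theorem pr_mem {n d : ℕ} (L : Fin d → Af n) : pr L ∈ RM n d := Submodule.subset_span ⟨L, rfl⟩

theorem nzt_mem {n d s m : ℕ} (ν : Nz n d s m) : nzt ν ∈ Tb n d s := by
  intro i
  have h : (fun p => nzt ν p i) = ∑ j, (ν j).2 i • pr (ν j).1 := by
    funext p
    simp only [nzt, Finset.sum_apply, Pi.smul_apply, smul_eq_mul]
    exact Finset.sum_congr rfl fun j _ => mul_comm _ _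
  rw [h]
  exact (RM n d).sum_mem fun j _ => (RM n d).smul_mem _ (pr_mem _)

/-- The noise as a table. -/
def nzT {n d s m : ℕ} (ν : Nz n d s m) : Tb n d s := ⟨nzt ν, nzt_mem ν⟩

theorem af_shift {n : ℕ} (l : Af n) (b p : Pt n) : af l (p + b) = af (l.1, af l b) p := by
  simp only [af, dotProduct_add]
  abel

theorem pr_shift {n d : ℕ} (L : Fin d → Af n) (b p : Pt n) :
    pr L (p + b) = pr (fun j => ((L j).1, af (L j) b)) p :=
  Finset.prod_congr rfl fun j _ => af_shift (L j) b p

theorem rm_shift {n d : ℕ} (b : Pt n) {f : Pt n → ZMod 2} (hf : f ∈ RM n d) :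
    (fun p => f (p + b)) ∈ RM n d := by
  refine Submodule.span_induction (p := fun f _ => (fun p => f (p + b)) ∈ RM n d) ?_ ?_ ?_ ?_ hf
  · rintro _ ⟨L, rfl⟩
    have h : (fun p => pr L (p + b)) = pr (fun j => ((L j).1, af (L j) b)) := by
      funext p
      exact pr_shift L b p
    show (fun p => pr L (p + b)) ∈ RM n d
    rw [h]
    exact pr_mem _
  · exact (RM n d).zero_mem
  · intro f g _ _ h1 h2
    exact (RM n d).add_mem h1 h2
  · intro a f _ h1
    exact (RM n d).smul_mem a h1

theorem one_mem {n d : ℕ} : (fun _ : Pt n => (1 : ZMod 2)) ∈ RM n d := by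
  have h : (fun _ : Pt n => (1 : ZMod 2)) = pr (fun _ : Fin d => ((0, 1) : Af n)) := by
    funext p
    simp [pr, af]
  rw [h]
  exact pr_mem _

/-- The table `p ↦ y (p + b) + a`. -/
def shT {n d s : ℕ} (b : Pt n) (a : Pt s) (y : Tb n d s) : Tb n d s :=
  ⟨fun p => y.1 (p + b) + a, fun i => by
    have h : (fun p => (y.1 (p + b) + a) i) =
        (fun p => (fun q => y.1 q i) (p + b)) + a i • (fun _ => (1 : ZMod 2)) := by
      funext p
      simp
    rw [h]
    exact (RM n d).add_mem (rm_shift b (y.2 i)) ((RM n d).smul_mem _ one_mem)⟩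

/-- The code game of a game whose constraints are the translations `b e` of `Pt n`: for every edge
`e`, every `a`, every table `y` and every noise `ν` it has an edge from `(src e, y)` to
`(dst e, y')` with the translation by `a` as constraint, where `y' p = (y + ν) (p + b e) + a`. -/
def codeGame {U W ι : Type} (n d s m : ℕ) (src : ι → U) (dst : ι → W) (b : ι → Pt n) :
    Game (U × Tb n d s) (W × Tb n d s) (Pt s) (ι × Pt s × Tb n d s × Nz n d s m) where
  src p := (src p.1, p.2.2.1)
  dst p := (dst p.1, shT (b p.1) p.2.1 (p.2.2.1 + nzT p.2.2.2))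
  perm p := Equiv.addRight p.2.1

noncomputable instance {n d s : ℕ} : Fintype (Tb n d s) := Fintype.ofFinite _

end Pool.Agent.Lib.P325rc
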