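import Pool.Agent.Lib.P325rc.Defs

/-!
Elementary facts on Du and wt; a nonzero function orthogonal to the functions of degree `d` has at
least `2 ^ (d + 1)` nonzero values.
-/

open scoped BigOperators

namespace Pool.Agent.Lib.P325rc

open Pool.Agent.Lib.P325x (Pt sg mean zmod_two_cases pt_add_self)

section wts

variable {P X : Type} [Fintype P] [AddCommGroup X]

theorem wt_mono {α β : P → X} (h : ∀ p, β p = 0 → α p = 0) : wt α ≤ wt β := by
  classical
  unfold wt
  refine Finset.card_le_card ?_
  intro p hp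
  rw [Finset.mem_filter] at hp ⊢
  exact ⟨hp.1, fun h0 => hp.2 (h p h0)⟩

theorem wt_le_of_imp {α β : P → X} (h : ∀ p, α p ≠ 0 → β p ≠ 0) : wt α ≤ wt β :=
  wt_mono fun p hp => by
    by_contra h0
    exact h p h0 hp

theorem wt_eq_zero {α : P → X} : wt α = 0 ↔ α = 0 := by
  classical
  unfold wt
  rw [Finset.card_eq_zero, Finset.filter_eq_empty_iff]
  constructor
  · intro h
    funext p
    exact not_not.1 (h (Finset.mem_univ p))
  · rintro rfl p _ h
    exact h rfl

theorem wt_zero : wt (0 : P → X) = 0 := wt_eq_zero.2 rfl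

theorem wt_add (α β : P → X) : wt (α + β) ≤ wt α + wt β := by
  classical
  unfold wt
  refine (Finset.card_le_card ?_).trans (Finset.card_union_le _ _)
  intro p hp
  rw [Finset.mem_filter] at hp
  rw [Finset.mem_union, Finset.mem_filter, Finset.mem_filter]
  by_contra hc
  push Not at hc
  refine hp.2 ?_
  rw [Pi.add_apply, hc.1 (Finset.mem_univ p), hc.2 (Finset.mem_univ p), add_zero]

theorem wt_neg (α : P → X) : wt (-α) = wt α := by
  apply le_antisymm
  · exact wt_mono fun p h => by rw [Pi.neg_apply, h, neg_zero]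
  · exact wt_mono fun p h => by
      rw [Pi.neg_apply, neg_eq_zero] at h
      exact h

theorem wt_sub (α β : P → X) : wt (α - β) ≤ wt α + wt β := by
  rw [sub_eq_add_neg, ← wt_neg β]
  exact wt_add α (-β)

theorem wt_le_card {α : P → X} (B : Finset P) (h : ∀ p, α p ≠ 0 → p ∈ B) : wt α ≤ B.card := by
  classical
  unfold wt
  refine Finset.card_le_card ?_
  intro p hp
  rw [Finset.mem_filter] at hp
  exact h p hp.2

end wts

section af

variable {n : ℕ}

theorem af_add (l l' : Af n) (p : Pt n) : af (l + l') p = af l p + af l' p := by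
  simp only [af, Prod.fst_add, Prod.snd_add, add_dotProduct]
  abel

theorem af_add_pt (l : Af n) (p v : Pt n) : af l (p + v) = af l p + l.1 ⬝ᵥ v := by
  simp only [af, dotProduct_add]
  abel

theorem af_one (p : Pt n) : af ((0, 1) : Af n) p = 1 := by simp [af]

theorem pr_zero' (L : Fin 0 → Af n) (p : Pt n) : pr L p = 1 := by
  unfold pr
  simp

/-- An affine form which is 1 at `p` and 0 at `q`. -/
theorem exists_sep {p q : Pt n} (h : p ≠ q) : ∃ l : Af n, af l p = 1 ∧ af l q = 0 := by
  obtain ⟨i, hi⟩ := Function.ne_iff.1 h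
  refine ⟨(Pi.single i 1, q i), ?_, ?_⟩
  · simp only [af, single_dotProduct, one_mul]
    rcases zmod_two_cases (p i) with h1 | h1 <;> rcases zmod_two_cases (q i) with h2 | h2
    · exact absurd (h1.trans h2.symm) hi
    · rw [h1, h2]; rfl
    · rw [h1, h2]; rfl
    · exact absurd (h1.trans h2.symm) hi
  · simp only [af, single_dotProduct, one_mul]
    exact CharTwo.add_self_eq_zero _

end af

variable {n : ℕ} {X : Type} [AddCommGroup X] [Module (ZMod 2) X]

theorem pr_cons {d : ℕ} (l : Af n) (L : Fin d → Af n) (p : Pt n) :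
    pr (Fin.cons l L : Fin (d + 1) → Af n) p = af l p * pr L p := by
  unfold pr
  rw [Fin.prod_univ_succ]
  simp only [Fin.cons_zero, Fin.cons_succ]

theorem du_zero (d : ℕ) : Du d (0 : Pt n → X) := by
  intro L
  simp

theorem du_add {d : ℕ} {α β : Pt n → X} (hα : Du d α) (hβ : Du d β) : Du d (α + β) := by
  intro L
  simp only [Pi.add_apply, smul_add, Finset.sum_add_distrib, hα L, hβ L, add_zero]

theorem du_sub {d : ℕ} {α β : Pt n → X} (hα : Du d α) (hβ : Du d β) : Du d (α - β) := by
  intro L
  simp only [Pi.sub_apply, smul_sub, Finset.sum_sub_distrib, hα L, hβ L, sub_zero]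

theorem du_neg {d : ℕ} {α : Pt n → X} (hα : Du d α) : Du d (-α) := by
  intro L
  simp only [Pi.neg_apply, smul_neg, Finset.sum_neg_distrib, hα L, neg_zero]

theorem du_mul {d : ℕ} {α : Pt n → X} (hα : Du (d + 1) α) (l : Af n) :
    Du d (fun p => af l p • α p) := by
  intro L
  have h1 := hα (Fin.cons l L)
  rw [← h1]
  refine Finset.sum_congr rfl fun p _ => ?_
  rw [pr_cons, smul_smul, mul_comm]

theorem du_of_succ {d : ℕ} {α : Pt n → X} (hα : Du (d + 1) α) : Du d α := by
  have h1 := du_mul hα (0, 1)
  simpa only [af_one, one_smul] using h1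

theorem du_iff {d : ℕ} {α : Pt n → X} : Du d α ↔ ∀ f ∈ RM n d, ∑ p, f p • α p = 0 := by
  constructor
  · intro h f hf
    refine Submodule.span_induction (p := fun f _ => ∑ p, f p • α p = 0) ?_ ?_ ?_ ?_ hf
    · rintro _ ⟨L, rfl⟩
      exact h L
    · simp
    · intro f g _ _ h1 h2
      simp only [Pi.add_apply, add_smul, Finset.sum_add_distrib, h1, h2, add_zero]
    · intro a f _ h1
      simp only [Pi.smul_apply, smul_eq_mul, mul_smul, ← Finset.smul_sum, h1, smul_zero]
  · intro h L
    exact h _ (pr_mem L)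

theorem sum_shift (v : Pt n) (F : Pt n → X) : ∑ p, F (p + v) = ∑ p, F p :=
  Equiv.sum_comp (Equiv.addRight v) F

theorem du_shift {d : ℕ} {α : Pt n → X} (hα : Du d α) (b : Pt n) : Du d (fun p => α (p + b)) := by
  intro L
  have h1 := hα (fun j => ((L j).1, af (L j) b))
  rw [← h1, ← sum_shift b (fun p => pr L p • α (p + b))]
  refine Finset.sum_congr rfl fun p _ => ?_
  rw [← pr_shift, add_assoc, pt_add_self, add_zero]

theorem deriv_aux (v : Pt n) {j : ℕ} : ∀ {ζ : Pt n → X}, Du j ζ → ∀ L : Fin (j + 1) → Af n,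
    ∑ p, (pr L p + pr L (p + v)) • ζ p = 0 := by
  induction j with
  | zero =>
    intro ζ h L
    have h1 : ∀ p, (pr L p + pr L (p + v)) = (L 0).1 ⬝ᵥ v := by
      intro p
      unfold pr
      rw [Fin.prod_univ_one, Fin.prod_univ_one, af_add_pt, ← add_assoc,
        CharTwo.add_self_eq_zero, zero_add]
    have h2 := h (fun i => i.elim0)
    simp only [pr_zero', one_smul] at h2
    simp only [h1, ← Finset.smul_sum, h2, smul_zero]
  | succ j ih =>
    intro ζ h L
    obtain ⟨l, L', rfl⟩ : ∃ (l : Af n) (L' : Fin (j + 1) → Af n), L = Fin.cons l L' :=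
      ⟨L 0, Fin.tail L, (Fin.cons_self_tail L).symm⟩
    have h1 : ∀ p, (pr (Fin.cons l L' : Fin (j + 2) → Af n) p +
        pr (Fin.cons l L' : Fin (j + 2) → Af n) (p + v)) • ζ p =
        (pr L' p + pr L' (p + v)) • (af l p • ζ p) + (l.1 ⬝ᵥ v) • (pr L' (p + v) • ζ p) := by
      intro p
      rw [pr_cons, pr_cons, af_add_pt, smul_smul, smul_smul, ← add_smul]
      congr 1
      ring
    simp only [h1, Finset.sum_add_distrib, ← Finset.smul_sum]
    rw [ih (du_mul h l) L', zero_add]
    have h2 : ∑ p, pr L' (p + v) • ζ p = 0 := by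
      simp only [pr_shift]
      exact h _
    rw [h2, smul_zero]

theorem du_deriv {d : ℕ} {ζ : Pt n → X} (hζ : Du d ζ) (v : Pt n) :
    Du (d + 1) (fun p => ζ p + ζ (p + v)) := by
  intro L
  have h1 := deriv_aux v hζ L
  rw [← h1]
  simp only [smul_add, add_smul, Finset.sum_add_distrib]
  congr 1
  rw [← sum_shift v (fun p => pr L (p + v) • ζ p)]
  refine Finset.sum_congr rfl fun p _ => ?_
  rw [add_assoc, pt_add_self, add_zero]

/-- Splitting of the weight by an affine form. -/
theorem wt_split (l : Af n) (γ : Pt n → X) :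
    wt γ = wt (fun p => af l p • γ p) + wt (fun p => af (l + (0, 1)) p • γ p) := by
  classical
  unfold wt
  rw [← Finset.card_union_of_disjoint]
  · congr 1
    ext p
    simp only [Finset.mem_union, Finset.mem_filter, Finset.mem_univ, true_and, af_add, af_one]
    rcases zmod_two_cases (af l p) with h | h
    · rw [h]; simp
    · rw [h]
      have : (1 : ZMod 2) + 1 = 0 := rfl
      simp [this]
  · rw [Finset.disjoint_filter]
    intro p _ h1 h2
    rcases zmod_two_cases (af l p) with h | h
    · apply h1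
      show af l p • γ p = 0
      rw [h, zero_smul]
    · apply h2
      show af (l + (0, 1)) p • γ p = 0
      have : (1 : ZMod 2) + 1 = 0 := rfl
      rw [af_add, af_one, h, this, zero_smul]

/-- The dual code of degree `d` has minimal distance `2 ^ (d + 1)`. -/
theorem du_dist {d : ℕ} : ∀ {γ : Pt n → X}, Du d γ → wt γ < 2 ^ (d + 1) → ∀ p, γ p = 0 := by
  classical
  induction d with
  | zero =>
    intro γ h hw p
    by_contra hp
    have h1 : ∀ q, q ≠ p → γ q = 0 := by
      intro q hq
      by_contra hq0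
      have h2 : ({p, q} : Finset (Pt n)) ⊆ Finset.univ.filter fun r => γ r ≠ 0 := by
        intro r hr
        rw [Finset.mem_insert, Finset.mem_singleton] at hr
        rw [Finset.mem_filter]
        rcases hr with rfl | rfl
        · exact ⟨Finset.mem_univ _, hp⟩
        · exact ⟨Finset.mem_univ _, hq0⟩
      have h3 := Finset.card_le_card h2
      rw [Finset.card_pair (Ne.symm hq)] at h3
      unfold wt at hw
      exact absurd (lt_of_le_of_lt h3 hw) (by norm_num)
    have h2 := h (fun i => i.elim0)
    rw [Finset.sum_eq_single p (fun q _ hq => by rw [h1 q hq, smul_zero])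
      (fun hp => absurd (Finset.mem_univ p) hp), pr_zero', one_smul] at h2
    exact hp h2
  | succ d ih =>
    intro γ h hw p
    by_contra hp
    by_cases hex : ∃ q, q ≠ p ∧ γ q ≠ 0
    · obtain ⟨q, hqp, hq⟩ := hex
      obtain ⟨l, hl1, hl0⟩ := exists_sep (Ne.symm hqp)
      have hsp := wt_split l γ
      rw [pow_succ] at hw
      rcases lt_or_ge (wt (fun p => af l p • γ p)) (2 ^ (d + 1)) with h1 | h1
      · have h2 := ih (du_mul h l) h1 p
        rw [hl1, one_smul] at h2
        exact hp h2
      · have h3 : wt (fun p => af (l + (0, 1)) p • γ p) < 2 ^ (d + 1) := by omega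
        have h2 := ih (du_mul h (l + (0, 1))) h3 q
        rw [af_add, af_one, hl0, zero_add, one_smul] at h2
        exact hq h2
    · push Not at hex
      have h2 := h (fun _ => (0, 1))
      have h3 : ∀ q : Pt n, pr (fun _ : Fin (d + 1) => ((0, 1) : Af n)) q = 1 := by
        intro q
        unfold pr
        simp only [af_one, Finset.prod_const_one]
      rw [Finset.sum_eq_single p (fun q _ hq => by rw [hex q hq, smul_zero])
        (fun hp => absurd (Finset.mem_univ p) hp), h3, one_smul] at h2
      exact hp h2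

theorem du_wt (d : ℕ) (α : Pt n → X) (hα : Du d α) (h0 : α ≠ 0) : 2 ^ (d + 1) ≤ wt α := by
  by_contra hcon
  push Not at hcon
  exact h0 (funext fun p => du_dist hα hcon p)

end Pool.Agent.Lib.P325rc
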