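import Pool.Agent.Lib.P325rc.Low

/-!
Module Eig (1.5h; black box hit_one). The noise: its characters and how often it hits a point.
PROOF. ch_nzt: ch α (nzt ν) = ∏_i sg (∑_p pr (ν i).1 p * (α p ⬝ᵥ (ν i).2)) = ∏_i sg ((∑_p pr (ν i).1 p • α p) ⬝ᵥ (ν i).2).
The mean over ν : Fin m → _ of a product of functions of the entries is the product of the means (m-th power). The mean
of sg (x ⬝ᵥ v) over v : Pt s is 1 if x = 0 and 0 else (sum_sg_dot in P325x Affine.lean). So the mean over (L, v) is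
Pr_L [∑_p pr L p • α p = 0] = 1 - rej d α. hit: nzt ν p ≠ 0 implies pr (ν i).1 p = 1 for some i; union bound, hit_one.
-/

open scoped BigOperators

namespace Pool.Agent.Lib.P325rc

open Pool.Agent.Lib.P325x (Pt sg mean)

namespace EigAux

theorem mean_pi {E : Type*} [Fintype E] {m : ℕ} (g : Fin m → E → ℝ) :
    mean (fun ν : Fin m → E => ∏ j, g j (ν j)) = ∏ j, mean (g j) := by
  classical
  have h2 : ∑ ν : Fin m → E, ∏ j, g j (ν j) = ∏ j, ∑ x : E, g j x := by
    have h3 := Finset.prod_univ_sum (fun _ : Fin m => (Finset.univ : Finset E)) g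
    rw [Fintype.piFinset_univ] at h3
    exact h3.symm
  unfold mean
  rw [h2, Finset.prod_div_distrib, Finset.prod_const, Finset.card_univ, Fintype.card_fin,
    Fintype.card_fun, Fintype.card_fin, Nat.cast_pow]

theorem mean_coord {E : Type*} [Fintype E] [Nonempty E] {m : ℕ} (i : Fin m) (f : E → ℝ) :
    mean (fun ν : Fin m → E => f (ν i)) = mean f := by
  classical
  have h1 := mean_pi (fun j : Fin m => if j = i then f else fun _ => (1 : ℝ))
  have h2 : ∀ ν : Fin m → E, ∏ j, (if j = i then f else fun _ => (1 : ℝ)) (ν j) = f (ν i) := by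
    intro ν
    rw [Finset.prod_eq_single i]
    · rw [if_pos rfl]
    · intro j _ hj
      rw [if_neg hj]
    · intro h
      exact absurd (Finset.mem_univ i) h
  have h3 : ∏ j, mean (if j = i then f else fun _ => (1 : ℝ)) = mean f := by
    rw [Finset.prod_eq_single i]
    · rw [if_pos rfl]
    · intro j _ hj
      rw [if_neg hj]
      exact Pool.Agent.Lib.P325x.mean_const 1
    · intro h
      exact absurd (Finset.mem_univ i) h
  rw [← h3, ← h1]
  exact Pool.Agent.Lib.P325x.mean_congr fun ν => (h2 ν).symm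

theorem mean_sg {s : ℕ} (x : Pt s) :
    mean (fun v : Pt s => sg (x ⬝ᵥ v)) = if x = 0 then (1 : ℝ) else 0 := by
  unfold mean
  rw [Pool.Agent.Lib.P325x.sum_sg_dot]
  have hc : (Fintype.card (Pt s) : ℝ) = 2 ^ s := by
    simp [Pt, ZMod.card]
  rw [hc]
  split_ifs
  · exact div_self (by positivity)
  · exact zero_div _

theorem dot_nzt {n d s m : ℕ} (α : Pt n → Pt s) (ν : Nz n d s m) :
    ∑ p, α p ⬝ᵥ nzt ν p = ∑ i, (∑ p, pr (ν i).1 p • α p) ⬝ᵥ (ν i).2 := by
  unfold nzt
  simp only [dotProduct_sum, sum_dotProduct, dotProduct_smul, smul_dotProduct]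
  exact Finset.sum_comm

end EigAux

open EigAux

theorem ch_add {n s : ℕ} (α y y' : Pt n → Pt s) : ch α (y + y') = ch α y * ch α y' := by
  unfold ch
  rw [← Pool.Agent.Lib.P325x.sg_add, ← Finset.sum_add_distrib]
  congr 1
  refine Finset.sum_congr rfl fun p _ => ?_
  rw [Pi.add_apply, dotProduct_add]

theorem mean_ch_nzt {n d s m : ℕ} (α : Pt n → Pt s) :
    mean (fun ν : Nz n d s m => ch α (nzt ν)) = (1 - rej d α) ^ m := by
  classical
  have h1 : ∀ ν : Nz n d s m, ch α (nzt ν) =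
      ∏ i, (fun e : (Fin d → Af n) × Pt s => sg ((∑ p, pr e.1 p • α p) ⬝ᵥ e.2)) (ν i) := by
    intro ν
    unfold ch
    rw [dot_nzt, Pool.Agent.Lib.P325x.sg_sum]
  rw [Pool.Agent.Lib.P325x.mean_congr h1,
    mean_pi (fun _ : Fin m => fun e : (Fin d → Af n) × Pt s =>
      sg ((∑ p, pr e.1 p • α p) ⬝ᵥ e.2)), Finset.prod_const, Finset.card_univ, Fintype.card_fin]
  congr 1
  rw [Pool.Agent.Lib.P325x.mean_prod]
  have h2 : ∀ L : Fin d → Af n, mean (fun v : Pt s => sg ((∑ p, pr L p • α p) ⬝ᵥ v)) =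
      1 + (-1) * (if ∑ p, pr L p • α p = 0 then (0 : ℝ) else 1) := by
    intro L
    rw [mean_sg]
    split_ifs <;> norm_num
  rw [Pool.Agent.Lib.P325x.mean_congr h2, Pool.Agent.Lib.P325x.mean_add,
    Pool.Agent.Lib.P325x.mean_smul, Pool.Agent.Lib.P325x.mean_const]
  unfold rej
  have h3 : mean (fun L : Fin d → Af n => if ∑ p, pr L p • α p = 0 then (0 : ℝ) else 1) =
      mean (fun L : Fin d → Af n =>
        @ite ℝ (∑ p, pr L p • α p = 0) (Classical.propDecidable _) 0 1) := by
    refine Pool.Agent.Lib.P325x.mean_congr fun L => ?_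
    by_cases h : ∑ p, pr L p • α p = 0
    · rw [if_pos h, if_pos h]
    · rw [if_neg h, if_neg h]
  rw [h3]
  ring

theorem hit {n d s m : ℕ} (p : Pt n) :
    mean (fun ν : Nz n d s m => if nzt ν p = 0 then (0 : ℝ) else 1) ≤ (m : ℝ) / 2 ^ d := by
  classical
  have h1 : ∀ ν : Nz n d s m, (if nzt ν p = 0 then (0 : ℝ) else 1) ≤
      ∑ i, (fun e : (Fin d → Af n) × Pt s => if pr e.1 p = 1 then (1 : ℝ) else 0) (ν i) := by
    intro ν
    have hnn : ∀ i ∈ (Finset.univ : Finset (Fin m)), (0 : ℝ) ≤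
        (fun e : (Fin d → Af n) × Pt s => if pr e.1 p = 1 then (1 : ℝ) else 0) (ν i) := by
      intro i _
      show (0 : ℝ) ≤ if pr (ν i).1 p = 1 then (1 : ℝ) else 0
      split_ifs <;> norm_num
    by_cases h : nzt ν p = 0
    · rw [if_pos h]
      exact Finset.sum_nonneg hnn
    · rw [if_neg h]
      have h2 : ∃ i, pr (ν i).1 p = 1 := by
        by_contra h3
        apply h
        unfold nzt
        refine Finset.sum_eq_zero fun i _ => ?_
        have h4 : pr (ν i).1 p = 0 := by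
          by_contra h5
          exact h3 ⟨i, (LowAux.one_iff _).2 h5⟩
        rw [h4, zero_smul]
      obtain ⟨i, hi⟩ := h2
      refine le_trans ?_ (Finset.single_le_sum hnn (Finset.mem_univ i))
      show (1 : ℝ) ≤ if pr (ν i).1 p = 1 then (1 : ℝ) else 0
      rw [if_pos hi]
  refine (Pool.Agent.Lib.P325x.mean_mono h1).trans (le_of_eq ?_)
  rw [Pool.Agent.Lib.P325x.mean_sum Finset.univ (fun (i : Fin m) (ν : Nz n d s m) =>
    (fun e : (Fin d → Af n) × Pt s => if pr e.1 p = 1 then (1 : ℝ) else 0) (ν i))]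
  have h2 : ∀ i ∈ (Finset.univ : Finset (Fin m)), mean (fun ν : Nz n d s m =>
      (fun e : (Fin d → Af n) × Pt s => if pr e.1 p = 1 then (1 : ℝ) else 0) (ν i)) =
      1 / 2 ^ d := by
    intro i _
    rw [mean_coord i (fun e : (Fin d → Af n) × Pt s => if pr e.1 p = 1 then (1 : ℝ) else 0),
      Pool.Agent.Lib.P325x.mean_prod]
    have h3 : ∀ L : Fin d → Af n, mean (fun _ : Pt s => if pr L p = 1 then (1 : ℝ) else 0) =
        if pr L p = 1 then (1 : ℝ) else 0 := fun L => Pool.Agent.Lib.P325x.mean_const _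
    rw [Pool.Agent.Lib.P325x.mean_congr h3, hit_one]
  rw [Finset.sum_congr rfl h2, Finset.sum_const, Finset.card_univ, Fintype.card_fin, nsmul_eq_mul]
  ring

end Pool.Agent.Lib.P325rc
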