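import Pool.Agent.Lib.P325rc.Rep
import Pool.Agent.Lib.P325f1f.Dich.Four

/-!
Module Four (2h; black boxes mean_ch, du_wt, wt_add, ch_add, Dich.fourth). The fourth moment bound on the tables.
PROOF. Let e α = (1/2)^(wt α) * c α. The fourth power is the sum over (α1, .., α4) of e α1 .. e α4 * ch (α1 + .. + α4) y.
If all e αi ≠ 0 then wt (α1 + .. + α4) ≤ 4 D < 2^(d+1), so Du d (α1 + .. + α4) iff the sum is 0 (du_wt, du_zero), and
the mean over the tables is [α1 + .. + α4 = 0] (mean_ch). The same formula holds for the mean over all functions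
x : Pt n → Pt s (mean of ch β x over all x is [β = 0]). So the left side is the mean over all x : Pt n → Pt s of
(∑ α, e α * ch α x)^4 = 𝔼 x, ofCoef Φ e x ^ 4 for the system Φ : Sys (Pt s) 0 with φ a x = sg (a ⬝ᵥ x) (orth, comp: sum_sg_dot
in P325x Affine.lean), because (Φ.pi (Pt n)).φ α x = ∏_p sg (α p ⬝ᵥ x p) = ch α x (sg_sum). Apply Dich.fourth with
X = Pt s, Λ = Pt n, o = 0: supp 0 α has wt α elements, Fintype.card (Pt s) = 2^s.
-/

open scoped BigOperators

namespace Pool.Agent.Lib.P325rc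

open Pool.Agent.Lib.P325x (Pt sg mean)

variable {n d s : ℕ}

namespace FourAux

open Pool.Agent.Lib.P325x (sg_add sg_zero sg_sum sum_sg_dot mean_sum mean_smul mean_congr)
open Pool.Agent.P325f1f.Dich

lemma add_eq_zero_iff' (a b : Pt s) : a + b = 0 ↔ a = b := by
  constructor
  · intro h
    have h1 : b + b = 0 := Pool.Agent.Lib.P325x.pt_add_self b
    calc a = a + (b + b) := by rw [h1, add_zero]
      _ = b := by rw [← add_assoc, h, zero_add]
  · rintro rfl
    exact Pool.Agent.Lib.P325x.pt_add_self a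

lemma card_pt : (Fintype.card (Pt s) : ℝ) = 2 ^ s := by
  rw [Fintype.card_fun, ZMod.card, Fintype.card_fin]
  push_cast
  rfl

/-- The characters of `Pt s`. -/
noncomputable def sys (s : ℕ) : Sys (Pt s) 0 where
  φ a x := sg (a ⬝ᵥ x)
  orth a b := by
    have h1 : ∀ x : Pt s, sg (a ⬝ᵥ x) * sg (b ⬝ᵥ x) = sg ((a + b) ⬝ᵥ x) := by
      intro x
      rw [add_dotProduct, sg_add]
    rw [Finset.sum_congr rfl fun x _ => h1 x, sum_sg_dot, card_pt]
    simp only [add_eq_zero_iff']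
  comp x y := by
    have h1 : ∀ a : Pt s, sg (a ⬝ᵥ x) * sg (a ⬝ᵥ y) = sg ((x + y) ⬝ᵥ a) := by
      intro a
      rw [add_dotProduct, sg_add, dotProduct_comm x a, dotProduct_comm y a]
    rw [Finset.sum_congr rfl fun x _ => h1 x, sum_sg_dot, card_pt]
    simp only [add_eq_zero_iff']
  one x := by
    rw [zero_dotProduct, sg_zero]

lemma pi_ch (α x : Pt n → Pt s) : ((sys s).pi (Pt n)).φ α x = ch α x := by
  rw [Sys.pi_φ, ch, sg_sum]
  rfl

lemma ch_add' (α β y : Pt n → Pt s) : ch (α + β) y = ch α y * ch β y := by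
  unfold ch
  rw [← sg_add, ← Finset.sum_add_distrib]
  congr 1
  refine Finset.sum_congr rfl fun p _ => ?_
  rw [Pi.add_apply, add_dotProduct]

lemma mean_all (β : Pt n → Pt s) : mean (fun x : Pt n → Pt s => ch β x) = if β = 0 then 1 else 0 := by
  have h := ((sys s).pi (Pt n)).orth' β 0
  rw [Finset.expect_congr rfl (fun x _ => show ((sys s).pi (Pt n)).φ β x * ((sys s).pi (Pt n)).φ 0 x = ch β x by
    rw [pi_ch, pi_ch]
    have : ch (0 : Pt n → Pt s) x = 1 := by
      unfold ch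
      simp [sg_zero]
    rw [this, mul_one])] at h
  rw [Fintype.expect_eq_sum_div_card] at h
  exact h

/-- The fourth power. -/
lemma pow_four (e : (Pt n → Pt s) → ℝ) (y : Pt n → Pt s) :
    (∑ α, e α * ch α y) ^ 4 = ∑ q : (Pt n → Pt s) × (Pt n → Pt s) × (Pt n → Pt s) × (Pt n → Pt s),
      (e q.1 * e q.2.1 * e q.2.2.1 * e q.2.2.2) * ch (q.1 + q.2.1 + q.2.2.1 + q.2.2.2) y := by
  have h1 : ∀ q : (Pt n → Pt s) × (Pt n → Pt s) × (Pt n → Pt s) × (Pt n → Pt s),
      (e q.1 * e q.2.1 * e q.2.2.1 * e q.2.2.2) * ch (q.1 + q.2.1 + q.2.2.1 + q.2.2.2) y =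
      (e q.1 * ch q.1 y) * ((e q.2.1 * ch q.2.1 y) * ((e q.2.2.1 * ch q.2.2.1 y) *
        (e q.2.2.2 * ch q.2.2.2 y))) := by
    intro q
    rw [ch_add', ch_add', ch_add']
    ring
  rw [Finset.sum_congr rfl fun q _ => h1 q, Fintype.sum_prod_type]
  have h2 : ∀ (T : Type) [Fintype T] (f : T → ℝ) (g : (Pt n → Pt s) → ℝ),
      ∑ q : (Pt n → Pt s) × T, g q.1 * f q.2 = (∑ α, g α) * ∑ t, f t := by
    intro T _ f g
    rw [Fintype.sum_prod_type, Finset.sum_mul_sum]
  have h3 : ∑ x : Pt n → Pt s, ∑ q : (Pt n → Pt s) × (Pt n → Pt s) × (Pt n → Pt s),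
      (e x * ch x y) * ((e q.1 * ch q.1 y) * ((e q.2.1 * ch q.2.1 y) * (e q.2.2 * ch q.2.2 y))) =
      (∑ α, e α * ch α y) * ∑ q : (Pt n → Pt s) × (Pt n → Pt s) × (Pt n → Pt s),
        (e q.1 * ch q.1 y) * ((e q.2.1 * ch q.2.1 y) * (e q.2.2 * ch q.2.2 y)) := by
    rw [Finset.sum_mul_sum]
  rw [h3, h2 ((Pt n → Pt s) × (Pt n → Pt s)) (fun q => (e q.1 * ch q.1 y) * (e q.2 * ch q.2 y))
    (fun α => e α * ch α y), h2 (Pt n → Pt s) (fun α => e α * ch α y) (fun α => e α * ch α y)]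
  ring

lemma supp_card (α : Pt n → Pt s) : (supp (0 : Pt s) α).card = wt α := by
  unfold supp wt
  congr 1
  ext p
  simp

end FourAux

open FourAux Pool.Agent.P325f1f.Dich in
theorem fourC (D : ℕ) (hD : 4 * D < 2 ^ (d + 1)) (c : (Pt n → Pt s) → ℝ)
    (hc : ∀ α, D < wt α → c α = 0) (τ : ℝ) (hτ0 : 0 ≤ τ)
    (hτ : ∀ p : Pt n, ∑ α with α p ≠ 0, c α ^ 2 ≤ τ) :
    mean (fun y : Tb n d s => (∑ α : Pt n → Pt s, (1 / 2) ^ (wt α) * c α * ch α y.1) ^ 4) ≤
      (∑ α, c α ^ 2) ^ 2 + (1 + (2 : ℝ) ^ s) ^ D * τ * ∑ α, c α ^ 2 := by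
  classical
  set e : (Pt n → Pt s) → ℝ := fun α => (1 / 2) ^ (wt α) * c α with he
  have he0 : ∀ α, e α ≠ 0 → wt α ≤ D := by
    intro α hα
    by_contra hcon
    apply hα
    rw [he]
    simp only
    rw [hc α (by omega), mul_zero]
  have h1 : mean (fun y : Tb n d s => (∑ α : Pt n → Pt s, (1 / 2) ^ (wt α) * c α * ch α y.1) ^ 4) =
      ∑ q : (Pt n → Pt s) × (Pt n → Pt s) × (Pt n → Pt s) × (Pt n → Pt s),
      (e q.1 * e q.2.1 * e q.2.2.1 * e q.2.2.2) *
        (if Du d (q.1 + q.2.1 + q.2.2.1 + q.2.2.2) then 1 else 0) := by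
    rw [Pool.Agent.Lib.P325x.mean_congr (fun y : Tb n d s => pow_four e y.1),
      Pool.Agent.Lib.P325x.mean_sum]
    refine Finset.sum_congr rfl fun q _ => ?_
    rw [Pool.Agent.Lib.P325x.mean_smul, mean_ch]
  have h2 : mean (fun y : Pt n → Pt s => (∑ α : Pt n → Pt s, e α * ch α y) ^ 4) =
      ∑ q : (Pt n → Pt s) × (Pt n → Pt s) × (Pt n → Pt s) × (Pt n → Pt s),
      (e q.1 * e q.2.1 * e q.2.2.1 * e q.2.2.2) *
        (if q.1 + q.2.1 + q.2.2.1 + q.2.2.2 = 0 then 1 else 0) := by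
    rw [Pool.Agent.Lib.P325x.mean_congr (fun y : Pt n → Pt s => pow_four e y),
      Pool.Agent.Lib.P325x.mean_sum]
    refine Finset.sum_congr rfl fun q _ => ?_
    rw [Pool.Agent.Lib.P325x.mean_smul, mean_all]
  have h3 : mean (fun y : Tb n d s => (∑ α : Pt n → Pt s, (1 / 2) ^ (wt α) * c α * ch α y.1) ^ 4) =
      mean (fun y : Pt n → Pt s => (∑ α : Pt n → Pt s, e α * ch α y) ^ 4) := by
    rw [h1, h2]
    refine Finset.sum_congr rfl fun q _ => ?_
    by_cases hq : e q.1 * e q.2.1 * e q.2.2.1 * e q.2.2.2 = 0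
    · rw [hq, zero_mul, zero_mul]
    · simp only [mul_ne_zero_iff, ne_eq] at hq
      obtain ⟨⟨⟨a1, a2⟩, a3⟩, a4⟩ := hq
      have b1 := he0 _ a1
      have b2 := he0 _ a2
      have b3 := he0 _ a3
      have b4 := he0 _ a4
      have c1 := wt_add q.1 q.2.1
      have c2 := wt_add (q.1 + q.2.1) q.2.2.1
      have c3 := wt_add (q.1 + q.2.1 + q.2.2.1) q.2.2.2
      have hiff : Du d (q.1 + q.2.1 + q.2.2.1 + q.2.2.2) ↔ q.1 + q.2.1 + q.2.2.1 + q.2.2.2 = 0 := by
        constructor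
        · intro hdu
          by_contra hne
          have := du_wt d _ hdu hne
          omega
        · intro h0
          rw [h0]
          exact du_zero d
      simp only [hiff]
  rw [h3]
  have h4 : mean (fun y : Pt n → Pt s => (∑ α : Pt n → Pt s, e α * ch α y) ^ 4) =
      Finset.expect Finset.univ (fun x : Pt n → Pt s =>
        ofCoef (sys s) (fun α => (1 / 2) ^ (supp (0 : Pt s) α).card * c α) x ^ 4) := by
    rw [Fintype.expect_eq_sum_div_card, mean]
    congr 1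
    refine Finset.sum_congr rfl fun x _ => ?_
    congr 1
    unfold ofCoef
    refine Finset.sum_congr rfl fun α _ => ?_
    rw [pi_ch]
    show e α * ch α x = (1 / 2) ^ (supp (0 : Pt s) α).card * c α * ch α x
    rw [supp_card]
  rw [h4]
  have h5 := fourth (sys s) c D τ (fun α hα => by
    rw [supp_card]
    by_contra hcon
    exact hα (hc α (by omega))) hτ0 (fun p => by
      refine le_trans (le_of_eq ?_) (hτ p)
      refine Finset.sum_congr ?_ fun _ _ => rfl
      ext α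
      simp)
  rw [card_pt] at h5
  exact h5

end Pool.Agent.Lib.P325rc
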