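import Pool.Agent.Lib.P325rc.Dist

/-!
P325rc: gluing of words of the dual code over half spaces.
-/

open scoped BigOperators

namespace Pool.Agent.Lib.P325rc

open Pool.Agent.Lib.P325x (Pt sg mean Game zmod_two_cases pt_add_self sum_sg_dot sg_add sg_zero
  sg_one)

section

variable {n : ℕ} {X : Type} [AddCommGroup X] [Module (ZMod 2) X]

/-- Gluing: the maximal stage. -/
theorem glue_aux {j : ℕ} (Gd : Set (Af n)) (g : Af n → Pt n → X)
    (h1 : ∀ l ∈ Gd, Du j (g l))
    (h2 : ∀ l ∈ Gd, ∀ l' ∈ Gd, ∀ p, af l' p • g l p = af l p • g l' p)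
    (h3 : ∀ l ∈ Gd, ∀ p, af l p = 0 → g l p = 0) :
    ∃ (V : AddSubgroup (Pt n)) (γ : Pt n → X) (T : Set (Af n)), T ⊆ Gd ∧ Du (j + 1) γ ∧
      (∀ l ∈ T, ∀ v ∈ V, l.1 ⬝ᵥ v = 0) ∧
      (∀ p q, (∀ l ∈ T, af l p = 0) → (∀ l ∈ T, af l q = 0) → p + q ∈ V) ∧
      (∀ l ∈ T, ∀ p, af l p • γ p = g l p) ∧ ∀ l ∈ Gd, ∀ v ∈ V, l.1 ⬝ᵥ v = 0 := by
  classical
  let S : ℕ → Prop := fun c => ∃ (V : AddSubgroup (Pt n)) (γ : Pt n → X) (T : Set (Af n)),
    Nat.card V = c ∧ T ⊆ Gd ∧ Du (j + 1) γ ∧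
      (∀ l ∈ T, ∀ v ∈ V, l.1 ⬝ᵥ v = 0) ∧
      (∀ p q, (∀ l ∈ T, af l p = 0) → (∀ l ∈ T, af l q = 0) → p + q ∈ V) ∧
      (∀ l ∈ T, ∀ p, af l p • γ p = g l p)
  have hS : ∃ c, S c := ⟨_, ⊤, 0, ∅, rfl, by simp, du_zero _, by simp, by simp, by simp⟩
  obtain ⟨V, γ, T, hc, hT, hγ, hV, hB, hg⟩ := Nat.find_spec hS
  refine ⟨V, γ, T, hT, hγ, hV, hB, hg, ?_⟩
  by_contra hcon
  push Not at hcon
  obtain ⟨l, hl, v, hv, hlv⟩ := hcon
  have hlv1 : l.1 ⬝ᵥ v = 1 := (zmod_two_cases _).resolve_left hlv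
  set ζ : Pt n → X := fun p => g l p - af l p • γ p with hζ
  have hζd : Du j ζ := du_sub (h1 l hl) (du_mul hγ l)
  have hζ0 : ∀ p, af l p = 0 → ζ p = 0 := by
    intro p hp
    rw [hζ]
    simp only [hp, zero_smul, sub_zero]
    exact h3 l hl p hp
  have hζT : ∀ l' ∈ T, ∀ p, af l' p = 1 → ζ p = 0 := by
    intro l' hl' p hp
    have e1 : af l' p • ζ p = 0 := by
      rw [hζ]
      simp only [smul_sub]
      rw [h2 l hl l' (hT hl') p, smul_comm, hg l' hl' p, sub_self]
    rwa [hp, one_smul] at e1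
  let V' : AddSubgroup (Pt n) :=
    { carrier := {w | w ∈ V ∧ l.1 ⬝ᵥ w = 0}
      add_mem' := by
        rintro a b ⟨ha, ha'⟩ ⟨hb, hb'⟩
        exact ⟨V.add_mem ha hb, by rw [dotProduct_add, ha', hb', add_zero]⟩
      zero_mem' := ⟨V.zero_mem, dotProduct_zero _⟩
      neg_mem' := by
        rintro a ⟨ha, ha'⟩
        exact ⟨V.neg_mem ha, by rw [dotProduct_neg, ha', neg_zero]⟩ }
  have hV'sub : ∀ w, w ∈ V' ↔ w ∈ V ∧ l.1 ⬝ᵥ w = 0 := fun w => Iff.rfl
  have hlt : Nat.card V' < Nat.card V := by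
    have e1 : (V' : Set (Pt n)) ⊂ (V : Set (Pt n)) := by
      rw [Set.ssubset_iff_of_subset (fun w hw => ((hV'sub w).1 hw).1)]
      refine ⟨v, hv, fun hv' => ?_⟩
      exact hlv ((hV'sub v).1 hv').2
    exact Set.ncard_lt_ncard e1 (Set.toFinite _)
  refine Nat.find_min hS (m := Nat.card V') (by rw [← hc]; exact hlt) ?_
  refine ⟨V', fun p => γ p + (ζ p + ζ (p + v)), insert l T, rfl, ?_, ?_, ?_, ?_, ?_⟩
  · exact Set.insert_subset hl hT
  · exact du_add hγ (du_deriv hζd v)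
  · intro l' hl' w hw
    rcases hl' with rfl | hl'
    · exact ((hV'sub w).1 hw).2
    · exact hV l' hl' w ((hV'sub w).1 hw).1
  · intro p q hp hq
    rw [hV'sub]
    refine ⟨hB p q (fun l' hl' => hp l' (Set.mem_insert_of_mem _ hl'))
      (fun l' hl' => hq l' (Set.mem_insert_of_mem _ hl')), ?_⟩
    have e1 := hp l (Set.mem_insert _ _)
    have e2 := hq l (Set.mem_insert _ _)
    have e3 : l.1 ⬝ᵥ (p + q) = af l p + af l q := by
      simp only [af, dotProduct_add]
      have : l.2 + l.2 = 0 := CharTwo.add_self_eq_zero _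
      calc l.1 ⬝ᵥ p + l.1 ⬝ᵥ q = l.1 ⬝ᵥ p + l.1 ⬝ᵥ q + (l.2 + l.2) := by rw [this, add_zero]
        _ = _ := by abel
    rw [e3, e1, e2, add_zero]
  · intro l' hl' p
    show af l' p • (γ p + (ζ p + ζ (p + v))) = g l' p
    rcases hl' with rfl | hl'
    · rcases zmod_two_cases (af l' p) with hp | hp
      · rw [hp, zero_smul]
        exact (h3 l' hl p hp).symm
      · have e1 : af l' (p + v) = 0 := by
          rw [af_add_pt, hp, hlv1]
          rfl
        rw [hζ0 _ e1, add_zero, hp, one_smul, hζ]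
        simp only [hp, one_smul]
        abel
    · rcases zmod_two_cases (af l' p) with hp | hp
      · have e0 := hg l' hl' p
        rw [hp, zero_smul] at e0 ⊢
        exact e0
      · have e1 : af l' (p + v) = 1 := by
          rw [af_add_pt, hp, hV l' hl' v hv, add_zero]
        rw [hζT l' hl' p hp, hζT l' hl' _ e1, add_zero, add_zero]
        exact hg l' hl' p

/-- If all forms of `Gd` vanish on a group of at least four directions then `Gd` has at most a quarter of all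
affine forms. -/
theorem quarter (Gd : Finset (Af n)) (V : AddSubgroup (Pt n))
    (h : ∀ l ∈ Gd, ∀ v ∈ V, l.1 ⬝ᵥ v = 0) (hV : 4 ≤ Nat.card V) :
    4 * Gd.card ≤ Fintype.card (Af n) := by
  classical
  obtain ⟨v, hv, hv0⟩ : ∃ v ∈ V, v ≠ 0 := by
    by_contra hcon
    push Not at hcon
    have e1 : (V : Set (Pt n)) ⊆ {0} := fun w hw => hcon w hw
    have e2 := Set.ncard_le_ncard e1 (Set.toFinite _)
    rw [Set.ncard_singleton] at e2
    have e3 : Nat.card V = (V : Set (Pt n)).ncard := rfl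
    omega
  obtain ⟨w, hw, hw0, hwv⟩ : ∃ w ∈ V, w ≠ 0 ∧ w ≠ v := by
    by_contra hcon
    push Not at hcon
    have e1 : (V : Set (Pt n)) ⊆ {0, v} := by
      intro w hw
      by_cases h0 : w = 0
      · exact Or.inl h0
      · exact Or.inr (hcon w hw h0)
    have e2 := Set.ncard_le_ncard e1 (Set.toFinite _)
    rw [Set.ncard_pair (Ne.symm hv0)] at e2
    have e3 : Nat.card V = (V : Set (Pt n)).ncard := rfl
    omega
  have hvw : v + w ≠ 0 := by
    intro e
    apply hwv
    have : w = v + (v + w) := by rw [← add_assoc, pt_add_self, zero_add]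
    rw [this, e, add_zero]
  have hs : ∀ u : Pt n, u ≠ 0 → ∑ a : Pt n, sg (a ⬝ᵥ u) = 0 := by
    intro u hu
    have := sum_sg_dot u
    rw [if_neg hu] at this
    rw [← this]
    exact Finset.sum_congr rfl fun a _ => by rw [dotProduct_comm]
  have hcard : (Fintype.card (Af n) : ℝ) = 2 * 2 ^ n := by
    rw [Fintype.card_prod, ZMod.card, Fintype.card_fun, ZMod.card, Fintype.card_fin]
    push_cast
    ring
  have h4 : (Gd.card : ℝ) ≤ ∑ l : Af n, (1 + sg (l.1 ⬝ᵥ v)) * (1 + sg (l.1 ⬝ᵥ w)) / 4 := by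
    have e1 : (Gd.card : ℝ) = ∑ l ∈ Gd, (1 + sg (l.1 ⬝ᵥ v)) * (1 + sg (l.1 ⬝ᵥ w)) / 4 := by
      rw [Finset.card_eq_sum_ones]
      push_cast
      refine Finset.sum_congr rfl fun l hl => ?_
      rw [h l hl v hv, h l hl w hw, sg_zero]
      norm_num
    rw [e1]
    refine Finset.sum_le_sum_of_subset_of_nonneg (Finset.subset_univ _) fun l _ _ => ?_
    have e2 : ∀ t : ZMod 2, 0 ≤ 1 + sg t := by
      intro t
      rcases zmod_two_cases t with rfl | rfl
      · rw [sg_zero]; norm_num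
      · rw [sg_one]; norm_num
    have := e2 (l.1 ⬝ᵥ v)
    have := e2 (l.1 ⬝ᵥ w)
    positivity
  have h5 : ∑ l : Af n, (1 + sg (l.1 ⬝ᵥ v)) * (1 + sg (l.1 ⬝ᵥ w)) / 4 = 2 * 2 ^ n / 4 := by
    rw [Fintype.sum_prod_type]
    simp only [Finset.sum_const, Finset.card_univ, ZMod.card, nsmul_eq_mul]
    rw [← Finset.mul_sum, ← Finset.sum_div]
    have e1 : ∑ a : Pt n, (1 + sg (a ⬝ᵥ v)) * (1 + sg (a ⬝ᵥ w)) = 2 ^ n := by
      have e2 : ∀ a : Pt n, (1 + sg (a ⬝ᵥ v)) * (1 + sg (a ⬝ᵥ w)) =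
          1 + sg (a ⬝ᵥ v) + sg (a ⬝ᵥ w) + sg (a ⬝ᵥ (v + w)) := by
        intro a
        rw [dotProduct_add, sg_add]
        ring
      simp only [e2, Finset.sum_add_distrib, hs v hv0, hs w hw0, hs _ hvw, Finset.sum_const,
        Finset.card_univ, nsmul_eq_mul, mul_one, add_zero]
      rw [Fintype.card_fun, ZMod.card, Fintype.card_fin]
      push_cast
      rfl
    rw [e1]
    push_cast
    ring
  have h6 : (4 * Gd.card : ℝ) ≤ (Fintype.card (Af n) : ℝ) := by
    rw [hcard]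
    rw [h5] at h4
    linarith
  exact_mod_cast h6

/-- Gluing. -/
theorem glue {j D : ℕ} (hj : 1 ≤ j) (hD : 2 * D < 2 ^ j) (β : Pt n → X) (Gd : Finset (Af n))
    (hG : ∀ l ∈ Gd, ∃ γ, Du j γ ∧ wt (fun p => af l p • β p - γ p) ≤ D)
    (hc : Fintype.card (Af n) < 4 * Gd.card) :
    ∃ γ, Du (j + 1) γ ∧ ∀ l ∈ Gd, wt (fun p => af l p • (β p - γ p)) ≤ D := by
  classical
  obtain ⟨i, rfl⟩ : ∃ i, j = i + 1 := ⟨j - 1, by omega⟩
  have hG' : ∀ l : Af n, ∃ γ : Pt n → X, l ∈ Gd → Du (i + 1) γ ∧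
      wt (fun p => af l p • β p - γ p) ≤ D := by
    intro l
    by_cases hl : l ∈ Gd
    · obtain ⟨γ, h⟩ := hG l hl
      exact ⟨γ, fun _ => h⟩
    · exact ⟨fun _ => 0, fun h => absurd h hl⟩
  choose g hg using hG'
  have h1 : ∀ l ∈ (Gd : Set (Af n)), Du (i + 1) (g l) := fun l hl => (hg l hl).1
  have h2 : ∀ l ∈ (Gd : Set (Af n)), ∀ l' ∈ (Gd : Set (Af n)), ∀ p,
      af l' p • g l p = af l p • g l' p := by
    intro l hl l' hl' p
    have e1 : Du i (fun p => af l' p • g l p - af l p • g l' p) :=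
      du_sub (du_mul (h1 l hl) l') (du_mul (h1 l' hl') l)
    have e2 : wt (fun p => af l' p • g l p - af l p • g l' p) ≤ D + D := by
      have e3 : (fun p => af l' p • g l p - af l p • g l' p) =
          fun p => af l p • (af l' p • β p - g l' p) - af l' p • (af l p • β p - g l p) := by
        funext p
        rw [smul_sub, smul_sub, smul_comm (af l p) (af l' p) (β p)]
        abel
      rw [e3]
      refine (wt_sub _ _).trans (add_le_add ?_ ?_)
      · refine (wt_le_of_imp fun p hp h0 => ?_).trans (hg l' hl').2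
        apply hp
        show af l p • (af l' p • β p - g l' p) = 0
        rw [h0, smul_zero]
      · refine (wt_le_of_imp fun p hp h0 => ?_).trans (hg l hl).2
        apply hp
        show af l' p • (af l p • β p - g l p) = 0
        rw [h0, smul_zero]
    exact sub_eq_zero.1 (du_dist e1 (by omega) p)
  have h3 : ∀ l ∈ (Gd : Set (Af n)), ∀ p, af l p = 0 → g l p = 0 := by
    intro l hl p hp
    have e1 : Du i (fun p => g l p - af l p • g l p) :=
      du_sub (du_of_succ (h1 l hl)) (du_mul (h1 l hl) l)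
    have e2 : wt (fun p => g l p - af l p • g l p) ≤ D := by
      refine (wt_le_of_imp fun q hq h0 => ?_).trans (hg l hl).2
      rcases zmod_two_cases (af l q) with hq1 | hq1
      · apply hq
        show g l q - af l q • g l q = 0
        have h0' : af l q • β q - g l q = 0 := h0
        rw [hq1, zero_smul, zero_sub, neg_eq_zero] at h0'
        rw [h0', smul_zero, sub_zero]
      · apply hq
        show g l q - af l q • g l q = 0
        rw [hq1, one_smul, sub_self]
    have e3 := du_dist e1 (by omega) p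
    have e4 : g l p - af l p • g l p = 0 := e3
    rwa [hp, zero_smul, sub_zero] at e4
  obtain ⟨V, γ, T, hT, hγ, hV, hB, hgT, hall⟩ := glue_aux (Gd : Set (Af n)) g h1 h2 h3
  have hV4 : Nat.card V < 4 := by
    by_contra hcon
    push Not at hcon
    have := quarter Gd V (fun l hl => hall l hl) hcon
    omega
  refine ⟨γ, hγ, fun l hl => ?_⟩
  have hζd : Du (i + 1) (fun p => g l p - af l p • γ p) := du_sub (h1 l hl) (du_mul hγ l)
  have hζT : ∀ l' ∈ T, ∀ p, af l' p = 1 → g l p - af l p • γ p = 0 := by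
    intro l' hl' p hp
    have e1 : af l' p • (g l p - af l p • γ p) = 0 := by
      simp only [smul_sub]
      rw [h2 l hl l' (hT hl') p, smul_comm, hgT l' hl' p, sub_self]
    rwa [hp, one_smul] at e1
  have hw : wt (fun p => g l p - af l p • γ p) ≤ Nat.card V := by
    unfold wt
    rcases (Finset.univ.filter fun p => (fun p => g l p - af l p • γ p) p ≠ 0).eq_empty_or_nonempty with
      he | ⟨p0, hp0⟩
    · rw [he, Finset.card_empty]
      exact Nat.zero_le _
    · have hin : ∀ p, g l p - af l p • γ p ≠ 0 → ∀ l' ∈ T, af l' p = 0 := by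
        intro p hp l' hl'
        rcases zmod_two_cases (af l' p) with h0 | h0
        · exact h0
        · exact absurd (hζT l' hl' p h0) hp
      rw [Finset.mem_filter] at hp0
      have e3 : Nat.card V = (V : Set (Pt n)).ncard := rfl
      rw [e3, ← Set.ncard_coe_finset]
      refine Set.ncard_le_ncard_of_injOn (fun p => p + p0) ?_ ?_ (Set.toFinite _)
      · intro p hp
        rw [Finset.mem_coe, Finset.mem_filter] at hp
        exact hB p p0 (hin p hp.2) (hin p0 hp0.2)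
      · intro p _ q _ hpq
        exact add_right_cancel hpq
  have hz := du_dist hζd (by
    have : 4 ≤ 2 ^ (i + 1 + 1) := by
      calc 4 = 2 ^ 2 := by norm_num
        _ ≤ 2 ^ (i + 1 + 1) := Nat.pow_le_pow_right (by norm_num) (by omega)
    omega)
  refine le_trans (le_of_eq ?_) (hg l hl).2
  congr 1
  funext p
  have e1 : g l p - af l p • γ p = 0 := hz p
  rw [smul_sub, sub_eq_zero.1 e1]

end

end Pool.Agent.Lib.P325rc
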