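import Pool.Agent.Lib.P325rc.StabC

/-!
Module LightC (3h; black boxes stabC, parseval, conv, rp_of_low; model: P325f1f/Dich/Light.lean and accept_min in
Noise.lean). Two partitions of unity on the tables without a common influential coordinate.
Notation: Jn D h i = the influence of i of the family h, restricted to weights at most D.
PROOF. sum_co_le: ∑_ω ∑_{α ∈ rp} co (h ω) α^2 = ∑_ω mean (h ω^2) ≤ ∑_ω mean (h ω) = 1. sum_Jn_le: every α with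
wt α ≤ D is counted wt α ≤ D times, α ∈ rp (2 D < 2^(d+1)). card_bigC: Markov.
lightC: A = {i | τ ≤ Jn D h i}, at most D/τ elements, Jn D g i < τ' on A. r α = (1 - rej d α)^m satisfies 0 ≤ r α ≤ 1,
r α ≤ (1 - 1/t)^(wt α) if wt α ≤ D, r α ≤ η if α ∈ rp, wt α > D (hypotheses hr1, hr2). For α ∈ rp:
r ab ≤ (θ²/4) a² + (θ/2) b² + (1/θ²) [some i ∈ A has α i ≠ 0] r² b² + (1/(2θ)) [α i = 0 on A] r a²
(Light.lean, pt). Sum over ω ∈ L and α ∈ rp, a = co (h ω) α, b = co (g ω) α: the third sum is at most (1/θ²)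
(∑_{i ∈ A} Jn D g i + η²) ≤ (1/θ²)(D/τ τ' + η²) ≤ θ²/4; the fourth at most (1/(2θ)) ∑_{ω ∈ L} (2 mean (h ω) θ² + η mean
(h ω)) ≤ (1/(2θ)) 3 θ² (stabC with β = θ², η ≤ θ²; co² sum ≤ mean h for the part wt α > D). Total ≤ 2 θ + θ²/2.
acceptC: as accept_min: the labels with mean (h ω) ≤ η0 := (θ^2)^(4t) by lightC, those with mean (g ω) ≤ η0 (and not the
first) by lightC with h and g exchanged, the others by conv: ∑_{α ∈ rp} r co co = mean mean h ω y * g ω (y + nzT ν) ≤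
min (mean (h ω)) (mean (g ω)).
-/

open scoped BigOperators

namespace Pool.Agent.Lib.P325rc

open Pool.Agent.Lib.P325x (Pt sg mean)

variable {n d s : ℕ} {Ω : Type} [Fintype Ω]

/-- The influence of the coordinate `i` of a family of functions, restricted to the characters of
weight at most `D`. -/
noncomputable def Jn (D : ℕ) (h : Ω → Tb n d s → ℝ) (i : Pt n) : ℝ := by
  classical
  exact ∑ ω, ∑ α with (wt α ≤ D ∧ α i ≠ 0), co (h ω) α ^ 2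

theorem Jn_nonneg (D : ℕ) (h : Ω → Tb n d s → ℝ) (i : Pt n) : 0 ≤ Jn D h i :=
  Finset.sum_nonneg fun _ _ => Finset.sum_nonneg fun _ _ => sq_nonneg _

namespace LightCAux

theorem le_one {h : Ω → Tb n d s → ℝ} (h0 : ∀ ω y, 0 ≤ h ω y) (hs : ∀ y, ∑ ω, h ω y = 1)
    (ω : Ω) (y : Tb n d s) : h ω y ≤ 1 := by
  rw [← hs y]
  exact Finset.single_le_sum (f := fun ω => h ω y) (fun ω _ => h0 ω y) (Finset.mem_univ ω)

theorem sum_mean {h : Ω → Tb n d s → ℝ} (hs : ∀ y, ∑ ω, h ω y = 1) :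
    ∑ ω, mean (h ω) = 1 := by
  rw [← Pool.Agent.Lib.P325x.mean_sum Finset.univ h,
    Pool.Agent.Lib.P325x.mean_congr (G := fun _ : Tb n d s => (1 : ℝ)) hs,
    Pool.Agent.Lib.P325x.mean_const]

theorem sq_le_mean {h : Tb n d s → ℝ} (h0 : ∀ y, 0 ≤ h y) (h1 : ∀ y, h y ≤ 1) :
    ∑ α ∈ rp n d s, co h α ^ 2 ≤ mean h := by
  have e := parseval h h
  rw [Finset.sum_congr rfl fun α _ => pow_two (co h α), ← e]
  exact Pool.Agent.Lib.P325x.mean_mono fun y => by nlinarith [h0 y, h1 y]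

theorem sum_co_le {h : Ω → Tb n d s → ℝ} (h0 : ∀ ω y, 0 ≤ h ω y) (hs : ∀ y, ∑ ω, h ω y = 1) :
    ∑ ω, ∑ α ∈ rp n d s, co (h ω) α ^ 2 ≤ 1 := by
  rw [← sum_mean hs]
  exact Finset.sum_le_sum fun ω _ => sq_le_mean (h0 ω) (le_one h0 hs ω)

theorem mem_rp_of_le {D : ℕ} (hD : 2 * D < 2 ^ (d + 1)) {α : Pt n → Pt s} (h : wt α ≤ D) :
    α ∈ rp n d s :=
  rp_of_low α (by omega)

theorem rej_nonneg (α : Pt n → Pt s) : 0 ≤ rej d α := by
  unfold rej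
  refine Pool.Agent.Lib.P325x.mean_nonneg fun L => ?_
  split_ifs <;> norm_num

theorem rej_le_one (α : Pt n → Pt s) : rej d α ≤ 1 := by
  classical
  have h1 : rej d α ≤ mean fun _ : Fin d → Af n => (1 : ℝ) := by
    unfold rej
    refine Pool.Agent.Lib.P325x.mean_mono fun L => ?_
    split_ifs <;> norm_num
  rwa [Pool.Agent.Lib.P325x.mean_const] at h1

theorem sum_Jn_le (D : ℕ) (hD : 2 * D < 2 ^ (d + 1)) {h : Ω → Tb n d s → ℝ}
    (h0 : ∀ ω y, 0 ≤ h ω y) (hs : ∀ y, ∑ ω, h ω y = 1) : ∑ i, Jn D h i ≤ D := by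
  classical
  unfold Jn
  rw [Finset.sum_comm]
  have h1 : ∀ ω, (∑ i : Pt n, ∑ α with (wt α ≤ D ∧ α i ≠ 0), co (h ω) α ^ 2) ≤
      D * ∑ α ∈ rp n d s, co (h ω) α ^ 2 := by
    intro ω
    have e1 : ∀ i : Pt n, ∑ α with (wt α ≤ D ∧ α i ≠ 0), co (h ω) α ^ 2 =
        ∑ α ∈ rp n d s, if (wt α ≤ D ∧ α i ≠ 0) then co (h ω) α ^ 2 else 0 := by
      intro i
      rw [← Finset.sum_filter]
      refine Finset.sum_congr ?_ fun _ _ => rfl
      ext α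
      simp only [Finset.mem_filter, Finset.mem_univ, true_and]
      exact ⟨fun h => ⟨mem_rp_of_le hD h.1, h⟩, fun h => h.2⟩
    rw [Finset.sum_congr rfl fun i _ => e1 i, Finset.sum_comm, Finset.mul_sum]
    refine Finset.sum_le_sum fun α _ => ?_
    by_cases hα : wt α ≤ D
    · have h2 : (∑ i : Pt n, (if (wt α ≤ D ∧ α i ≠ 0) then co (h ω) α ^ 2 else 0)) =
          (wt α : ℝ) * co (h ω) α ^ 2 := by
        rw [← Finset.sum_filter, Finset.sum_const, nsmul_eq_mul]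
        congr 2
        unfold wt
        refine congrArg Finset.card ?_
        ext i
        simp only [Finset.mem_filter, Finset.mem_univ, true_and]
        exact ⟨fun h => h.2, fun h => ⟨hα, h⟩⟩
      rw [h2]
      exact mul_le_mul_of_nonneg_right (by exact_mod_cast hα) (sq_nonneg _)
    · have h2 : (∑ i : Pt n, (if (wt α ≤ D ∧ α i ≠ 0) then co (h ω) α ^ 2 else 0)) = 0 := by
        apply Finset.sum_eq_zero
        intro i _
        rw [if_neg fun h => hα h.1]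
      rw [h2]
      positivity
  refine (Finset.sum_le_sum fun ω _ => h1 ω).trans ?_
  rw [← Finset.mul_sum]
  have h3 := sum_co_le h0 hs
  calc (D : ℝ) * ∑ ω, ∑ α ∈ rp n d s, co (h ω) α ^ 2 ≤ D * 1 :=
        mul_le_mul_of_nonneg_left h3 (Nat.cast_nonneg D)
    _ = D := mul_one _

theorem card_big (D : ℕ) (hD : 2 * D < 2 ^ (d + 1)) {h : Ω → Tb n d s → ℝ}
    (h0 : ∀ ω y, 0 ≤ h ω y) (hs : ∀ y, ∑ ω, h ω y = 1) {τ : ℝ} (hτ : 0 < τ) :
    (((Finset.univ : Finset (Pt n)).filter (fun i => τ ≤ Jn D h i)).card : ℝ) ≤ D / τ := by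
  rw [le_div_iff₀ hτ]
  have h1 : (((Finset.univ : Finset (Pt n)).filter (fun i => τ ≤ Jn D h i)).card : ℝ) * τ ≤
      ∑ i ∈ (Finset.univ : Finset (Pt n)).filter (fun i => τ ≤ Jn D h i), Jn D h i := by
    rw [← nsmul_eq_mul, ← Finset.sum_const]
    exact Finset.sum_le_sum (fun i hi => (Finset.mem_filter.1 hi).2)
  refine h1.trans (le_trans ?_ (sum_Jn_le D hD h0 hs))
  exact Finset.sum_le_sum_of_subset_of_nonneg (Finset.filter_subset _ _)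
    (fun i _ _ => Jn_nonneg D h i)

end LightCAux

open LightCAux

theorem card_bigC (D : ℕ) (hD : 2 * D < 2 ^ (d + 1)) {h : Ω → Tb n d s → ℝ}
    (h0 : ∀ ω y, 0 ≤ h ω y) (hs : ∀ y, ∑ ω, h ω y = 1) {τ : ℝ} (hτ : 0 < τ) :
    (Nat.card {i : Pt n // τ ≤ Jn D h i} : ℝ) ≤ D / τ := by
  classical
  have h1 := card_big D hD h0 hs hτ
  rw [Nat.card_eq_fintype_card, Fintype.card_subtype]
  convert h1

namespace LightCAux

/-- The elementary inequalities for one character. -/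
theorem pt (θ : ℝ) (hθ : 0 < θ) (a b r : ℝ) (hr0 : 0 ≤ r) (hr1 : r ≤ 1) (P : Prop)
    [Decidable P] :
    r * (a * b) ≤ (θ ^ 2 / 4) * a ^ 2 + (θ / 2) * b ^ 2 +
      (1 / θ ^ 2) * (if P then 0 else r ^ 2 * b ^ 2) +
      (1 / (2 * θ)) * (if P then r * a ^ 2 else 0) := by
  have c1 : r * (a * b) ≤ (θ ^ 2 / 4) * a ^ 2 + (1 / θ ^ 2) * (r ^ 2 * b ^ 2) := by
    have : 0 ≤ (1 / θ ^ 2) * ((θ ^ 2 / 2) * a - r * b) ^ 2 := by positivity
    have e : (1 / θ ^ 2) * ((θ ^ 2 / 2) * a - r * b) ^ 2 =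
        (θ ^ 2 / 4) * a ^ 2 + (1 / θ ^ 2) * (r ^ 2 * b ^ 2) - r * (a * b) := by
      field_simp
      ring
    linarith
  have c3 : r * (a * b) ≤ (θ / 2) * b ^ 2 + (1 / (2 * θ)) * (r * a ^ 2) := by
    have : 0 ≤ r * ((1 / (2 * θ)) * (a - θ * b) ^ 2) := by positivity
    have e : r * ((1 / (2 * θ)) * (a - θ * b) ^ 2) =
        r * ((θ / 2) * b ^ 2) + (1 / (2 * θ)) * (r * a ^ 2) - r * (a * b) := by
      field_simp
      ring
    have e2 : r * ((θ / 2) * b ^ 2) ≤ (θ / 2) * b ^ 2 := by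
      have : 0 ≤ (θ / 2) * b ^ 2 := by positivity
      nlinarith
    linarith
  have n1 : 0 ≤ (θ ^ 2 / 4) * a ^ 2 := by positivity
  have n2 : 0 ≤ (θ / 2) * b ^ 2 := by positivity
  have n4 : 0 ≤ (1 / θ ^ 2) * (r ^ 2 * b ^ 2) := by positivity
  have n5 : 0 ≤ (1 / (2 * θ)) * (r * a ^ 2) := by positivity
  split_ifs <;> linarith

/-- The characters that are not zero on `A`. -/
theorem err {m : ℕ} (D : ℕ) {g : Ω → Tb n d s → ℝ} (g0 : ∀ ω y, 0 ≤ g ω y)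
    (gs : ∀ y, ∑ ω, g ω y = 1) (η : ℝ)
    (hr2 : ∀ α ∈ rp n d s, D < wt α → (1 - rej d α) ^ m ≤ η) (A : Finset (Pt n)) :
    ∑ ω, ∑ α ∈ rp n d s, (if ∀ i ∈ A, α i = 0 then 0 else
      ((1 - rej d α) ^ m) ^ 2 * co (g ω) α ^ 2) ≤ ∑ i ∈ A, Jn D g i + η ^ 2 := by
  classical
  have hr0 : ∀ α : Pt n → Pt s, 0 ≤ (1 - rej d α) ^ m := fun α =>
    pow_nonneg (by linarith [rej_le_one (d := d) α]) _
  have hr1 : ∀ α : Pt n → Pt s, (1 - rej d α) ^ m ≤ 1 := fun α =>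
    pow_le_one₀ (by linarith [rej_le_one (d := d) α]) (by linarith [rej_nonneg (d := d) α])
  have h1 : ∀ ω, ∀ α ∈ rp n d s, (if ∀ i ∈ A, α i = 0 then 0 else
      ((1 - rej d α) ^ m) ^ 2 * co (g ω) α ^ 2) ≤
      (∑ i ∈ A, if (wt α ≤ D ∧ α i ≠ 0) then co (g ω) α ^ 2 else 0) +
      η ^ 2 * co (g ω) α ^ 2 := by
    intro ω α hα
    have n1 : 0 ≤ ∑ i ∈ A, (if (wt α ≤ D ∧ α i ≠ 0) then co (g ω) α ^ 2 else 0) := by
      apply Finset.sum_nonneg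
      intro i _
      split_ifs
      · exact sq_nonneg _
      · exact le_rfl
    have n2 : 0 ≤ η ^ 2 * co (g ω) α ^ 2 := mul_nonneg (sq_nonneg _) (sq_nonneg _)
    by_cases hd : ∀ i ∈ A, α i = 0
    · rw [if_pos hd]
      exact add_nonneg n1 n2
    · rw [if_neg hd]
      by_cases hD : wt α ≤ D
      · push Not at hd
        obtain ⟨i, hi, ho⟩ := hd
        have h2 : co (g ω) α ^ 2 ≤
            ∑ i ∈ A, if (wt α ≤ D ∧ α i ≠ 0) then co (g ω) α ^ 2 else 0 := by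
          refine le_trans (le_of_eq ?_) (Finset.single_le_sum (f := fun i =>
            if (wt α ≤ D ∧ α i ≠ 0) then co (g ω) α ^ 2 else 0) ?_ hi)
          · rw [if_pos ⟨hD, ho⟩]
          · intro j _
            split_ifs
            · exact sq_nonneg _
            · exact le_rfl
        have h3 : ((1 - rej d α) ^ m) ^ 2 * co (g ω) α ^ 2 ≤ co (g ω) α ^ 2 := by
          have := pow_le_one₀ (hr0 α) (hr1 α) (n := 2)
          nlinarith [sq_nonneg (co (g ω) α)]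
        linarith
      · have h3 : ((1 - rej d α) ^ m) ^ 2 * co (g ω) α ^ 2 ≤ η ^ 2 * co (g ω) α ^ 2 :=
          mul_le_mul_of_nonneg_right
            (pow_le_pow_left₀ (hr0 α) (hr2 α hα (by omega)) 2) (sq_nonneg _)
        linarith
  refine (Finset.sum_le_sum (fun ω _ => Finset.sum_le_sum (fun α hα => h1 ω α hα))).trans ?_
  simp_rw [Finset.sum_add_distrib]
  refine add_le_add ?_ ?_
  · unfold Jn
    rw [Finset.sum_comm (s := A)]
    refine Finset.sum_le_sum (fun ω _ => ?_)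
    rw [Finset.sum_comm]
    refine Finset.sum_le_sum (fun i _ => ?_)
    rw [Finset.sum_filter]
    exact Finset.sum_le_sum_of_subset_of_nonneg (Finset.subset_univ _) fun α _ _ => by
      split_ifs
      · exact sq_nonneg _
      · exact le_rfl
  · simp_rw [← Finset.mul_sum]
    have h3 := sum_co_le g0 gs
    calc η ^ 2 * ∑ ω, ∑ α ∈ rp n d s, co (g ω) α ^ 2 ≤ η ^ 2 * 1 :=
          mul_le_mul_of_nonneg_left h3 (sq_nonneg _)
      _ = η ^ 2 := mul_one _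

/-- The characters that are zero on `A`. -/
theorem main_term {m : ℕ} (D : ℕ) (hD : 4 * D < 2 ^ (d + 1)) {h : Ω → Tb n d s → ℝ}
    (h0 : ∀ ω y, 0 ≤ h ω y) (hs : ∀ y, ∑ ω, h ω y = 1) (t : ℕ) (ht : 1 ≤ t) (β : ℝ) (hβ : 0 < β)
    (L : Finset Ω) (hμ : ∀ ω ∈ L, mean (h ω) ≤ β ^ (4 * t)) (τ η : ℝ) (hτ0 : 0 < τ)
    (hη0 : 0 ≤ η) (hη : η ≤ β)
    (hτD : (1 + (2 : ℝ) ^ s) ^ D * τ ≤ 15 * β ^ (4 * t))
    (hr1 : ∀ α : Pt n → Pt s, wt α ≤ D → (1 - rej d α) ^ m ≤ (1 - 1 / (t : ℝ)) ^ (wt α))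
    (hr2 : ∀ α ∈ rp n d s, D < wt α → (1 - rej d α) ^ m ≤ η)
    (A : Finset (Pt n)) (hA : ∀ i, i ∉ A → Jn D h i ≤ τ) :
    ∑ ω ∈ L, ∑ α ∈ rp n d s, (if ∀ i ∈ A, α i = 0 then
      (1 - rej d α) ^ m * co (h ω) α ^ 2 else 0) ≤ 3 * β := by
  classical
  have h2D : 2 * D < 2 ^ (d + 1) := by omega
  have h1 : ∀ ω ∈ L, (∑ α ∈ rp n d s, (if ∀ i ∈ A, α i = 0 then
      (1 - rej d α) ^ m * co (h ω) α ^ 2 else 0)) ≤ 3 * mean (h ω) * β := by
    intro ω hω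
    have hm0 : 0 ≤ mean (h ω) := Pool.Agent.Lib.P325x.mean_nonneg (h0 ω)
    have s1 := stabC (h ω) (h0 ω) (le_one h0 hs ω) t ht β hβ (hμ ω hω) D hD τ hτ0.le A (by
      intro i hi
      refine le_trans ?_ (hA i hi)
      unfold Jn
      refine le_trans (le_of_eq ?_) (Finset.single_le_sum (f := fun ω =>
        ∑ α with (wt α ≤ D ∧ α i ≠ 0), co (h ω) α ^ 2)
        (fun _ _ => Finset.sum_nonneg (fun _ _ => sq_nonneg _)) (Finset.mem_univ ω))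
      exact Finset.sum_congr (by congr) fun _ _ => rfl) hτD
    have s2 := sq_le_mean (h0 ω) (le_one h0 hs ω)
    have h3 : ∀ α ∈ rp n d s, (if ∀ i ∈ A, α i = 0 then
        (1 - rej d α) ^ m * co (h ω) α ^ 2 else 0) ≤
        (if (wt α ≤ D ∧ ∀ i ∈ A, α i = 0) then
          (1 - 1 / (t : ℝ)) ^ (wt α) * co (h ω) α ^ 2 else 0) + η * co (h ω) α ^ 2 := by
      intro α hα
      have n2 : 0 ≤ η * co (h ω) α ^ 2 := mul_nonneg hη0 (sq_nonneg _)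
      have ht0 : (0 : ℝ) < t := by exact_mod_cast ht
      have hρ0 : 0 ≤ 1 - 1 / (t : ℝ) := by
        have : 1 / (t : ℝ) ≤ 1 := by
          rw [div_le_one ht0]
          exact_mod_cast ht
        linarith
      have n3 : 0 ≤ (1 - 1 / (t : ℝ)) ^ (wt α) * co (h ω) α ^ 2 :=
        mul_nonneg (pow_nonneg hρ0 _) (sq_nonneg _)
      by_cases hd : ∀ i ∈ A, α i = 0
      · rw [if_pos hd]
        by_cases hw : wt α ≤ D
        · rw [if_pos ⟨hw, hd⟩]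
          have := mul_le_mul_of_nonneg_right (hr1 α hw) (sq_nonneg (co (h ω) α))
          linarith
        · rw [if_neg fun h => hw h.1]
          have := mul_le_mul_of_nonneg_right (hr2 α hα (by omega)) (sq_nonneg (co (h ω) α))
          linarith
      · rw [if_neg hd]
        split_ifs <;> linarith
    refine (Finset.sum_le_sum h3).trans ?_
    rw [Finset.sum_add_distrib, ← Finset.mul_sum]
    have h4 : (∑ α ∈ rp n d s, if (wt α ≤ D ∧ ∀ i ∈ A, α i = 0) then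
        (1 - 1 / (t : ℝ)) ^ (wt α) * co (h ω) α ^ 2 else 0) =
        ∑ α with (wt α ≤ D ∧ ∀ i ∈ A, α i = 0),
          (1 - 1 / (t : ℝ)) ^ (wt α) * co (h ω) α ^ 2 := by
      rw [← Finset.sum_filter]
      refine Finset.sum_congr ?_ fun _ _ => rfl
      ext α
      simp only [Finset.mem_filter, Finset.mem_univ, true_and]
      exact ⟨fun h => h.2, fun h => ⟨mem_rp_of_le h2D h.1, h⟩⟩
    rw [h4]
    have h5 : η * ∑ α ∈ rp n d s, co (h ω) α ^ 2 ≤ β * mean (h ω) :=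
      mul_le_mul hη s2 (Finset.sum_nonneg fun _ _ => sq_nonneg _) hβ.le
    linarith
  refine (Finset.sum_le_sum (fun ω hω => h1 ω hω)).trans ?_
  rw [← Finset.sum_mul, ← Finset.mul_sum]
  have h2 : ∑ ω ∈ L, mean (h ω) ≤ 1 := by
    rw [← sum_mean hs]
    exact Finset.sum_le_sum_of_subset_of_nonneg (Finset.subset_univ L)
      (fun ω _ _ => Pool.Agent.Lib.P325x.mean_nonneg (h0 ω))
  nlinarith

/-- The contribution of the labels `ω` for which `h ω` has a small mean. -/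
theorem lightC {m : ℕ} (D : ℕ) (hD : 4 * D < 2 ^ (d + 1)) {h g : Ω → Tb n d s → ℝ}
    (h0 : ∀ ω y, 0 ≤ h ω y) (hs : ∀ y, ∑ ω, h ω y = 1) (g0 : ∀ ω y, 0 ≤ g ω y)
    (gs : ∀ y, ∑ ω, g ω y = 1) (t : ℕ) (ht : 1 ≤ t) (θ : ℝ) (hθ : 0 < θ) (L : Finset Ω)
    (hμ : ∀ ω ∈ L, mean (h ω) ≤ (θ ^ 2) ^ (4 * t))
    (τ τ' η : ℝ) (hτ0 : 0 < τ) (hτ' : τ' ≤ τ) (hτ'0 : 0 ≤ τ') (hη0 : 0 ≤ η) (hη : η ≤ θ ^ 2)
    (hτD : (1 + (2 : ℝ) ^ s) ^ D * τ ≤ 15 * (θ ^ 2) ^ (4 * t))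
    (hsm : D / τ * τ' + η ^ 2 ≤ (θ ^ 2) ^ 2 / 4)
    (hr1 : ∀ α : Pt n → Pt s, wt α ≤ D → (1 - rej d α) ^ m ≤ (1 - 1 / (t : ℝ)) ^ (wt α))
    (hr2 : ∀ α ∈ rp n d s, D < wt α → (1 - rej d α) ^ m ≤ η)
    (hno : ∀ i, Jn D h i < τ' ∨ Jn D g i < τ') :
    ∑ ω ∈ L, ∑ α ∈ rp n d s, (1 - rej d α) ^ m * (co (h ω) α * co (g ω) α) ≤
      2 * θ + θ ^ 2 / 2 := by
  classical
  have h2D : 2 * D < 2 ^ (d + 1) := by omega
  have hr0 : ∀ α : Pt n → Pt s, 0 ≤ (1 - rej d α) ^ m := fun α =>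
    pow_nonneg (by linarith [rej_le_one (d := d) α]) _
  have hr1' : ∀ α : Pt n → Pt s, (1 - rej d α) ^ m ≤ 1 := fun α =>
    pow_le_one₀ (by linarith [rej_le_one (d := d) α]) (by linarith [rej_nonneg (d := d) α])
  set A : Finset (Pt n) := Finset.univ.filter (fun i => τ ≤ Jn D h i) with hA
  have kA : ∑ ω, ∑ α ∈ rp n d s, (if ∀ i ∈ A, α i = 0 then 0 else
        ((1 - rej d α) ^ m) ^ 2 * co (g ω) α ^ 2) ≤ (θ ^ 2) ^ 2 / 4 := by
    refine (err D g0 gs η hr2 A).trans (le_trans ?_ hsm)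
    refine add_le_add ?_ le_rfl
    have h1 : ∑ i ∈ A, Jn D g i ≤ ∑ i ∈ A, τ' := by
      refine Finset.sum_le_sum (fun i hi => ?_)
      rw [hA, Finset.mem_filter] at hi
      rcases hno i with h2 | h2
      · linarith [hi.2]
      · exact h2.le
    rw [Finset.sum_const, nsmul_eq_mul] at h1
    refine h1.trans (mul_le_mul_of_nonneg_right ?_ hτ'0)
    rw [hA]
    exact card_big D h2D h0 hs hτ0
  have mA := main_term D hD h0 hs t ht (θ ^ 2) (by positivity) L hμ τ η hτ0 hη0 hη hτD hr1 hr2 A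
    (by
      intro i hi
      rw [hA, Finset.mem_filter] at hi
      push Not at hi
      exact (hi (Finset.mem_univ i)).le)
  have hs2 := sum_co_le h0 hs
  have gs2 := sum_co_le g0 gs
  have sub : ∀ F : Ω → ℝ, (∀ ω, 0 ≤ F ω) → ∑ ω ∈ L, F ω ≤ ∑ ω, F ω := fun F hF =>
    Finset.sum_le_sum_of_subset_of_nonneg (Finset.subset_univ L) (fun ω _ _ => hF ω)
  have kA' : ∑ ω ∈ L, ∑ α ∈ rp n d s, (if ∀ i ∈ A, α i = 0 then 0 else
        ((1 - rej d α) ^ m) ^ 2 * co (g ω) α ^ 2) ≤ (θ ^ 2) ^ 2 / 4 := by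
    refine (sub _ (fun ω => Finset.sum_nonneg (fun α _ => ?_))).trans kA
    split_ifs
    · exact le_rfl
    · exact mul_nonneg (sq_nonneg _) (sq_nonneg _)
  have hs2' : ∑ ω ∈ L, ∑ α ∈ rp n d s, co (h ω) α ^ 2 ≤ 1 :=
    (sub _ (fun ω => Finset.sum_nonneg (fun α _ => sq_nonneg _))).trans hs2
  have gs2' : ∑ ω ∈ L, ∑ α ∈ rp n d s, co (g ω) α ^ 2 ≤ 1 :=
    (sub _ (fun ω => Finset.sum_nonneg (fun α _ => sq_nonneg _))).trans gs2
  refine (Finset.sum_le_sum (fun ω _ => Finset.sum_le_sum (fun α _ =>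
    pt θ hθ (co (h ω) α) (co (g ω) α) ((1 - rej d α) ^ m) (hr0 α) (hr1' α)
      (∀ i ∈ A, α i = 0)))).trans ?_
  simp_rw [Finset.sum_add_distrib, ← Finset.mul_sum]
  have p1 := mul_le_mul_of_nonneg_left hs2' (by positivity : 0 ≤ θ ^ 2 / 4)
  have p2 := mul_le_mul_of_nonneg_left gs2' (by positivity : 0 ≤ θ / 2)
  have p3 := mul_le_mul_of_nonneg_left kA' (by positivity : 0 ≤ 1 / θ ^ 2)
  have p4 := mul_le_mul_of_nonneg_left mA (by positivity : 0 ≤ 1 / (2 * θ))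
  have p5 : 1 / θ ^ 2 * ((θ ^ 2) ^ 2 / 4) = θ ^ 2 / 4 := by
    field_simp
  have p6 : 1 / (2 * θ) * (3 * θ ^ 2) = 3 * θ / 2 := by
    field_simp
  rw [p5] at p3
  rw [p6] at p4
  linarith

end LightCAux

theorem acceptC {m : ℕ} (D : ℕ) (hD : 4 * D < 2 ^ (d + 1)) {h g : Ω → Tb n d s → ℝ}
    (h0 : ∀ ω y, 0 ≤ h ω y) (hs : ∀ y, ∑ ω, h ω y = 1) (g0 : ∀ ω y, 0 ≤ g ω y)
    (gs : ∀ y, ∑ ω, g ω y = 1) (t : ℕ) (ht : 1 ≤ t) (θ : ℝ) (hθ : 0 < θ)
    (τ τ' η : ℝ) (hτ0 : 0 < τ) (hτ' : τ' ≤ τ) (hτ'0 : 0 ≤ τ') (hη0 : 0 ≤ η) (hη : η ≤ θ ^ 2)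
    (hτD : (1 + (2 : ℝ) ^ s) ^ D * τ ≤ 15 * (θ ^ 2) ^ (4 * t))
    (hsm : D / τ * τ' + η ^ 2 ≤ (θ ^ 2) ^ 2 / 4)
    (hr1 : ∀ α : Pt n → Pt s, wt α ≤ D → (1 - rej d α) ^ m ≤ (1 - 1 / (t : ℝ)) ^ (wt α))
    (hr2 : ∀ α ∈ rp n d s, D < wt α → (1 - rej d α) ^ m ≤ η)
    (hno : ∀ i, Jn D h i < τ' ∨ Jn D g i < τ') :
    ∑ ω, ∑ α ∈ rp n d s, (1 - rej d α) ^ m * (co (h ω) α * co (g ω) α) ≤ 4 * θ + θ ^ 2 +
      ∑ ω, if (θ ^ 2) ^ (4 * t) < mean (h ω) ∧ (θ ^ 2) ^ (4 * t) < mean (g ω)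
        then min (mean (h ω)) (mean (g ω)) else 0 := by
  classical
  set η0 : ℝ := (θ ^ 2) ^ (4 * t) with hη0'
  set F : Ω → ℝ := fun ω => ∑ α ∈ rp n d s, (1 - rej d α) ^ m * (co (h ω) α * co (g ω) α) with hF
  have hFs : ∀ ω, F ω = ∑ α ∈ rp n d s, (1 - rej d α) ^ m * (co (g ω) α * co (h ω) α) := fun ω =>
    Finset.sum_congr rfl fun α _ => by rw [mul_comm (co (h ω) α)]
  have l1 : ∑ ω with mean (h ω) ≤ η0, F ω ≤ 2 * θ + θ ^ 2 / 2 :=
    lightC D hD h0 hs g0 gs t ht θ hθ (Finset.univ.filter (fun ω => mean (h ω) ≤ η0))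
      (fun ω hω => (Finset.mem_filter.1 hω).2) τ τ' η hτ0 hτ' hτ'0 hη0 hη hτD hsm hr1 hr2 hno
  have l2 : ∑ ω with (¬ mean (h ω) ≤ η0 ∧ mean (g ω) ≤ η0), F ω ≤ 2 * θ + θ ^ 2 / 2 := by
    rw [Finset.sum_congr rfl fun ω _ => hFs ω]
    exact lightC D hD g0 gs h0 hs t ht θ hθ
      (Finset.univ.filter (fun ω => ¬ mean (h ω) ≤ η0 ∧ mean (g ω) ≤ η0))
      (fun ω hω => (Finset.mem_filter.1 hω).2.2) τ τ' η hτ0 hτ' hτ'0 hη0 hη hτD hsm hr1 hr2
      (fun i => (hno i).symm)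
  have hbd : ∀ ω, F ω ≤ mean (h ω) := by
    intro ω
    rw [hF]
    beta_reduce
    rw [← conv]
    refine Pool.Agent.Lib.P325x.mean_mono fun y => ?_
    have e1 : mean (fun ν : Nz n d s m => h ω y * g ω (y + nzT ν)) ≤
        mean (fun _ : Nz n d s m => h ω y) :=
      Pool.Agent.Lib.P325x.mean_mono fun ν => by
        calc h ω y * g ω (y + nzT ν) ≤ h ω y * 1 :=
              mul_le_mul_of_nonneg_left (le_one g0 gs ω _) (h0 ω y)
          _ = h ω y := mul_one _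
    rwa [Pool.Agent.Lib.P325x.mean_const] at e1
  have hbd' : ∀ ω, F ω ≤ mean (g ω) := by
    intro ω
    rw [hFs, ← conv]
    refine Pool.Agent.Lib.P325x.mean_mono fun y => ?_
    have e1 : mean (fun ν : Nz n d s m => g ω y * h ω (y + nzT ν)) ≤
        mean (fun _ : Nz n d s m => g ω y) :=
      Pool.Agent.Lib.P325x.mean_mono fun ν => by
        calc g ω y * h ω (y + nzT ν) ≤ g ω y * 1 :=
              mul_le_mul_of_nonneg_left (le_one h0 hs ω _) (g0 ω y)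
          _ = g ω y := mul_one _
    rwa [Pool.Agent.Lib.P325x.mean_const] at e1
  have hpt : ∀ ω, F ω ≤ (if mean (h ω) ≤ η0 then F ω else 0) +
      (if (¬ mean (h ω) ≤ η0 ∧ mean (g ω) ≤ η0) then F ω else 0) +
      (if η0 < mean (h ω) ∧ η0 < mean (g ω) then min (mean (h ω)) (mean (g ω)) else 0) := by
    intro ω
    have e1 := hbd ω
    have e2 := hbd' ω
    by_cases a1 : mean (h ω) ≤ η0
    · rw [if_pos a1, if_neg (fun h => h.1 a1), if_neg (fun h => absurd h.1 (not_lt.2 a1))]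
      linarith
    · by_cases a2 : mean (g ω) ≤ η0
      · rw [if_neg a1, if_pos ⟨a1, a2⟩, if_neg (fun h => absurd h.2 (not_lt.2 a2))]
        linarith
      · rw [if_neg a1, if_neg (fun h => a2 h.2), if_pos ⟨not_le.1 a1, not_le.1 a2⟩]
        have := le_min e1 e2
        linarith
  refine (Finset.sum_le_sum (fun ω _ => hpt ω)).trans ?_
  rw [Finset.sum_add_distrib, Finset.sum_add_distrib, ← Finset.sum_filter, ← Finset.sum_filter]
  linarith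

end Pool.Agent.Lib.P325rc
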