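import Pool.Agent.Lib.P325rc.Dist

/-!
The rejection probability: recursion and the trivial lower bound.
-/

open scoped BigOperators

namespace Pool.Agent.Lib.P325rc

open Pool.Agent.Lib.P325x (Pt sg mean mean_equiv mean_prod mean_nonneg mean_congr mean_mono
  mean_const)

/-- A lower bound for a mean. -/
theorem mean_ge {E : Type} [Fintype E] [Nonempty E] (F : E → ℝ) (hF : ∀ x, 0 ≤ F x)
    (G : Finset E) {c : ℝ} (hc : 0 ≤ c) (h : ∀ x, x ∉ G → c ≤ F x) {k : ℕ} (hk : 0 < k)
    (hG : k * G.card ≤ Fintype.card E) : (1 - 1 / (k : ℝ)) * c ≤ mean F := by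
  classical
  have hE : (0 : ℝ) < Fintype.card E := by exact_mod_cast Fintype.card_pos
  have hk' : (0 : ℝ) < k := by exact_mod_cast hk
  unfold mean
  rw [le_div_iff₀ hE]
  have h1 : ((Finset.univ \ G).card : ℝ) * c ≤ ∑ x, F x := by
    rw [← nsmul_eq_mul, ← Finset.sum_const]
    refine (Finset.sum_le_sum fun x hx => ?_).trans
      (Finset.sum_le_sum_of_subset_of_nonneg (Finset.subset_univ _) fun x _ _ => hF x)
    exact h x (Finset.mem_sdiff.1 hx).2
  refine le_trans ?_ h1
  have h2 : ((Finset.univ \ G).card : ℝ) = Fintype.card E - G.card := by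
    rw [Finset.card_sdiff_of_subset (Finset.subset_univ _), Finset.card_univ,
      Nat.cast_sub (Finset.card_le_univ _)]
  have h3 : (k : ℝ) * G.card ≤ Fintype.card E := by exact_mod_cast hG
  have h4 : (G.card : ℝ) ≤ 1 / k * Fintype.card E := by
    rw [one_div, ← div_eq_inv_mul, le_div_iff₀ hk']
    linarith
  rw [h2]
  nlinarith

variable {n : ℕ} {X : Type} [AddCommGroup X] [Module (ZMod 2) X]

theorem rej_nonneg (d : ℕ) (α : Pt n → X) : 0 ≤ rej d α := by
  unfold rej
  refine mean_nonneg fun L => ?_
  split_ifs <;> norm_num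

theorem rej_le_one (d : ℕ) (α : Pt n → X) : rej d α ≤ 1 := by
  unfold rej
  refine (mean_mono (G := fun _ => (1 : ℝ)) fun L => ?_).trans_eq (mean_const _)
  split_ifs <;> norm_num

theorem rej_zero (α : Pt n → X) [Decidable (∑ p, α p = 0)] :
    rej 0 α = if ∑ p, α p = 0 then 0 else 1 := by
  classical
  unfold rej
  have h1 : ∀ L : Fin 0 → Af n, ∑ p, pr L p • α p = ∑ p, α p := by
    intro L
    simp only [pr_zero', one_smul]
  simp only [h1]
  rw [mean_const]

theorem rej_succ (d : ℕ) (α : Pt n → X) :
    rej (d + 1) α = mean fun l : Af n => rej d (fun p => af l p • α p) := by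
  classical
  unfold rej
  rw [← mean_equiv (Fin.consEquiv fun _ : Fin (d + 1) => Af n), mean_prod]
  refine mean_congr fun l => mean_congr fun L => ?_
  have h1 : ∑ p, pr ((Fin.consEquiv fun _ : Fin (d + 1) => Af n) (l, L)) p • α p =
      ∑ p, pr L p • af l p • α p := by
    refine Finset.sum_congr rfl fun p _ => ?_
    have h2 : ((Fin.consEquiv fun _ : Fin (d + 1) => Af n) (l, L)) =
      (Fin.cons l L : Fin (d + 1) → Af n) := rfl
    rw [h2, pr_cons, smul_smul, mul_comm]
  rw [h1]

theorem rej_of_du {d : ℕ} {α : Pt n → X} (h : Du d α) : rej d α = 0 := by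
  classical
  unfold rej
  have h1 : ∀ L : Fin d → Af n, (if ∑ p, pr L p • α p = 0 then (0 : ℝ) else 1) = 0 := by
    intro L
    rw [if_pos (h L)]
  simp only [h1]
  exact mean_const 0

theorem rej_base (d : ℕ) (α : Pt n → X) (h : ¬ Du d α) : (1 / 2 : ℝ) ^ d ≤ rej d α := by
  classical
  induction d generalizing α with
  | zero =>
    have h1 : ∑ p, α p ≠ 0 := by
      intro h0
      apply h
      intro L
      simpa only [pr_zero', one_smul] using h0
    rw [rej_zero, if_neg h1, pow_zero]
  | succ d ih =>
    rw [rej_succ]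
    have hex : ∃ l0 : Af n, ¬ Du d (fun p => af l0 p • α p) := by
      by_contra hcon
      push Not at hcon
      apply h
      intro L
      obtain ⟨l, L', rfl⟩ : ∃ (l : Af n) (L' : Fin d → Af n), L = Fin.cons l L' :=
        ⟨L 0, Fin.tail L, (Fin.cons_self_tail L).symm⟩
      have := hcon l L'
      rw [← this]
      refine Finset.sum_congr rfl fun p _ => ?_
      rw [pr_cons, smul_smul, mul_comm]
    obtain ⟨l0, hl0⟩ := hex
    set G : Finset (Af n) := Finset.univ.filter fun l => Du d (fun p => af l p • α p) with hG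
    have hG2 : 2 * G.card ≤ Fintype.card (Af n) := by
      have e1 : G.card ≤ (Finset.univ \ G).card := by
        refine Finset.card_le_card_of_injOn (fun l => l + l0) ?_ ?_
        · intro l hl
          rw [Finset.mem_coe, hG, Finset.mem_filter] at hl
          rw [Finset.mem_coe, Finset.mem_sdiff]
          refine ⟨Finset.mem_univ _, fun hc => ?_⟩
          rw [hG, Finset.mem_filter] at hc
          apply hl0
          have e2 := du_add hl.2 hc.2
          have e3 : ((fun p => af l p • α p) + fun p => af (l + l0) p • α p) =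
              fun p => af l0 p • α p := by
            funext p
            rw [Pi.add_apply, ← add_smul, af_add, ← add_assoc, CharTwo.add_self_eq_zero, zero_add]
          rw [e3] at e2
          exact e2
        · intro a _ b _ hab
          exact add_right_cancel hab
      have e2 := Finset.card_sdiff_of_subset (Finset.subset_univ G)
      rw [Finset.card_univ] at e2
      have e3 := Finset.card_le_univ G
      omega
    have h1 := mean_ge (fun l : Af n => rej d (fun p => af l p • α p)) (fun l => rej_nonneg _ _) G
      (c := (1 / 2) ^ d) (by positivity) (fun l hl => ih _ (fun hc => hl (by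
        rw [hG, Finset.mem_filter]
        exact ⟨Finset.mem_univ _, hc⟩))) (k := 2) (by norm_num) hG2
    refine le_trans (le_of_eq ?_) h1
    rw [pow_succ]
    push_cast
    ring

theorem rej_congr_du {d : ℕ} {α β : Pt n → X} (h : Du d (α - β)) : rej d α = rej d β := by
  classical
  unfold rej
  refine mean_congr fun L => ?_
  have h1 : ∑ p, pr L p • α p = ∑ p, pr L p • β p := by
    have h2 := h L
    simp only [Pi.sub_apply, smul_sub, Finset.sum_sub_distrib] at h2
    exact sub_eq_zero.1 h2
  rw [h1]

end Pool.Agent.Lib.P325rc
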