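import Pool.Agent.Lib.P325rc.Cheb
import Pool.Agent.Lib.P325rc.Rej0

/-!
Module Low (1.5h; black boxes count_one, count_two). Functions of small weight.
PROOF. For a tuple L of d forms and a point p: Pr [pr L p = 1] = 2^-d (all af (L j) p = 1, independent), for p ≠ p':
Pr [pr L p = pr L p' = 1] = 4^-d (Fintype.card_pi / the tuples with a property of each entry). hit_one, hit_two. rej_low:
S = support of α, N = N(L) = #{p ∈ S | pr L p = 1}. If N = 1 then ∑ pr L p • α p = α p0 ≠ 0. For natural N: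
[N = 1] ≥ N - N (N - 1) = 2 N - N^2. So rej ≥ 2 E N - E N^2 = w 2^-d - w (w - 1) 4^-d ≥ w 2^-d (1 - w 2^-d)
≥ (w/2) 2^-d.
-/

open scoped BigOperators

namespace Pool.Agent.Lib.P325rc

open Pool.Agent.Lib.P325x (Pt sg mean)

variable {n : ℕ} {X : Type} [AddCommGroup X] [Module (ZMod 2) X]

namespace LowAux

theorem one_iff (t : ZMod 2) : t = 1 ↔ t ≠ 0 := by
  revert t
  decide

theorem pr_eq_one {d : ℕ} (L : Fin d → Af n) (p : Pt n) : pr L p = 1 ↔ ∀ j, af (L j) p = 1 := by
  rw [one_iff, pr, Finset.prod_ne_zero_iff]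
  exact ⟨fun h j => (one_iff _).2 (h j (Finset.mem_univ j)), fun h j _ => (one_iff _).1 (h j)⟩

theorem card_af : (Fintype.card (Af n) : ℝ) = 2 ^ (n + 1) := by
  simp [Af, Pt, Fintype.card_prod, ZMod.card, pow_succ]

theorem mean_all (d : ℕ) (P : Af n → Prop) [DecidablePred P] :
    mean (fun L : Fin d → Af n => if ∀ j, P (L j) then (1 : ℝ) else 0) =
      ((Nat.card {l : Af n // P l} : ℝ) / 2 ^ (n + 1)) ^ d := by
  have h1 : ∀ L : Fin d → Af n, (if ∀ j, P (L j) then (1 : ℝ) else 0) =
      ∏ j, if P (L j) then (1 : ℝ) else 0 := by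
    intro L
    rw [Finset.prod_ite_zero]
    simp
  have h2 : ∑ L : Fin d → Af n, ∏ j, (if P (L j) then (1 : ℝ) else 0) =
      (∑ l : Af n, if P l then (1 : ℝ) else 0) ^ d := by
    have h3 := Finset.prod_univ_sum (fun _ : Fin d => (Finset.univ : Finset (Af n)))
      (fun _ l => if P l then (1 : ℝ) else 0)
    rw [Fintype.piFinset_univ] at h3
    rw [← h3, Finset.prod_const, Finset.card_univ, Fintype.card_fin]
  have h4 : (∑ l : Af n, if P l then (1 : ℝ) else 0) = (Nat.card {l : Af n // P l} : ℝ) := by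
    rw [Finset.sum_boole, Nat.card_eq_fintype_card, Fintype.card_subtype]
  unfold mean
  rw [Finset.sum_congr rfl fun L _ => h1 L, h2, h4, Fintype.card_fun, Fintype.card_fin,
    Nat.cast_pow, card_af, div_pow]

end LowAux

open LowAux

theorem hit_one (d : ℕ) (p : Pt n) :
    mean (fun L : Fin d → Af n => if pr L p = 1 then (1 : ℝ) else 0) = 1 / 2 ^ d := by
  have h1 := mean_all d (fun l : Af n => af l p = 1)
  have h2 : (2 : ℝ) * Nat.card {l : Af n // af l p = 1} = 2 ^ (n + 1) := by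
    exact_mod_cast count_one p
  have h3 : (Nat.card {l : Af n // af l p = 1} : ℝ) / 2 ^ (n + 1) = 1 / 2 := by
    rw [← h2]
    have : (Nat.card {l : Af n // af l p = 1} : ℝ) ≠ 0 := by
      intro h
      rw [h] at h2
      have : (0 : ℝ) < 2 ^ (n + 1) := by positivity
      linarith
    field_simp
  rw [h3] at h1
  rw [← one_div_pow, ← h1]
  refine Pool.Agent.Lib.P325x.mean_congr fun L => ?_
  simp only [pr_eq_one]

theorem hit_two (d : ℕ) (p p' : Pt n) (h : p ≠ p') :
    mean (fun L : Fin d → Af n => if pr L p = 1 ∧ pr L p' = 1 then (1 : ℝ) else 0) = 1 / 4 ^ d := by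
  have h1 := mean_all d (fun l : Af n => af l p = 1 ∧ af l p' = 1)
  have h2 : (4 : ℝ) * Nat.card {l : Af n // af l p = 1 ∧ af l p' = 1} = 2 ^ (n + 1) := by
    exact_mod_cast count_two p p' h
  have h3 : (Nat.card {l : Af n // af l p = 1 ∧ af l p' = 1} : ℝ) / 2 ^ (n + 1) = 1 / 4 := by
    rw [← h2]
    have : (Nat.card {l : Af n // af l p = 1 ∧ af l p' = 1} : ℝ) ≠ 0 := by
      intro h
      rw [h] at h2
      have : (0 : ℝ) < 2 ^ (n + 1) := by positivity
      linarith
    field_simp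
  rw [h3] at h1
  rw [← one_div_pow, ← h1]
  refine Pool.Agent.Lib.P325x.mean_congr fun L => ?_
  simp only [pr_eq_one, forall_and]

namespace LowAux

/-- The number of points of `S` at which the product is 1. -/
noncomputable def hits {d : ℕ} (S : Finset (Pt n)) (L : Fin d → Af n) : ℝ :=
  ∑ p ∈ S, if pr L p = 1 then (1 : ℝ) else 0

theorem hits_eq {d : ℕ} (S : Finset (Pt n)) (L : Fin d → Af n) :
    hits S L = ((S.filter fun p => pr L p = 1).card : ℝ) := by
  rw [hits, Finset.sum_boole]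

theorem mean_hits (d : ℕ) (S : Finset (Pt n)) :
    mean (fun L : Fin d → Af n => hits S L) = S.card / 2 ^ d := by
  simp only [hits]
  rw [Pool.Agent.Lib.P325x.mean_sum S (fun p L => if pr L p = 1 then (1 : ℝ) else 0),
    Finset.sum_congr rfl fun p _ => hit_one d p, Finset.sum_const, nsmul_eq_mul]
  ring

theorem mean_hits_sq (d : ℕ) (S : Finset (Pt n)) :
    mean (fun L : Fin d → Af n => hits S L ^ 2) ≤ S.card / 2 ^ d + S.card ^ 2 / 4 ^ d := by
  have h1 : ∀ L : Fin d → Af n, hits S L ^ 2 =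
      ∑ p ∈ S, ∑ p' ∈ S, if pr L p = 1 ∧ pr L p' = 1 then (1 : ℝ) else 0 := by
    intro L
    rw [sq, hits, Finset.sum_mul_sum]
    refine Finset.sum_congr rfl fun p _ => Finset.sum_congr rfl fun p' _ => ?_
    by_cases h : pr L p = 1 <;> by_cases h' : pr L p' = 1 <;> simp [h, h']
  rw [Pool.Agent.Lib.P325x.mean_congr h1,
    Pool.Agent.Lib.P325x.mean_sum S
      (fun p L => ∑ p' ∈ S, if pr L p = 1 ∧ pr L p' = 1 then (1 : ℝ) else 0)]
  have h2 : ∀ p ∈ S, mean (fun L : Fin d → Af n =>
      ∑ p' ∈ S, if pr L p = 1 ∧ pr L p' = 1 then (1 : ℝ) else 0) ≤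
      1 / 2 ^ d + S.card * (1 / 4 ^ d) := by
    intro p hp
    rw [Pool.Agent.Lib.P325x.mean_sum S
      (fun p' L => if pr L p = 1 ∧ pr L p' = 1 then (1 : ℝ) else 0)]
    have h3 : ∀ p' ∈ S, mean (fun L : Fin d → Af n =>
        if pr L p = 1 ∧ pr L p' = 1 then (1 : ℝ) else 0) ≤
        (if p' = p then (1 : ℝ) / 2 ^ d else 0) + 1 / 4 ^ d := by
      intro p' _
      by_cases h : p' = p
      · subst h
        rw [if_pos rfl]
        have h4 := hit_one d p'
        have h5 : mean (fun L : Fin d → Af n =>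
            if pr L p' = 1 ∧ pr L p' = 1 then (1 : ℝ) else 0) = 1 / 2 ^ d := by
          rw [← h4]
          refine Pool.Agent.Lib.P325x.mean_congr fun L => ?_
          simp only [and_self]
        rw [h5]
        have : (0 : ℝ) ≤ 1 / 4 ^ d := by positivity
        linarith
      · rw [if_neg h, zero_add, hit_two d p p' (Ne.symm h)]
    refine (Finset.sum_le_sum h3).trans (le_of_eq ?_)
    rw [Finset.sum_add_distrib, Finset.sum_ite_eq' S p, if_pos hp, Finset.sum_const,
      nsmul_eq_mul]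
  refine (Finset.sum_le_sum h2).trans (le_of_eq ?_)
  rw [Finset.sum_const, nsmul_eq_mul]
  ring

theorem ind_ge {d : ℕ} (α : Pt n → X) (S : Finset (Pt n)) (hS : ∀ p, p ∈ S ↔ α p ≠ 0)
    (L : Fin d → Af n) :
    2 * hits S L - hits S L ^ 2 ≤
      @ite ℝ (∑ p, pr L p • α p = 0) (Classical.propDecidable _) 0 1 := by
  classical
  rw [hits_eq]
  set k := (S.filter fun p => pr L p = 1).card with hk
  have hpos : (0 : ℝ) ≤ @ite ℝ (∑ p, pr L p • α p = 0) (Classical.propDecidable _) 0 1 := by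
    split_ifs <;> norm_num
  rcases Nat.lt_or_ge 1 k with h2 | h2
  · refine le_trans ?_ hpos
    have : (2 : ℝ) ≤ k := by exact_mod_cast h2
    nlinarith
  rcases Nat.lt_or_ge k 1 with h1 | h1
  · have h0 : k = 0 := by omega
    rw [h0]
    simpa using hpos
  · have h0 : k = 1 := by omega
    obtain ⟨p0, hp0⟩ := Finset.card_eq_one.1 (hk.symm.trans h0)
    have hm : p0 ∈ S.filter fun p => pr L p = 1 := by rw [hp0]; simp
    rw [Finset.mem_filter] at hm
    have hsum : ∑ p, pr L p • α p = α p0 := by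
      rw [Finset.sum_eq_single p0]
      · rw [hm.2, one_smul]
      · intro p _ hne
        by_cases h3 : α p = 0
        · rw [h3, smul_zero]
        · have h4 : pr L p ≠ 1 := by
            intro h5
            have : p ∈ S.filter fun p => pr L p = 1 := Finset.mem_filter.2 ⟨(hS p).2 h3, h5⟩
            rw [hp0, Finset.mem_singleton] at this
            exact hne this
          have h5 : pr L p = 0 := by
            by_contra h6
            exact h4 ((one_iff _).2 h6)
          rw [h5, zero_smul]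
      · intro h3
        exact absurd (Finset.mem_univ p0) h3
    rw [hsum, if_neg ((hS p0).1 hm.1), h0]
    norm_num

end LowAux

theorem rej_low (d : ℕ) (α : Pt n → X) (hw : 2 * wt α ≤ 2 ^ d) :
    (wt α : ℝ) / 2 ^ (d + 1) ≤ rej d α := by
  classical
  obtain ⟨S, hS, hcard⟩ : ∃ S : Finset (Pt n), (∀ p, p ∈ S ↔ α p ≠ 0) ∧ S.card = wt α := by
    refine ⟨Finset.univ.filter fun p => α p ≠ 0, fun p => by simp, ?_⟩
    unfold wt
    congr
  have h1 : mean (fun L : Fin d → Af n => 2 * hits S L - hits S L ^ 2) ≤ rej d α := by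
    unfold rej
    exact Pool.Agent.Lib.P325x.mean_mono fun L => ind_ge α S hS L
  have h2 : mean (fun L : Fin d → Af n => 2 * hits S L - hits S L ^ 2) =
      2 * mean (fun L : Fin d → Af n => hits S L) -
        mean (fun L : Fin d → Af n => hits S L ^ 2) := by
    have h3 := Pool.Agent.Lib.P325x.mean_add (fun L : Fin d → Af n => 2 * hits S L)
      (fun L => (-1) * hits S L ^ 2)
    rw [Pool.Agent.Lib.P325x.mean_smul, Pool.Agent.Lib.P325x.mean_smul] at h3
    have h4 : mean (fun L : Fin d → Af n => 2 * hits S L - hits S L ^ 2) =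
        mean (fun L : Fin d → Af n => 2 * hits S L + (-1) * hits S L ^ 2) :=
      Pool.Agent.Lib.P325x.mean_congr fun L => by ring
    rw [h4, h3]
    ring
  have h3 := mean_hits d S
  have h4 := mean_hits_sq d S
  rw [hcard] at h3 h4
  have hwR : (2 : ℝ) * wt α ≤ 2 ^ d := by exact_mod_cast hw
  have h5 : (wt α : ℝ) ^ 2 / 4 ^ d ≤ (wt α : ℝ) / 2 ^ d / 2 := by
    have e : (4 : ℝ) ^ d = 2 ^ d * 2 ^ d := by
      rw [← mul_pow]
      norm_num
    have hp : (0 : ℝ) < 2 ^ d := by positivity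
    rw [e, div_div, div_le_div_iff₀ (by positivity) (by positivity)]
    have hw0 : (0 : ℝ) ≤ wt α := Nat.cast_nonneg _
    have := mul_le_mul_of_nonneg_left hwR (mul_nonneg hw0 hp.le)
    nlinarith
  have h6 : (wt α : ℝ) / 2 ^ (d + 1) = (wt α : ℝ) / 2 ^ d / 2 := by
    rw [pow_succ]
    field_simp
  rw [h6]
  linarith

end Pool.Agent.Lib.P325rc
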