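import Pool.Agent.Lib.P325rc.Eig

/-!
Module Rep (3h; black boxes Dist, ch_add, mean_ch_nzt). Fourier expansion on the tables. Characters α, β with
Du d (α - β) agree on tables; rp n d s contains one α of minimal weight from every class.
PROOF. rep_spec, rep_min: the set {β | Du d (α - β)} is finite and contains α; exists_min. rep depends only on
the set, and the sets of α and β are equal if Du d (α - β) (du_add, du_neg); so rp_inj and rp_rep. rp_of_low: if
2 wt α < 2^(d+1) and β = rep d α then wt β ≤ wt α, Du d (α - β), wt (α - β) ≤ 2 wt α < 2^(d+1): α = β (du_wt).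
ch_congr: ∑_p (α p - β p) ⬝ᵥ y p = ∑_i ∑_p (α p - β p) i * y p i = 0 by du_iff applied to (fun p => y p i) ∈ RM n d.
mean_ch: if Du d α all values are 1 (ch_congr with β = 0). Otherwise some L has x = ∑_p pr L p • α p ≠ 0, some v : Pt s has
x ⬝ᵥ v = 1 (v = Pi.single i 1), y0 = (p ↦ pr L p • v) is a table with ch α y0 = -1, so the mean is minus itself (shift by
y0, mean_equiv with Equiv.addRight, ch_add). sum_ch: for a table y let F y = ∑_{α ∈ rp} ch α y. Then
∑_{all α} ch α y = (number of γ with Du d γ) * F y (partition by rep; ch_congr), and ∑_{all α} ch α y = 0 if y ≠ 0 (flip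
α at a point p with y p ≠ 0). So F y = 0 for y ≠ 0, F 0 = #rp. Inversion: ∑_{α ∈ rp} co h α * ch α y = (#rp / #Tb) h y; with
h = 1: co 1 α = 1 if Du d α (i.e. α = rep d 0, α = 0), else 0 (mean_ch), so #rp = #Tb. parseval follows. conv: the function
y ↦ mean_ν g (y + nzT ν) has coefficient co g α * mean_ν ch α (nzt ν) (ch_add, shift), mean_ch_nzt, parseval.
co_shift: y ↦ shT b a y is an involution of Tb, ch α (shT b a y) = ch (p ↦ α (p + b)) y * sg (∑_p α p ⬝ᵥ a), and the last
factor is ±1.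
-/

open scoped BigOperators

namespace Pool.Agent.Lib.P325rc

open Pool.Agent.Lib.P325x (Pt sg mean)

/-- An element of minimal weight of a set. -/
noncomputable def minOf {n s : ℕ} (C : Set (Pt n → Pt s)) : Pt n → Pt s := by
  classical
  exact if h : ∃ β, β ∈ C ∧ ∀ γ ∈ C, wt β ≤ wt γ then h.choose else 0

/-- The representative of minimal weight of the class of `α`. -/
noncomputable def rep {n s : ℕ} (d : ℕ) (α : Pt n → Pt s) : Pt n → Pt s :=
  minOf {β | Du d (α - β)}

/-- The representatives. -/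
noncomputable def rp (n d s : ℕ) : Finset (Pt n → Pt s) := by
  classical
  exact Finset.univ.image (rep d)

/-- The Fourier coefficient. -/
noncomputable def co {n d s : ℕ} (h : Tb n d s → ℝ) (α : Pt n → Pt s) : ℝ :=
  mean fun y : Tb n d s => h y * ch α y.1

variable {n d s : ℕ}

namespace RepAux

theorem minOf_spec {n s : ℕ} (C : Set (Pt n → Pt s)) (hC : C.Nonempty) :
    minOf C ∈ C ∧ ∀ γ ∈ C, wt (minOf C) ≤ wt γ := by
  classical
  have h : ∃ β, β ∈ C ∧ ∀ γ ∈ C, wt β ≤ wt γ := by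
    obtain ⟨β, hβ, hm⟩ := Set.exists_min_image C wt (Set.toFinite C) hC
    exact ⟨β, hβ, hm⟩
  unfold minOf
  rw [dif_pos h]
  exact h.choose_spec

theorem cls_ne {n d s : ℕ} (α : Pt n → Pt s) : ({β | Du d (α - β)} : Set (Pt n → Pt s)).Nonempty := by
  refine ⟨α, ?_⟩
  show Du d (α - α)
  rw [sub_self]
  exact du_zero d

theorem cls_eq {n d s : ℕ} {α β : Pt n → Pt s} (h : Du d (α - β)) : rep d α = rep d β := by
  have h1 : ({γ | Du d (α - γ)} : Set (Pt n → Pt s)) = {γ | Du d (β - γ)} := by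
    ext γ
    show Du d (α - γ) ↔ Du d (β - γ)
    constructor
    · intro h2
      have h3 := du_sub h2 h
      rwa [sub_sub_sub_cancel_left] at h3
    · intro h2
      have h3 := du_add h h2
      rwa [sub_add_sub_cancel] at h3
  unfold rep
  rw [h1]

theorem mem_rp {n d s : ℕ} {α : Pt n → Pt s} : α ∈ rp n d s ↔ ∃ β, rep d β = α := by
  classical
  unfold rp
  rw [Finset.mem_image]
  constructor
  · rintro ⟨β, _, h⟩
    exact ⟨β, h⟩
  · rintro ⟨β, h⟩
    exact ⟨β, Finset.mem_univ β, h⟩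

theorem fn_add_self {n s : ℕ} (α : Pt n → Pt s) : α + α = 0 :=
  funext fun p => Pool.Agent.Lib.P325x.pt_add_self (α p)

theorem tb_add_self {n d s : ℕ} (y : Tb n d s) : y + y = 0 := Subtype.ext (fn_add_self y.1)

end RepAux

open RepAux

theorem rep_spec (α : Pt n → Pt s) : Du d (α - rep d α) := by
  exact (minOf_spec _ (cls_ne α)).1

theorem rep_min (α γ : Pt n → Pt s) (h : Du d (α - γ)) : wt (rep d α) ≤ wt γ := by
  exact (minOf_spec _ (cls_ne α)).2 γ h

theorem rep_mem (α : Pt n → Pt s) : rep d α ∈ rp n d s := by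
  exact mem_rp.2 ⟨α, rfl⟩

theorem rp_rep {α : Pt n → Pt s} (h : α ∈ rp n d s) : rep d α = α := by
  obtain ⟨β, rfl⟩ := mem_rp.1 h
  exact (cls_eq (rep_spec β)).symm

theorem rp_inj {α β : Pt n → Pt s} (hα : α ∈ rp n d s) (hβ : β ∈ rp n d s) (h : Du d (α - β)) :
    α = β := by
  rw [← rp_rep hα, ← rp_rep hβ]
  exact cls_eq h

theorem rp_min {α : Pt n → Pt s} (hα : α ∈ rp n d s) (γ : Pt n → Pt s) (h : Du d (α - γ)) :
    wt α ≤ wt γ := by
  have h1 := rep_min α γ h
  rwa [rp_rep hα] at h1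

theorem rp_of_low (α : Pt n → Pt s) (h : 2 * wt α < 2 ^ (d + 1)) : α ∈ rp n d s := by
  have h1 : wt (rep d α) ≤ wt α := by
    refine rep_min α α ?_
    rw [sub_self]
    exact du_zero d
  have h2 := wt_sub α (rep d α)
  have h3 : α - rep d α = 0 := by
    by_contra h4
    have h5 := du_wt d (α - rep d α) (rep_spec α) h4
    omega
  rw [sub_eq_zero.1 h3]
  exact rep_mem α

theorem ch_congr {α β : Pt n → Pt s} (h : Du d (α - β)) (y : Tb n d s) :
    ch α y.1 = ch β y.1 := by
  unfold ch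
  congr 1
  rw [← sub_eq_zero, ← Finset.sum_sub_distrib]
  have h1 : ∀ i, ∑ p, y.1 p i * (α p i - β p i) = 0 := by
    intro i
    have h2 := congrFun (du_iff.1 h (fun p => y.1 p i) (y.2 i)) i
    rw [Finset.sum_apply] at h2
    exact h2
  have h3 : ∑ p, (α p ⬝ᵥ y.1 p - β p ⬝ᵥ y.1 p) = ∑ p, ∑ i, y.1 p i * (α p i - β p i) := by
    refine Finset.sum_congr rfl fun p _ => ?_
    rw [← sub_dotProduct]
    unfold dotProduct
    refine Finset.sum_congr rfl fun i _ => ?_
    rw [Pi.sub_apply, mul_comm]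
  rw [h3, Finset.sum_comm]
  exact Finset.sum_eq_zero fun i _ => h1 i

theorem mean_ch (α : Pt n → Pt s) [Decidable (Du d α)] :
    mean (fun y : Tb n d s => ch α y.1) = if Du d α then 1 else 0 := by
  split_ifs with h
  · have h1 : ∀ y : Tb n d s, ch α y.1 = 1 := by
      intro y
      have h2 : Du d (α - 0) := by rwa [sub_zero]
      rw [ch_congr h2 y]
      unfold ch
      have h3 : ∑ p, (0 : Pt n → Pt s) p ⬝ᵥ y.1 p = 0 := by
        refine Finset.sum_eq_zero fun p _ => ?_
        rw [Pi.zero_apply, zero_dotProduct]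
      rw [h3, Pool.Agent.Lib.P325x.sg_zero]
    rw [Pool.Agent.Lib.P325x.mean_congr h1, Pool.Agent.Lib.P325x.mean_const]
  · unfold Du at h
    push Not at h
    obtain ⟨L, hL⟩ := h
    obtain ⟨i, hi⟩ := Function.ne_iff.1 hL
    have hi1 : (∑ p, pr L p • α p) i = 1 := (LowAux.one_iff _).2 hi
    let ν : Nz n d s 1 := fun _ => (L, Pi.single i 1)
    have h1 : ch α (nzT ν).1 = -1 := by
      show ch α (nzt ν) = -1
      unfold ch
      rw [EigAux.dot_nzt, Fin.sum_univ_one]
      show sg ((∑ p, pr L p • α p) ⬝ᵥ Pi.single i 1) = -1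
      rw [dotProduct_single, mul_one, hi1, Pool.Agent.Lib.P325x.sg_one]
    have h2 := Pool.Agent.Lib.P325x.mean_equiv (Equiv.addRight (nzT ν))
      (fun y : Tb n d s => ch α y.1)
    have h3 : ∀ y : Tb n d s, ch α ((Equiv.addRight (nzT ν)) y).1 = (-1) * ch α y.1 := by
      intro y
      show ch α (y.1 + (nzT ν).1) = (-1) * ch α y.1
      rw [ch_add, h1, mul_comm]
    rw [Pool.Agent.Lib.P325x.mean_congr h3, Pool.Agent.Lib.P325x.mean_smul] at h2
    linarith

namespace RepAux

theorem ch_zero_left {n s : ℕ} (y : Pt n → Pt s) : ch (0 : Pt n → Pt s) y = 1 := by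
  unfold ch
  have h : ∑ p, (0 : Pt n → Pt s) p ⬝ᵥ y p = 0 := by
    refine Finset.sum_eq_zero fun p _ => ?_
    rw [Pi.zero_apply, zero_dotProduct]
  rw [h, Pool.Agent.Lib.P325x.sg_zero]

theorem ch_zero_right {n s : ℕ} (α : Pt n → Pt s) : ch α (0 : Pt n → Pt s) = 1 := by
  unfold ch
  have h : ∑ p, α p ⬝ᵥ (0 : Pt n → Pt s) p = 0 := by
    refine Finset.sum_eq_zero fun p _ => ?_
    rw [Pi.zero_apply, dotProduct_zero]
  rw [h, Pool.Agent.Lib.P325x.sg_zero]

theorem ch_add_left {n s : ℕ} (α β y : Pt n → Pt s) : ch (α + β) y = ch α y * ch β y := by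
  unfold ch
  rw [← Pool.Agent.Lib.P325x.sg_add, ← Finset.sum_add_distrib]
  congr 1
  refine Finset.sum_congr rfl fun p _ => ?_
  rw [Pi.add_apply, add_dotProduct]

theorem zero_mem_rp {n d s : ℕ} : (0 : Pt n → Pt s) ∈ rp n d s := by
  refine rp_of_low 0 ?_
  rw [wt_zero]
  positivity

/-- The sum of the characters. -/
noncomputable def F {n d s : ℕ} (y : Tb n d s) : ℝ := ∑ α ∈ rp n d s, ch α y.1

theorem F_zero {n d s : ℕ} : F (0 : Tb n d s) = (rp n d s).card := by
  unfold F
  have h : ∀ α ∈ rp n d s, ch α (0 : Tb n d s).1 = 1 := fun α _ => ch_zero_right α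
  rw [Finset.sum_congr rfl h, Finset.sum_const, nsmul_eq_mul, mul_one]

theorem F_ne {n d s : ℕ} (y : Tb n d s) (hy : y ≠ 0) : F y = 0 := by
  classical
  have h1 : ∃ p i, y.1 p i ≠ 0 := by
    by_contra h
    apply hy
    apply Subtype.ext
    funext p i
    by_contra h2
    exact h ⟨p, i, h2⟩
  obtain ⟨p0, i, hp⟩ := h1
  have hp1 : y.1 p0 i = 1 := (LowAux.one_iff _).2 hp
  let δ : Pt n → Pt s := Pi.single p0 (Pi.single i 1)
  have hδ : ch δ y.1 = -1 := by
    unfold ch
    have h2 : ∑ p, δ p ⬝ᵥ y.1 p = 1 := by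
      rw [Finset.sum_eq_single p0]
      · show (Pi.single p0 (Pi.single i 1) : Pt n → Pt s) p0 ⬝ᵥ y.1 p0 = 1
        rw [Pi.single_eq_same, single_dotProduct, one_mul, hp1]
      · intro p _ hne
        show (Pi.single p0 (Pi.single i 1) : Pt n → Pt s) p ⬝ᵥ y.1 p = 0
        rw [Pi.single_eq_of_ne hne, zero_dotProduct]
      · intro h
        exact absurd (Finset.mem_univ p0) h
    rw [h2, Pool.Agent.Lib.P325x.sg_one]
  have hinv : ∀ α ∈ rp n d s, rep d (rep d (α + δ) + δ) = α := by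
    intro α hα
    have h2 : Du d ((rep d (α + δ) + δ) - α) := by
      have h3 := du_neg (rep_spec (d := d) (α + δ))
      have h4 : -(α + δ - rep d (α + δ)) = rep d (α + δ) + δ - α := by
        have h5 : δ = -δ := eq_neg_of_add_eq_zero_left (fn_add_self δ)
        calc -(α + δ - rep d (α + δ)) = rep d (α + δ) + -δ - α := by abel
          _ = _ := by rw [← h5]
      rwa [h4] at h3
    rw [cls_eq h2, rp_rep hα]
  have hsum : F y = ∑ α ∈ rp n d s, ch (rep d (α + δ)) y.1 := by
    unfold F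
    symm
    refine Finset.sum_nbij' (fun α => rep d (α + δ)) (fun α => rep d (α + δ)) ?_ ?_ ?_ ?_ ?_
    · intro α _
      exact rep_mem _
    · intro α _
      exact rep_mem _
    · intro α hα
      exact hinv α hα
    · intro α hα
      exact hinv α hα
    · intro α _
      rfl
  have hneg : ∀ α ∈ rp n d s, ch (rep d (α + δ)) y.1 = -ch α y.1 := by
    intro α _
    rw [← ch_congr (rep_spec (α + δ)) y, ch_add_left, hδ, mul_neg_one]
  rw [Finset.sum_congr rfl hneg, Finset.sum_neg_distrib] at hsum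
  have h5 : F y = -F y := hsum
  linarith

theorem inv0 {n d s : ℕ} (h : Tb n d s → ℝ) (y' : Tb n d s) :
    ∑ α ∈ rp n d s, co h α * ch α y'.1 =
      (rp n d s).card / (Fintype.card (Tb n d s) : ℝ) * h y' := by
  classical
  have h1 : ∑ α ∈ rp n d s, co h α * ch α y'.1 =
      mean fun y : Tb n d s => h y * F (y + y') := by
    unfold co F
    have h2 : ∀ y : Tb n d s, h y * ∑ α ∈ rp n d s, ch α (y + y').1 =
        ∑ α ∈ rp n d s, h y * ch α y.1 * ch α y'.1 := by
      intro y
      rw [Finset.mul_sum]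
      refine Finset.sum_congr rfl fun α _ => ?_
      rw [show (y + y').1 = y.1 + y'.1 from rfl, ch_add, mul_assoc]
    rw [Pool.Agent.Lib.P325x.mean_congr h2, Pool.Agent.Lib.P325x.mean_sum (rp n d s)
      (fun α (y : Tb n d s) => h y * ch α y.1 * ch α y'.1)]
    refine Finset.sum_congr rfl fun α _ => ?_
    rw [Pool.Agent.Lib.P325x.mean_mul]
  rw [h1]
  unfold mean
  rw [Finset.sum_eq_single y']
  · rw [tb_add_self, F_zero]
    ring
  · intro y _ hne
    rw [F_ne, mul_zero]
    intro h0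
    apply hne
    have h2 := eq_neg_of_add_eq_zero_left h0
    have h3 := eq_neg_of_add_eq_zero_left (tb_add_self y')
    rw [h2, ← h3]
  · intro h
    exact absurd (Finset.mem_univ y') h

theorem card_rp {n d s : ℕ} :
    ((rp n d s).card : ℝ) / (Fintype.card (Tb n d s) : ℝ) = 1 := by
  classical
  have h1 := inv0 (fun _ : Tb n d s => (1 : ℝ)) 0
  rw [mul_one] at h1
  rw [← h1, Finset.sum_eq_single 0]
  · unfold co
    have h2 : ∀ y : Tb n d s, (1 : ℝ) * ch (0 : Pt n → Pt s) y.1 = 1 := by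
      intro y
      rw [ch_zero_left, mul_one]
    rw [Pool.Agent.Lib.P325x.mean_congr h2, Pool.Agent.Lib.P325x.mean_const, one_mul,
      ch_zero_left]
  · intro α hα hne
    unfold co
    have h2 : ∀ y : Tb n d s, (1 : ℝ) * ch α y.1 = ch α y.1 := fun y => one_mul _
    have h3 : ¬ Du d α := by
      intro h4
      apply hne
      refine rp_inj hα zero_mem_rp ?_
      rwa [sub_zero]
    rw [Pool.Agent.Lib.P325x.mean_congr h2, mean_ch, if_neg h3, zero_mul]
  · intro h
    exact absurd zero_mem_rp h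

theorem inv1 {n d s : ℕ} (h : Tb n d s → ℝ) (y : Tb n d s) :
    h y = ∑ α ∈ rp n d s, co h α * ch α y.1 := by
  rw [inv0, card_rp, one_mul]

end RepAux

theorem parseval (h g : Tb n d s → ℝ) :
    mean (fun y => h y * g y) = ∑ α ∈ rp n d s, co h α * co g α := by
  have h1 : ∀ y : Tb n d s, h y * g y = ∑ α ∈ rp n d s, co h α * (g y * ch α y.1) := by
    intro y
    conv_lhs => rw [inv1 h y]
    rw [Finset.sum_mul]
    exact Finset.sum_congr rfl fun α _ => by ring
  rw [Pool.Agent.Lib.P325x.mean_congr h1, Pool.Agent.Lib.P325x.mean_sum (rp n d s)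
    (fun α (y : Tb n d s) => co h α * (g y * ch α y.1))]
  refine Finset.sum_congr rfl fun α _ => ?_
  rw [Pool.Agent.Lib.P325x.mean_smul]
  rfl

theorem conv {m : ℕ} (h g : Tb n d s → ℝ) :
    mean (fun y => mean fun ν : Nz n d s m => h y * g (y + nzT ν)) =
      ∑ α ∈ rp n d s, (1 - rej d α) ^ m * (co h α * co g α) := by
  have h1 : ∀ y : Tb n d s, mean (fun ν : Nz n d s m => h y * g (y + nzT ν)) =
      h y * mean (fun ν : Nz n d s m => g (y + nzT ν)) :=
    fun y => Pool.Agent.Lib.P325x.mean_smul _ _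
  rw [Pool.Agent.Lib.P325x.mean_congr h1,
    parseval h (fun y => mean (fun ν : Nz n d s m => g (y + nzT ν)))]
  refine Finset.sum_congr rfl fun α _ => ?_
  have h2 : co (fun y : Tb n d s => mean (fun ν : Nz n d s m => g (y + nzT ν))) α =
      co g α * (1 - rej d α) ^ m := by
    unfold co
    have h3 : ∀ y : Tb n d s, mean (fun ν : Nz n d s m => g (y + nzT ν)) * ch α y.1 =
        mean (fun ν : Nz n d s m => g (y + nzT ν) * ch α y.1) :=
      fun y => (Pool.Agent.Lib.P325x.mean_mul _ _).symm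
    rw [Pool.Agent.Lib.P325x.mean_congr h3, Pool.Agent.Lib.P325x.mean_comm]
    have h4 : ∀ ν : Nz n d s m, mean (fun y : Tb n d s => g (y + nzT ν) * ch α y.1) =
        mean (fun y : Tb n d s => g y * ch α y.1) * ch α (nzt ν) := by
      intro ν
      rw [← Pool.Agent.Lib.P325x.mean_mul,
        ← Pool.Agent.Lib.P325x.mean_equiv (Equiv.addRight (nzT ν))
          (fun y : Tb n d s => g y * ch α y.1 * ch α (nzt ν))]
      refine Pool.Agent.Lib.P325x.mean_congr fun y => ?_
      show g (y + nzT ν) * ch α y.1 = g (y + nzT ν) * ch α (y.1 + nzt ν) * ch α (nzt ν)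
      have h5 : ch α (nzt ν) * ch α (nzt ν) = 1 := by
        rw [← ch_add, fn_add_self, ch_zero_right]
      rw [ch_add, mul_assoc (g (y + nzT ν)), mul_assoc (ch α y.1), h5, mul_one]
    rw [Pool.Agent.Lib.P325x.mean_congr h4, Pool.Agent.Lib.P325x.mean_smul, mean_ch_nzt]
  rw [h2]
  ring

theorem shT_shT (b : Pt n) (a : Pt s) (y : Tb n d s) : shT b a (shT b a y) = y := by
  apply Subtype.ext
  funext p
  show y.1 (p + b + b) + a + a = y.1 p
  rw [add_assoc p, Pool.Agent.Lib.P325x.pt_add_self, add_zero, add_assoc,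
    Pool.Agent.Lib.P325x.pt_add_self, add_zero]

theorem mean_shT (b : Pt n) (a : Pt s) (h : Tb n d s → ℝ) :
    mean (fun y => h (shT b a y)) = mean h := by
  have hinv : Function.Involutive (shT b a : Tb n d s → Tb n d s) := fun y => shT_shT b a y
  exact Pool.Agent.Lib.P325x.mean_equiv hinv.toPerm h

theorem co_shift (b : Pt n) (a : Pt s) (h : Tb n d s → ℝ) (α : Pt n → Pt s) :
    co (fun y => h (shT b a y)) α ^ 2 = co h (fun p => α (p + b)) ^ 2 := by
  have h1 : ∀ y : Tb n d s, ch α (shT b a y).1 =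
      ch (fun p => α (p + b)) y.1 * sg (∑ p, α p ⬝ᵥ a) := by
    intro y
    unfold ch
    rw [← Pool.Agent.Lib.P325x.sg_add]
    congr 1
    have h2 : ∑ p, α p ⬝ᵥ (shT b a y).1 p = ∑ p, α p ⬝ᵥ y.1 (p + b) + ∑ p, α p ⬝ᵥ a := by
      rw [← Finset.sum_add_distrib]
      refine Finset.sum_congr rfl fun p _ => ?_
      show α p ⬝ᵥ (y.1 (p + b) + a) = _
      rw [dotProduct_add]
    rw [h2]
    congr 1
    rw [← Equiv.sum_comp (Equiv.addRight b) (fun p => α p ⬝ᵥ y.1 (p + b))]
    refine Finset.sum_congr rfl fun p _ => ?_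
    show α (p + b) ⬝ᵥ y.1 (p + b + b) = _
    rw [add_assoc p, Pool.Agent.Lib.P325x.pt_add_self, add_zero]
  have h3 : co (fun y => h (shT b a y)) α =
      co h (fun p => α (p + b)) * sg (∑ p, α p ⬝ᵥ a) := by
    unfold co
    rw [← mean_shT b a, ← Pool.Agent.Lib.P325x.mean_mul]
    refine Pool.Agent.Lib.P325x.mean_congr fun y => ?_
    show h (shT b a (shT b a y)) * ch α (shT b a y).1 = _
    rw [shT_shT, h1, mul_assoc]
  rw [h3, mul_pow, sq (sg _), Pool.Agent.Lib.P325x.sg_mul_self, mul_one]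

end Pool.Agent.Lib.P325rc
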