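import Pool.Agent.Lib.P325rc.Test
import Pool.Agent.Lib.P325rc.Rep

/-!
Module Par (1.5h; black boxes rej_far, rej_low, rej_nonneg, rej_le_one, rp_min). The choice of the parameters and
the eigenvalues of the noise. Given t = 2^t0 (noise rate 1/t), T = 4 * 2^t0.
PROOF. eig_low: rej ≥ w/2^(d+1) (rej_low, d = 2 I + 3, w ≤ 2^(d-1)), (1 - rej)^m ≤ (1 - w/2^(d+1))^m ≤
exp (-w m / 2^(d+1)) = exp (-w/(2 * 2^t0)) (m = 2^(d - t0)) ≤ (1 - 1/(4 * 2^t0))^w (exp (-x) ≤ 1 - x/2 on [0, 1]).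
eig_high: α ∈ rp, wt α > 4^(I+1): every β with Du d (α - β) has wt β ≥ wt α > 4^(I+1) (rp_min), rej_far;
(1 - rej)^m ≤ exp (-m (1/2)^(I+3) (3/4)^I) = exp (-(3/2)^I / 2^t0).
params: t1 := 4 * 2^t0. η = min (θ^2) (θ^2/4) > 0 small with η^2 ≤ (θ^2)^2/8; D with (1 - 1/t1)^D ≤ η; τ := 15 (θ^2)^(4 t1)
/ (1 + 2^s)^D; τ' ≤ τ with D/τ τ' ≤ (θ^2)^2/8, τ' > 0; I ≥ t0 with 4^(I+1) ≥ 4 D + 1 and exp (-(3/2)^I/2^t0) ≤ η
((3/2)^I → ∞). d = 2 I + 3, m = 2^(d - t0). hr2: for α ∈ rp with D < wt α: if wt α ≤ 4^(I+1) = 2^(d-1) then eig_low and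
(1 - 1/t1)^(wt α) ≤ (1 - 1/t1)^D ≤ η; else eig_high. m / 2^d = 1/2^t0.
-/

open scoped BigOperators

namespace Pool.Agent.Lib.P325rc

open Pool.Agent.Lib.P325x (Pt sg mean)

variable {n s : ℕ}

namespace ParAux

theorem exp_neg_le {x : ℝ} (h0 : 0 ≤ x) (h1 : x ≤ 1) : Real.exp (-x) ≤ 1 - x / 2 := by
  have h2 : 1 + x ≤ Real.exp x := by
    have := Real.add_one_le_exp x
    linarith
  have h3 : Real.exp (-x) * Real.exp x = 1 := by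
    rw [← Real.exp_add]
    simp
  have h4 : 0 < Real.exp (-x) := Real.exp_pos _
  have h5 : Real.exp (-x) * (1 + x) ≤ 1 :=
    (mul_le_mul_of_nonneg_left h2 h4.le).trans h3.le
  have h6 : (1 : ℝ) ≤ (1 - x / 2) * (1 + x) := by nlinarith
  have h7 : Real.exp (-x) * (1 + x) ≤ (1 - x / 2) * (1 + x) := h5.trans h6
  exact le_of_mul_le_mul_right h7 (by linarith)

theorem pow_le_exp {r a : ℝ} (m : ℕ) (h1 : r ≤ 1) (ha : a ≤ m * r) :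
    (1 - r) ^ m ≤ Real.exp (-a) := by
  have h2 : (1 - r) ^ m ≤ (Real.exp (-r)) ^ m := by
    refine pow_le_pow_left₀ (by linarith) ?_ m
    have := Real.add_one_le_exp (-r)
    linarith
  refine h2.trans ?_
  rw [← Real.exp_nat_mul]
  refine Real.exp_le_exp.2 ?_
  have : (m : ℝ) * -r = -(m * r) := by ring
  rw [this]
  linarith

end ParAux

open ParAux

theorem eig_low (I t0 : ℕ) (ht : t0 ≤ 2 * I + 3) (α : Pt n → Pt s) (hw : wt α ≤ 4 ^ (I + 1)) :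
    (1 - rej (2 * I + 3) α) ^ (2 ^ (2 * I + 3 - t0)) ≤
      (1 - 1 / ((4 * 2 ^ t0 : ℕ) : ℝ)) ^ (wt α) := by
  have h1 : 2 * wt α ≤ 2 ^ (2 * I + 3) := by
    have h2 : 2 * 4 ^ (I + 1) = 2 ^ (2 * I + 3) := by
      rw [show (4 : ℕ) = 2 ^ 2 by norm_num, ← pow_mul]
      ring
    rw [← h2]
    exact Nat.mul_le_mul_left 2 hw
  have h3 := rej_low (2 * I + 3) α h1
  have h4 := rej_le_one (2 * I + 3) α
  set x : ℝ := 1 / (2 * 2 ^ t0) with hx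
  have hpos : (0 : ℝ) < 2 ^ t0 := by positivity
  have hone : (1 : ℝ) ≤ 2 ^ t0 := one_le_pow₀ (by norm_num)
  have hx0 : 0 ≤ x := by positivity
  have hx1 : x ≤ 1 := by
    rw [hx, div_le_one (by positivity)]
    linarith
  have h5 : (wt α : ℝ) * x ≤ ((2 ^ (2 * I + 3 - t0) : ℕ) : ℝ) * rej (2 * I + 3) α := by
    have h6 : ((2 ^ (2 * I + 3 - t0) : ℕ) : ℝ) * ((wt α : ℝ) / 2 ^ (2 * I + 3 + 1)) =
        (wt α : ℝ) * x := by
      have h7 : (2 : ℝ) ^ (2 * I + 3) = 2 ^ (2 * I + 3 - t0) * 2 ^ t0 := by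
        rw [← pow_add, Nat.sub_add_cancel ht]
      rw [hx, pow_succ, h7]
      push_cast
      have h8 : (2 : ℝ) ^ (2 * I + 3 - t0) ≠ 0 := by positivity
      field_simp
    rw [← h6]
    exact mul_le_mul_of_nonneg_left h3 (by positivity)
  have h9 := pow_le_exp _ h4 h5
  refine h9.trans ?_
  have h10 : Real.exp (-(wt α * x)) = Real.exp (-x) ^ (wt α) := by
    rw [← Real.exp_nat_mul]
    congr 1
    ring
  rw [h10]
  refine pow_le_pow_left₀ (Real.exp_pos _).le ((exp_neg_le hx0 hx1).trans (le_of_eq ?_)) _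
  rw [hx]
  push_cast
  field_simp
  ring

theorem eig_high (I t0 : ℕ) (ht : t0 ≤ 2 * I + 3) (α : Pt n → Pt s)
    (hα : α ∈ rp n (2 * I + 3) s) (hw : 4 ^ (I + 1) < wt α) :
    (1 - rej (2 * I + 3) α) ^ (2 ^ (2 * I + 3 - t0)) ≤
      Real.exp (-((3 / 2 : ℝ) ^ I / 2 ^ t0)) := by
  have h3 := rej_far I α fun β hβ => lt_of_lt_of_le hw (rp_min hα β hβ)
  refine pow_le_exp _ (rej_le_one (2 * I + 3) α) ?_
  have h6 : ((2 ^ (2 * I + 3 - t0) : ℕ) : ℝ) * ((1 / 2 : ℝ) ^ (I + 3) * (3 / 4) ^ I) =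
      (3 / 2 : ℝ) ^ I / 2 ^ t0 := by
    have h7 : (2 : ℝ) ^ (2 * I + 3) = 2 ^ (2 * I + 3 - t0) * 2 ^ t0 := by
      rw [← pow_add, Nat.sub_add_cancel ht]
    have h8 : (2 : ℝ) ^ t0 ≠ 0 := by positivity
    push_cast
    rw [eq_div_iff h8]
    have h9 : (2 : ℝ) ^ (2 * I + 3) * ((1 / 2 : ℝ) ^ (I + 3) * (3 / 4) ^ I) = (3 / 2) ^ I := by
      have h10 : (2 : ℝ) ^ (2 * I + 3) = 2 ^ (I + 3) * 2 ^ I := by
        rw [← pow_add]
        congr 1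
        omega
      rw [h10]
      have h11 : (2 : ℝ) ^ (I + 3) * (1 / 2) ^ (I + 3) = 1 := by
        rw [← mul_pow]
        norm_num
      have h12 : (2 : ℝ) ^ I * (3 / 4) ^ I = (3 / 2) ^ I := by
        rw [← mul_pow]
        norm_num
      calc (2 : ℝ) ^ (I + 3) * 2 ^ I * ((1 / 2) ^ (I + 3) * (3 / 4) ^ I)
          = ((2 : ℝ) ^ (I + 3) * (1 / 2) ^ (I + 3)) * ((2 : ℝ) ^ I * (3 / 4) ^ I) := by ring
        _ = (3 / 2) ^ I := by rw [h11, h12, one_mul]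
    rw [← h9, h7]
    ring
  rw [← h6]
  exact mul_le_mul_of_nonneg_left h3 (by positivity)

theorem par (t0 s : ℕ) (θ : ℝ) (hθ : 0 < θ) (hθ1 : θ ≤ 1) :
    ∃ (d m D : ℕ) (τ τ' η : ℝ), 1 ≤ m ∧ (m : ℝ) / 2 ^ d ≤ 1 / 2 ^ t0 ∧ 4 * D < 2 ^ (d + 1) ∧
      0 < τ' ∧ τ' ≤ τ ∧ 0 ≤ η ∧ η ≤ θ ^ 2 ∧
      (1 + (2 : ℝ) ^ s) ^ D * τ ≤ 15 * (θ ^ 2) ^ (4 * (4 * 2 ^ t0)) ∧
      D / τ * τ' + η ^ 2 ≤ (θ ^ 2) ^ 2 / 4 ∧
      (∀ (n : ℕ) (α : Pt n → Pt s), wt α ≤ D →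
        (1 - rej d α) ^ m ≤ (1 - 1 / ((4 * 2 ^ t0 : ℕ) : ℝ)) ^ (wt α)) ∧
      (∀ (n : ℕ) (α : Pt n → Pt s), α ∈ rp n d s → D < wt α → (1 - rej d α) ^ m ≤ η) := by
  have hβ0 : 0 < θ ^ 2 := by positivity
  have hβ1 : θ ^ 2 ≤ 1 := pow_le_one₀ hθ.le hθ1
  obtain ⟨β, hβ⟩ : ∃ β : ℝ, β = θ ^ 2 := ⟨_, rfl⟩
  rw [← hβ] at hβ0 hβ1 ⊢
  set q : ℝ := 1 - 1 / ((4 * 2 ^ t0 : ℕ) : ℝ) with hq
  have hTpos : (0 : ℝ) < ((4 * 2 ^ t0 : ℕ) : ℝ) := by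
    push_cast
    positivity
  have hT1 : (1 : ℝ) ≤ ((4 * 2 ^ t0 : ℕ) : ℝ) := by
    have : 1 ≤ 4 * 2 ^ t0 := Nat.one_le_iff_ne_zero.2 (by positivity)
    exact_mod_cast this
  have hq0 : 0 ≤ q := by
    rw [hq, sub_nonneg, div_le_one hTpos]
    exact hT1
  have hq1 : q < 1 := by
    have : 0 < 1 / ((4 * 2 ^ t0 : ℕ) : ℝ) := by positivity
    rw [hq]
    linarith
  have hη0 : 0 < β ^ 2 / 4 := by positivity
  obtain ⟨D, hD⟩ := exists_pow_lt_of_lt_one hη0 hq1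
  have hτ : 0 < 15 * β ^ (4 * (4 * 2 ^ t0)) / (1 + (2 : ℝ) ^ s) ^ D := by positivity
  obtain ⟨τ, hτd⟩ : ∃ τ : ℝ, τ = 15 * β ^ (4 * (4 * 2 ^ t0)) / (1 + (2 : ℝ) ^ s) ^ D := ⟨_, rfl⟩
  rw [← hτd] at hτ
  have hτ' : 0 < τ * (β ^ 2 / (8 * (D + 1))) := by positivity
  have htend : Filter.Tendsto (fun I : ℕ => (3 / 2 : ℝ) ^ I) Filter.atTop Filter.atTop :=
    tendsto_pow_atTop_atTop_of_one_lt (by norm_num)
  obtain ⟨I, hI1, hI2, hI3⟩ : ∃ I : ℕ, 2 ^ t0 * (-Real.log (β ^ 2 / 4)) ≤ (3 / 2 : ℝ) ^ I ∧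
      t0 ≤ I ∧ D ≤ I :=
    ((htend.eventually_ge_atTop _).and
      ((Filter.eventually_ge_atTop t0).and (Filter.eventually_ge_atTop D))).exists
  have hD4 : D < 4 ^ (I + 1) :=
    lt_of_le_of_lt hI3 (lt_trans (Nat.lt_succ_self I) (Nat.lt_pow_self (by norm_num)))
  have htd : t0 ≤ 2 * I + 3 := by omega
  have hη1 : β ^ 2 / 4 ≤ β := by nlinarith
  refine ⟨2 * I + 3, 2 ^ (2 * I + 3 - t0), D, τ, min τ (τ * (β ^ 2 / (8 * (D + 1)))),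
    β ^ 2 / 4, Nat.one_le_two_pow, ?_, ?_, lt_min hτ hτ', min_le_left _ _, hη0.le, hη1, ?_, ?_,
    ?_, ?_⟩
  · have h7 : (2 : ℝ) ^ (2 * I + 3) = 2 ^ (2 * I + 3 - t0) * 2 ^ t0 := by
      rw [← pow_add, Nat.sub_add_cancel htd]
    rw [h7]
    push_cast
    have h8 : (2 : ℝ) ^ (2 * I + 3 - t0) ≠ 0 := by positivity
    have h9 : (2 : ℝ) ^ t0 ≠ 0 := by positivity
    apply le_of_eq
    field_simp
  · have h2 : 2 ^ (2 * I + 3 + 1) = 4 * 4 ^ (I + 1) := by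
      rw [show (4 : ℕ) = 2 ^ 2 by norm_num, ← pow_mul, ← pow_add]
      congr 1
      omega
    rw [h2]
    omega
  · have h1 : (0 : ℝ) < (1 + (2 : ℝ) ^ s) ^ D := by positivity
    rw [hτd, mul_div_cancel₀ _ h1.ne']
  · have h1 : (D : ℝ) / τ * min τ (τ * (β ^ 2 / (8 * (D + 1)))) ≤ β ^ 2 / 8 := by
      calc (D : ℝ) / τ * min τ (τ * (β ^ 2 / (8 * (D + 1))))
          ≤ (D : ℝ) / τ * (τ * (β ^ 2 / (8 * (D + 1)))) :=
            mul_le_mul_of_nonneg_left (min_le_right _ _) (by positivity)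
        _ = (D / (D + 1)) * (β ^ 2 / 8) := by
            have h2 : (D : ℝ) + 1 ≠ 0 := by positivity
            field_simp
        _ ≤ 1 * (β ^ 2 / 8) := by
            refine mul_le_mul_of_nonneg_right ?_ (by positivity)
            rw [div_le_one (by positivity)]
            linarith
        _ = β ^ 2 / 8 := one_mul _
    have h2 : (β ^ 2 / 4) ^ 2 ≤ β ^ 2 / 8 := by
      have h3 : 0 ≤ β ^ 2 := by positivity
      have h4 : β ^ 2 ≤ 1 := pow_le_one₀ hβ0.le hβ1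
      nlinarith
    linarith
  · intro n α hα
    exact eig_low I t0 htd α (hα.trans hD4.le)
  · intro n α hα hw
    by_cases hc : wt α ≤ 4 ^ (I + 1)
    · refine (eig_low I t0 htd α hc).trans ?_
      exact (pow_le_pow_of_le_one hq0 hq1.le hw.le).trans hD.le
    · refine (eig_high I t0 htd α hα (not_le.1 hc)).trans ?_
      have h1 : -((3 / 2 : ℝ) ^ I / 2 ^ t0) ≤ Real.log (β ^ 2 / 4) := by
        have h2 : (0 : ℝ) < 2 ^ t0 := by positivity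
        rw [neg_le, le_div_iff₀ h2]
        linarith
      calc Real.exp (-((3 / 2 : ℝ) ^ I / 2 ^ t0)) ≤ Real.exp (Real.log (β ^ 2 / 4)) :=
            Real.exp_le_exp.2 h1
        _ = β ^ 2 / 4 := Real.exp_log hη0

end Pool.Agent.Lib.P325rc
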