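import Pool.Agent.Lib.P325rc.Par
import Pool.Agent.Lib.P325rc.LightC

/-!
Module Sound (3h; black boxes par, acceptC, card_bigC, conv, co_shift, mean_shT; model: sound_gen in
P325f1f/Dich/Games.lean and P325sdp/SndK.lean). Soundness of the code game.
PROOF. θ = min δ 1 / 20; t0 = t (2^t ≥ t), T = 4 * 2^t0, η0 = (θ^2)^(4 T), s with 2^s ≥ 4/(δ η0); par gives d, m, D, τ, τ', η.
k = ⌈D/τ'⌉₊, Mb = k * k. For a labeling (A, B) of the code game and a vertex put hA u ω y = [A (u, y) = ω], hB w ω y =
[B (w, y) = ω]. satFrac = mean over e, a of ∑_ω mean_y mean_ν hA (src e) ω y * g ω (y + nzT ν), where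
g ω y = hB (dst e) (ω + a) (shT (b e) a y) (satisfied: A + a = B), = ∑_ω ∑_{α ∈ rp} r α co co (conv). Jn D g i =
Jn D (hB (dst e)) (i + b e): co_shift and the substitutions ω ↦ ω + a, α ↦ (p ↦ α (p + b)) (weight preserved).
Lists LU u = {i | τ' ≤ Jn D (hA u) i}, LW w the same with hB, at most k elements each (card_bigC, exists_enum). An edge e is
decodable if some i ∈ LU (src e) has i + b e ∈ LW (dst e). Not decodable: acceptC and averaging over a of the heavy terms:
mean over a of ∑_ω [η0 < μ ω, η0 < ν (ω + a)] min (μ ω) (ν (ω + a)) ≤ (1/2^s) #{ω | η0 < μ ω} ≤ 1/(2^s η0) ≤ δ/4 (as in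
SndKAux.core with Pt s in place of ZMod k; mean (g ω) = ν (ω + a) by mean_shT). So these contribute at most
δ/4 + 5 θ ≤ δ/2. Decodable: at most 1 each; their fraction is at most k * k * value of the outer game.
-/

open scoped BigOperators

namespace Pool.Agent.Lib.P325rc

open Pool.Agent.Lib.P325x (Pt sg mean Game)

namespace SoundAux

open Pool.Agent.Lib.P325x (mean_add mean_smul mean_sum mean_mono mean_nonneg mean_const mean_congr
  mean_equiv mean_prod pt_add_self)

section basics

variable {U W Ω ι : Type} [Fintype ι]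

theorem sat_eq (I : Game U W Ω ι) [DecidableEq Ω] (x : U → Ω) (y : W → Ω) :
    I.satFrac x y =
      mean (fun e => if I.perm e (x (I.src e)) = y (I.dst e) then (1 : ℝ) else 0) := by
  rw [Game.satFrac, mean, Finset.sum_boole]
  congr!

theorem sat_nonneg (I : Game U W Ω ι) (x : U → Ω) (y : W → Ω) : 0 ≤ I.satFrac x y := by
  rw [Game.satFrac]
  positivity

theorem sat_le_one (I : Game U W Ω ι) (x : U → Ω) (y : W → Ω) : I.satFrac x y ≤ 1 := by
  rw [Game.satFrac]
  apply div_le_one_of_le₀ _ (Nat.cast_nonneg _)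
  exact_mod_cast Finset.card_le_univ _

theorem le_val (I : Game U W Ω ι) (x : U → Ω) (y : W → Ω) : I.satFrac x y ≤ I.value :=
  le_ciSup (f := fun p : (U → Ω) × (W → Ω) => I.satFrac p.1 p.2)
    ⟨1, by rintro _ ⟨_, rfl⟩; exact sat_le_one I _ _⟩ (x, y)

theorem val_nonneg (I : Game U W Ω ι) : 0 ≤ I.value :=
  Real.iSup_nonneg (fun _ => sat_nonneg I _ _)

end basics

/-- Every set of at most `k` labels is covered by `k` choices. -/
theorem enum {Λ : Type} (o : Λ) (k : ℕ) (s : Finset Λ) (hs : s.card ≤ k) :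
    ∃ f : Fin k → Λ, ∀ i ∈ s, ∃ j, f j = i := by
  refine ⟨fun j => (s.toList[j.val]?).getD o, fun i hi => ?_⟩
  have h1 : i ∈ s.toList := Finset.mem_toList.2 hi
  obtain ⟨m, hm, rfl⟩ := List.getElem_of_mem h1
  rw [Finset.length_toList] at hm
  refine ⟨⟨m, by omega⟩, ?_⟩
  simp [hm]

theorem card_pt (s : ℕ) : (Fintype.card (Pt s) : ℝ) = 2 ^ s := by
  simp [Pt, ZMod.card]

theorem core (s : ℕ) (β : ℝ) (hβ : 0 < β) (μ ν : Pt s → ℝ) (hμ : ∀ ω, 0 ≤ μ ω)
    (hν : ∀ ω, 0 ≤ ν ω) (sμ : ∑ ω, μ ω = 1) (sν : ∑ ω, ν ω = 1) :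
    mean (fun a : Pt s => ∑ ω, if β < μ ω ∧ β < ν (ω + a) then min (μ ω) (ν (ω + a)) else 0) ≤
      1 / ((2 : ℝ) ^ s * β) := by
  have hk : (0 : ℝ) < 2 ^ s := by positivity
  rw [mean_sum Finset.univ (fun (ω : Pt s) (a : Pt s) =>
    if β < μ ω ∧ β < ν (ω + a) then min (μ ω) (ν (ω + a)) else 0)]
  have h1 : ∀ ω : Pt s, mean (fun a : Pt s => if β < μ ω ∧ β < ν (ω + a)
      then min (μ ω) (ν (ω + a)) else 0) ≤ μ ω * (1 / ((2 : ℝ) ^ s * β)) := by
    intro ω
    have hs : mean (fun a : Pt s => ν (ω + a)) = 1 / (2 : ℝ) ^ s := by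
      have e := mean_equiv (Equiv.addLeft ω) ν
      simp only [Equiv.coe_addLeft] at e
      rw [e, mean, sν, card_pt]
    by_cases hb : β < μ ω
    · calc mean (fun a : Pt s => if β < μ ω ∧ β < ν (ω + a)
            then min (μ ω) (ν (ω + a)) else 0) ≤ mean (fun a : Pt s => ν (ω + a)) := by
            refine mean_mono (fun a => ?_)
            split_ifs with h
            · exact min_le_right _ _
            · exact hν _
        _ = 1 / (2 : ℝ) ^ s := hs
        _ = β * (1 / ((2 : ℝ) ^ s * β)) := by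
            field_simp
        _ ≤ μ ω * (1 / ((2 : ℝ) ^ s * β)) := mul_le_mul_of_nonneg_right hb.le (by positivity)
    · have h0 : mean (fun a : Pt s => if β < μ ω ∧ β < ν (ω + a)
            then min (μ ω) (ν (ω + a)) else 0) = mean (fun _ : Pt s => (0 : ℝ)) :=
          mean_congr fun a => if_neg (fun h => hb h.1)
      rw [h0, mean_const]
      exact mul_nonneg (hμ ω) (by positivity)
  refine (Finset.sum_le_sum (fun ω _ => h1 ω)).trans ?_
  rw [← Finset.sum_mul, sμ, one_mul]

variable {n d s : ℕ}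

theorem add_add_self (p b : Pt n) : p + b + b = p := by
  rw [add_assoc, pt_add_self, add_zero]

theorem wt_shift (b : Pt n) (α : Pt n → Pt s) : wt (fun p => α (p + b)) = wt α := by
  classical
  unfold wt
  apply Finset.card_nbij' (fun p => p + b) (fun p => p + b)
  · intro p hp
    simpa using hp
  · intro p hp
    simp only [Finset.coe_filter, Finset.mem_univ, true_and, Set.mem_ofPred_eq] at hp ⊢
    rw [add_add_self]
    exact hp
  · intro p _
    exact add_add_self p b
  · intro p _
    exact add_add_self p b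

theorem Jn_shift (D : ℕ) (b : Pt n) (a : Pt s) (h : Pt s → Tb n d s → ℝ) (i : Pt n) :
    Jn D (fun ω y => h (ω + a) (shT b a y)) i = Jn D h (i + b) := by
  classical
  unfold Jn
  have h1 : ∀ ω : Pt s, (∑ α with (wt α ≤ D ∧ α i ≠ 0),
      co (fun y => h (ω + a) (shT b a y)) α ^ 2) =
      ∑ α : Pt n → Pt s with (wt α ≤ D ∧ α (i + b) ≠ 0), co (h (ω + a)) α ^ 2 := by
    intro ω
    apply Finset.sum_nbij' (fun α p => α (p + b)) (fun α p => α (p + b))
    · intro α hα
      rw [Finset.mem_filter] at hα ⊢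
      refine ⟨Finset.mem_univ _, ?_, ?_⟩
      · rw [wt_shift]; exact hα.2.1
      · simp only [add_add_self]; exact hα.2.2
    · intro α hα
      rw [Finset.mem_filter] at hα ⊢
      refine ⟨Finset.mem_univ _, ?_, hα.2.2⟩
      rw [wt_shift]; exact hα.2.1
    · intro α _
      funext p
      simp only [add_add_self]
    · intro α _
      funext p
      simp only [add_add_self]
    · intro α _
      exact co_shift b a (h (ω + a)) α
  refine (Finset.sum_congr rfl (fun ω _ => ?_)).trans
    (Equiv.sum_comp (Equiv.addRight a) (fun ω => ∑ α : Pt n → Pt s with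
      (wt α ≤ D ∧ α (i + b) ≠ 0), co (h ω) α ^ 2))
  exact h1 ω

/-- The indicator functions of a labeling. -/
noncomputable def hI {V : Type} (A : V × Tb n d s → Pt s) (u : V) (ω : Pt s) (y : Tb n d s) : ℝ :=
  if A (u, y) = ω then 1 else 0

variable {V : Type}

theorem hI_nonneg (A : V × Tb n d s → Pt s) (u : V) (ω : Pt s) (y : Tb n d s) :
    0 ≤ hI A u ω y := by
  unfold hI
  split_ifs <;> norm_num

theorem hI_sum (A : V × Tb n d s → Pt s) (u : V) (y : Tb n d s) : ∑ ω, hI A u ω y = 1 := by
  simp [hI]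

theorem hI_shift_sum (A : V × Tb n d s → Pt s) (u : V) (b : Pt n) (a : Pt s) (y : Tb n d s) :
    ∑ ω, hI A u (ω + a) (shT b a y) = 1 := by
  rw [← hI_sum A u (shT b a y)]
  exact Equiv.sum_comp (Equiv.addRight a) (fun ω => hI A u ω (shT b a y))

theorem sum_mean_hI (A : V × Tb n d s → Pt s) (u : V) : ∑ ω, mean (hI A u ω) = 1 := by
  rw [← mean_sum Finset.univ (fun ω y => hI A u ω y)]
  rw [mean_congr (fun y => hI_sum A u y), mean_const]

theorem pair_sum (x y a : Pt s) : (if x + a = y then (1 : ℝ) else 0) =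
    ∑ ω, (if x = ω then (1 : ℝ) else 0) * (if y = ω + a then (1 : ℝ) else 0) := by
  rw [Finset.sum_eq_single x]
  · rw [if_pos rfl, one_mul]
    by_cases h : x + a = y
    · rw [if_pos h, if_pos h.symm]
    · rw [if_neg h, if_neg (fun h' => h h'.symm)]
  · intro c _ hc
    rw [if_neg (fun h => hc h.symm), zero_mul]
  · intro h
    exact absurd (Finset.mem_univ x) h

/-- The acceptance at an edge and a shift of the labels. -/
noncomputable def acc {U W : Type} (m : ℕ) (A : U × Tb n d s → Pt s) (B : W × Tb n d s → Pt s)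
    (u : U) (w : W) (b : Pt n) (a : Pt s) : ℝ :=
  mean fun y : Tb n d s => mean fun ν : Nz n d s m =>
    if A (u, y) + a = B (w, shT b a (y + nzT ν)) then (1 : ℝ) else 0

variable {U W ι : Type}

theorem acc_le (m : ℕ) (A : U × Tb n d s → Pt s) (B : W × Tb n d s → Pt s)
    (u : U) (w : W) (b : Pt n) (a : Pt s) : acc m A B u w b a ≤ 1 := by
  unfold acc
  calc (mean fun y : Tb n d s => mean fun ν : Nz n d s m =>
        if A (u, y) + a = B (w, shT b a (y + nzT ν)) then (1 : ℝ) else 0) ≤
        mean fun _ : Tb n d s => mean fun _ : Nz n d s m => (1 : ℝ) := by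
        refine mean_mono fun y => mean_mono fun ν => ?_
        split_ifs <;> norm_num
    _ = 1 := by
        rw [mean_congr (fun _ : Tb n d s => mean_const (E := Nz n d s m) 1), mean_const]

theorem acc_eq (m : ℕ) (A : U × Tb n d s → Pt s) (B : W × Tb n d s → Pt s)
    (u : U) (w : W) (b : Pt n) (a : Pt s) : acc m A B u w b a =
      ∑ ω, ∑ α ∈ rp n d s, (1 - rej d α) ^ m *
        (co (hI A u ω) α * co (fun y => hI B w (ω + a) (shT b a y)) α) := by
  have h1 : ∀ ω : Pt s, (∑ α ∈ rp n d s, (1 - rej d α) ^ m *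
        (co (hI A u ω) α * co (fun y => hI B w (ω + a) (shT b a y)) α)) =
      mean fun y : Tb n d s => mean fun ν : Nz n d s m =>
        hI A u ω y * hI B w (ω + a) (shT b a (y + nzT ν)) := by
    intro ω
    exact (conv (m := m) (hI A u ω) (fun y => hI B w (ω + a) (shT b a y))).symm
  rw [Finset.sum_congr rfl fun ω _ => h1 ω,
    ← mean_sum Finset.univ (fun (ω : Pt s) (y : Tb n d s) => mean fun ν : Nz n d s m =>
      hI A u ω y * hI B w (ω + a) (shT b a (y + nzT ν)))]
  unfold acc
  refine mean_congr fun y => ?_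
  rw [← mean_sum Finset.univ (fun (ω : Pt s) (ν : Nz n d s m) =>
      hI A u ω y * hI B w (ω + a) (shT b a (y + nzT ν)))]
  refine mean_congr fun ν => ?_
  unfold hI
  exact pair_sum _ _ _

theorem sat_code [Fintype ι] (m : ℕ) (src : ι → U) (dst : ι → W) (b : ι → Pt n)
    (A : U × Tb n d s → Pt s) (B : W × Tb n d s → Pt s) :
    (codeGame n d s m src dst b).satFrac A B =
      mean fun e => mean fun a => acc m A B (src e) (dst e) (b e) a := by
  rw [sat_eq, mean_prod]
  refine mean_congr fun e => ?_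
  rw [mean_prod]
  refine mean_congr fun a => ?_
  rw [mean_prod]
  rfl

end SoundAux

open SoundAux

open Pool.Agent.Lib.P325x (mean_add mean_smul mean_sum mean_mono mean_nonneg mean_const mean_congr
  mean_equiv mean_prod pt_add_self)

theorem sndR (t : ℕ) (ht : 1 ≤ t) (δ : ℝ) (hδ : 0 < δ) :
    ∃ (s d m : ℕ) (Mb : ℝ), 1 ≤ s ∧ 1 ≤ m ∧ (m : ℝ) / 2 ^ d ≤ 1 / t ∧
      ∀ (n : ℕ) (U W ι : Type) [Fintype ι] [Nonempty ι] (src : ι → U) (dst : ι → W) (b : ι → Pt n),
        (codeGame n d s m src dst b).value ≤ δ / 2 +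
          Mb * (Game.mk src dst (fun e => Equiv.addRight (b e))).value := by
  obtain ⟨θ, hθ⟩ : ∃ θ : ℝ, θ = min δ 1 / 20 := ⟨_, rfl⟩
  have hm : 0 < min δ 1 := lt_min hδ one_pos
  have hθ0 : 0 < θ := by
    rw [hθ]
    positivity
  have hθ1 : θ ≤ 1 := by
    rw [hθ]
    have := min_le_right δ 1
    linarith
  have h5 : 5 * θ ≤ δ / 4 := by
    rw [hθ]
    have := min_le_left δ 1
    linarith
  obtain ⟨T, hT⟩ : ∃ T : ℕ, T = 4 * 2 ^ t := ⟨_, rfl⟩
  have hT1 : 1 ≤ T := by
    rw [hT]
    have := Nat.one_le_two_pow (n := t)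
    omega
  obtain ⟨β, hβe⟩ : ∃ β : ℝ, β = (θ ^ 2) ^ (4 * T) := ⟨_, rfl⟩
  have hβ : 0 < β := by
    rw [hβe]
    positivity
  obtain ⟨s0, hs0⟩ := pow_unbounded_of_one_lt (4 / (δ * β)) (by norm_num : (1 : ℝ) < 2)
  obtain ⟨s, hs⟩ : ∃ s : ℕ, s = s0 + 1 := ⟨_, rfl⟩
  have hs1 : 4 / (δ * β) ≤ (2 : ℝ) ^ s := by
    refine hs0.le.trans ?_
    rw [hs]
    exact pow_le_pow_right₀ (by norm_num) (by omega)
  have hc4 : 1 / ((2 : ℝ) ^ s * β) ≤ δ / 4 := by
    rw [div_le_iff₀ (by positivity)] at hs1
    rw [div_le_iff₀ (by positivity)]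
    linarith
  obtain ⟨d, m, D, τ, τ', η, hm1, hmd, hD, hτ'0, hττ', hη0, hη, hτD, hsm, hr1, hr2⟩ :=
    par t s θ hθ0 hθ1
  rw [← hT] at hτD hr1
  obtain ⟨k, hk⟩ : ∃ k : ℕ, k = ⌈(D : ℝ) / τ'⌉₊ := ⟨_, rfl⟩
  refine ⟨s, d, m, (k : ℝ) * k, by omega, hm1, ?_, ?_⟩
  · refine hmd.trans ?_
    have h1 : (t : ℝ) ≤ 2 ^ t := by exact_mod_cast Nat.lt_two_pow_self.le
    exact one_div_le_one_div_of_le (by exact_mod_cast ht) h1
  intro n U W ι _ _ src dst b
  set I : Game U W (Pt n) ι := Game.mk src dst (fun e => Equiv.addRight (b e)) with hI0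
  have hv := val_nonneg I
  have hsupr : ∀ p : (U × Tb n d s → Pt s) × (W × Tb n d s → Pt s),
      (codeGame n d s m src dst b).satFrac p.1 p.2 ≤ δ / 2 + (k : ℝ) * k * I.value := by
    rintro ⟨A, B⟩
    rw [sat_code]
    classical
    -- the lists
    set LU : U → Finset (Pt n) := fun u =>
      Finset.univ.filter (fun i => τ' ≤ Jn D (hI A u) i) with hLU
    set LW : W → Finset (Pt n) := fun w =>
      Finset.univ.filter (fun i => τ' ≤ Jn D (hI B w) i) with hLW
    have hcard : ∀ (V : Type) (C : V × Tb n d s → Pt s) (u : V),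
        (Finset.univ.filter (fun i => τ' ≤ Jn D (hI C u) i)).card ≤ k := by
      intro V C u
      have h1 := card_bigC D (by omega) (h := hI C u) (hI_nonneg C u) (hI_sum C u) hτ'0
      rw [Nat.card_eq_fintype_card, Fintype.card_subtype] at h1
      have h2 : ((Finset.univ.filter (fun i => τ' ≤ Jn D (hI C u) i)).card : ℝ) ≤ (k : ℝ) := by
        rw [hk]
        exact h1.trans (Nat.le_ceil _)
      exact_mod_cast h2
    have hLUc : ∀ u, (LU u).card ≤ k := fun u => hcard U A u
    have hLWc : ∀ w, (LW w).card ≤ k := fun w => hcard W B w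
    choose fU hfU using fun u => enum (0 : Pt n) k (LU u) (hLUc u)
    choose fW hfW using fun w => enum (0 : Pt n) k (LW w) (hLWc w)
    -- decodable edges
    set Dec : ι → Prop := fun e => ∃ i ∈ LU (src e), i + b e ∈ LW (dst e) with hDec
    have hedge : ∀ e, (mean fun a => acc m A B (src e) (dst e) (b e) a) ≤
        δ / 2 + if Dec e then 1 else 0 := by
      intro e
      by_cases hd : Dec e
      · rw [if_pos hd]
        have h1 : (mean fun a => acc m A B (src e) (dst e) (b e) a) ≤
            mean fun _ : Pt s => (1 : ℝ) :=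
          mean_mono fun a => acc_le m A B _ _ _ a
        rw [mean_const] at h1
        linarith
      · rw [if_neg hd, add_zero]
        have hacc : ∀ a, acc m A B (src e) (dst e) (b e) a ≤
            (4 * θ + θ ^ 2) + ∑ ω, if β < mean (hI A (src e) ω) ∧ β < mean (hI B (dst e) (ω + a))
              then min (mean (hI A (src e) ω)) (mean (hI B (dst e) (ω + a))) else 0 := by
          intro a
          rw [acc_eq]
          have h1 := acceptC (m := m) D hD (h := hI A (src e))
            (g := fun ω y => hI B (dst e) (ω + a) (shT (b e) a y))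
            (hI_nonneg A _) (hI_sum A _) (fun ω y => hI_nonneg B _ _ _)
            (fun y => hI_shift_sum B _ _ _ y) T hT1 θ hθ0 τ τ' η (hτ'0.trans_le hττ') hττ'
            hτ'0.le hη0 hη hτD hsm (hr1 n) (hr2 n) (by
              intro i
              by_contra hcon
              push Not at hcon
              apply hd
              refine ⟨i, ?_, ?_⟩
              · rw [hLU, Finset.mem_filter]
                exact ⟨Finset.mem_univ _, hcon.1⟩
              · rw [hLW, Finset.mem_filter]
                refine ⟨Finset.mem_univ _, ?_⟩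
                rw [← Jn_shift D (b e) a (hI B (dst e)) i]
                exact hcon.2)
          rw [← hβe] at h1
          refine h1.trans (le_of_eq ?_)
          congr 1
          refine Finset.sum_congr rfl (fun ω _ => ?_)
          have h2 : mean (fun y => hI B (dst e) (ω + a) (shT (b e) a y)) =
              mean (hI B (dst e) (ω + a)) := mean_shT (b e) a (hI B (dst e) (ω + a))
          rw [h2]
        refine (mean_mono hacc).trans ?_
        rw [mean_add, mean_const]
        have h3 := core s β hβ (fun ω => mean (hI A (src e) ω)) (fun ω => mean (hI B (dst e) ω))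
          (fun ω => mean_nonneg (fun y => hI_nonneg _ _ _ _))
          (fun ω => mean_nonneg (fun y => hI_nonneg _ _ _ _)) (sum_mean_hI A _) (sum_mean_hI B _)
        have h4 : θ ^ 2 ≤ θ := by nlinarith
        linarith
    refine (mean_mono hedge).trans ?_
    rw [mean_add, mean_const]
    refine add_le_add le_rfl ?_
    -- decoding
    have hpt : ∀ e, (if Dec e then (1 : ℝ) else 0) ≤ ∑ j : Fin k, ∑ j' : Fin k,
        if fU (src e) j + b e = fW (dst e) j' then (1 : ℝ) else 0 := by
      intro e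
      have hnn : ∀ j j' : Fin k, (0 : ℝ) ≤
          if fU (src e) j + b e = fW (dst e) j' then (1 : ℝ) else 0 := by
        intro j j'
        split_ifs <;> norm_num
      by_cases hd : Dec e
      · rw [if_pos hd]
        obtain ⟨i, hi, hi'⟩ := hd
        obtain ⟨j, hj⟩ := hfU _ i hi
        obtain ⟨j', hj'⟩ := hfW _ _ hi'
        have h1 : (1 : ℝ) ≤ ∑ j' : Fin k,
            if fU (src e) j + b e = fW (dst e) j' then (1 : ℝ) else 0 := by
          refine le_trans (le_of_eq ?_) (Finset.single_le_sum (f := fun j' =>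
            if fU (src e) j + b e = fW (dst e) j' then (1 : ℝ) else 0)
            (fun j' _ => hnn j j') (Finset.mem_univ j'))
          rw [if_pos (by rw [hj, hj'])]
        exact h1.trans (Finset.single_le_sum (f := fun j => ∑ j' : Fin k,
          if fU (src e) j + b e = fW (dst e) j' then (1 : ℝ) else 0)
          (fun j _ => Finset.sum_nonneg (fun j' _ => hnn j j')) (Finset.mem_univ j))
      · rw [if_neg hd]
        exact Finset.sum_nonneg (fun j _ => Finset.sum_nonneg (fun j' _ => hnn j j'))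
    refine (mean_mono hpt).trans ?_
    rw [mean_sum Finset.univ (fun (j : Fin k) (e : ι) => ∑ j' : Fin k,
        if fU (src e) j + b e = fW (dst e) j' then (1 : ℝ) else 0)]
    have hjj : ∀ j : Fin k, mean (fun e => ∑ j' : Fin k,
        if fU (src e) j + b e = fW (dst e) j' then (1 : ℝ) else 0) ≤ k * I.value := by
      intro j
      rw [mean_sum Finset.univ (fun (j' : Fin k) (e : ι) =>
        if fU (src e) j + b e = fW (dst e) j' then (1 : ℝ) else 0)]
      have h6 : ∀ j' : Fin k, mean (fun e => if fU (src e) j + b e = fW (dst e) j' then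
          (1 : ℝ) else 0) ≤ I.value := by
        intro j'
        have h7 := le_val I (fun u => fU u j) (fun w => fW w j')
        rw [sat_eq] at h7
        exact h7
      refine (Finset.sum_le_sum (fun j' _ => h6 j')).trans (le_of_eq ?_)
      rw [Finset.sum_const, Finset.card_univ, Fintype.card_fin, nsmul_eq_mul]
    refine (Finset.sum_le_sum (fun j _ => hjj j)).trans (le_of_eq ?_)
    rw [Finset.sum_const, Finset.card_univ, Fintype.card_fin, nsmul_eq_mul, mul_assoc]
  exact Real.iSup_le hsupr (by positivity)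

end Pool.Agent.Lib.P325rc
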