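import Pool.Agent.Lib.P325rc.Four
import Pool.Agent.Lib.P325f1f.Dich.Stab

/-!
Module StabC (2h; black boxes fourC, parseval, rp_of_low; model: P325f1f/Dich/Stab.lean, whose lemmas power_mean,
holder4 (with 𝔼; mean = 𝔼 by Fintype.expect_eq_sum_div_card), rho_pow_le can be used). Noise stability of the part of a
small set of tables with low degree and no influential coordinate.
PROOF. F = {α | wt α ≤ D and α i = 0 for all i ∈ A}. F ⊆ rp (rp_of_low, 2 D < 2^(d+1)), so ∑_{α ∈ F} co h α^2 ≤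
mean (h^2) ≤ mean h = μ (parseval). c α = co h α on F, 0 else; K y = ∑ α, (1/2)^(wt α) * c α * ch α y. Then
V = ∑_{α ∈ F} (1/2)^(wt α) co h α^2 = mean (h K) (linearity: mean (h y * ch α y) = co h α). fourC: for i ∉ A
∑_{α i ≠ 0} c α^2 ≤ τ by hypothesis; for i ∈ A the sum is 0. So mean K^4 ≤ μ^2 + 15 β^(4t) μ ≤ 16 β^(4t) μ (μ ≤ β^(4t)),
V^4 ≤ μ^3 mean K^4 ≤ (2 μ β^t)^4, V ≤ 2 μ β^t. power_mean with weights co h α^2 on F and z = (1 - 1/t)^(wt α):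
(∑_F co^2 z)^t ≤ μ^(t-1) ∑_F co^2 z^t ≤ μ^(t-1) V ≤ 2 (μ β)^t (rho_pow_le: (1 - 1/t)^t ≤ 1/2), so
∑_F co^2 z ≤ 2 μ β.
-/

open scoped BigOperators

namespace Pool.Agent.Lib.P325rc

open Pool.Agent.Lib.P325x (Pt sg mean)

variable {n d s : ℕ}

theorem stabC (h : Tb n d s → ℝ) (h0 : ∀ y, 0 ≤ h y) (h1 : ∀ y, h y ≤ 1) (t : ℕ) (ht : 1 ≤ t)
    (β : ℝ) (hβ : 0 < β) (hμ : mean h ≤ β ^ (4 * t)) (D : ℕ) (hD : 4 * D < 2 ^ (d + 1)) (τ : ℝ)
    (hτ0 : 0 ≤ τ) (A : Finset (Pt n))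
    (hA : ∀ i, i ∉ A → ∑ α with (wt α ≤ D ∧ α i ≠ 0), co h α ^ 2 ≤ τ)
    (hτD : (1 + (2 : ℝ) ^ s) ^ D * τ ≤ 15 * β ^ (4 * t)) :
    ∑ α with (wt α ≤ D ∧ ∀ i ∈ A, α i = 0), (1 - 1 / (t : ℝ)) ^ (wt α) * co h α ^ 2 ≤
      2 * mean h * β := by
  classical
  set μ : ℝ := mean h with hμdef
  have hμ0 : 0 ≤ μ := Pool.Agent.Lib.P325x.mean_nonneg h0
  set c : (Pt n → Pt s) → ℝ := fun α => if (wt α ≤ D ∧ ∀ i ∈ A, α i = 0) then co h α else 0 with hc
  have hcpos : ∀ α, (wt α ≤ D ∧ ∀ i ∈ A, α i = 0) → c α = co h α := fun α hα => if_pos hα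
  have hcneg : ∀ α, ¬ (wt α ≤ D ∧ ∀ i ∈ A, α i = 0) → c α = 0 := fun α hα => if_neg hα
  -- the total weight
  have hcsum : ∑ α, c α ^ 2 ≤ μ := by
    have e1 : ∑ α, c α ^ 2 = ∑ α with (wt α ≤ D ∧ ∀ i ∈ A, α i = 0), co h α ^ 2 := by
      rw [Finset.sum_filter]
      refine Finset.sum_congr rfl fun α _ => ?_
      by_cases hα : (wt α ≤ D ∧ ∀ i ∈ A, α i = 0)
      · rw [hcpos α hα, if_pos hα]
      · rw [hcneg α hα, if_neg hα, zero_pow two_ne_zero]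
    have e2 : ∑ α with (wt α ≤ D ∧ ∀ i ∈ A, α i = 0), co h α ^ 2 ≤ ∑ α ∈ rp n d s, co h α ^ 2 := by
      refine Finset.sum_le_sum_of_subset_of_nonneg ?_ (fun α _ _ => sq_nonneg _)
      intro α hα
      rw [Finset.mem_filter] at hα
      exact rp_of_low α (by omega)
    have e3 : ∑ α ∈ rp n d s, co h α ^ 2 = mean (fun y => h y * h y) := by
      rw [parseval]
      exact Finset.sum_congr rfl fun α _ => pow_two _
    rw [e1]
    refine e2.trans ?_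
    rw [e3]
    refine Pool.Agent.Lib.P325x.mean_mono fun y => ?_
    nlinarith [h0 y, h1 y]
  have hcsum0 : 0 ≤ ∑ α, c α ^ 2 := Finset.sum_nonneg (fun _ _ => sq_nonneg _)
  set K : Tb n d s → ℝ := fun y => ∑ α : Pt n → Pt s, (1 / 2) ^ (wt α) * c α * ch α y.1 with hK
  have hV : mean (fun y => h y * K y) = ∑ α, (1 / 2) ^ (wt α) * c α ^ 2 := by
    have e1 : ∀ y : Tb n d s, h y * K y =
        ∑ α : Pt n → Pt s, ((1 / 2) ^ (wt α) * c α) * (h y * ch α y.1) := by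
      intro y
      rw [hK]
      beta_reduce
      rw [Finset.mul_sum]
      exact Finset.sum_congr rfl fun α _ => by ring
    rw [Pool.Agent.Lib.P325x.mean_congr e1,
      Pool.Agent.Lib.P325x.mean_sum Finset.univ
        (fun (α : Pt n → Pt s) (y : Tb n d s) => ((1 / 2) ^ (wt α) * c α) * (h y * ch α y.1))]
    refine Finset.sum_congr rfl fun α _ => ?_
    rw [Pool.Agent.Lib.P325x.mean_smul]
    show (1 / 2) ^ (wt α) * c α * co h α = (1 / 2) ^ (wt α) * c α ^ 2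
    by_cases hα : (wt α ≤ D ∧ ∀ i ∈ A, α i = 0)
    · rw [hcpos α hα]
      ring
    · rw [hcneg α hα]
      ring
  have hK4 : mean (fun y => K y ^ 4) ≤ (∑ α, c α ^ 2) ^ 2 +
      (1 + (2 : ℝ) ^ s) ^ D * τ * ∑ α, c α ^ 2 := by
    refine fourC D hD c (fun α hα => hcneg α (fun hh => by omega)) τ hτ0 (fun p => ?_)
    by_cases hp : p ∈ A
    · refine le_trans (le_of_eq ?_) hτ0
      refine Finset.sum_eq_zero fun α hα => ?_
      rw [Finset.mem_filter] at hα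
      rw [hcneg α (fun hh => hα.2 (hh.2 p hp)), zero_pow two_ne_zero]
    · refine le_trans ?_ (hA p hp)
      rw [Finset.sum_filter, Finset.sum_filter]
      refine Finset.sum_le_sum fun α _ => ?_
      by_cases e1 : α p ≠ 0
      · rw [if_pos e1]
        by_cases e2 : wt α ≤ D
        · rw [if_pos ⟨e2, e1⟩]
          by_cases hα : (wt α ≤ D ∧ ∀ i ∈ A, α i = 0)
          · rw [hcpos α hα]
          · rw [hcneg α hα, zero_pow two_ne_zero]
            exact sq_nonneg _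
        · rw [if_neg (fun hh => e2 hh.1), hcneg α (fun hh => e2 hh.1), zero_pow two_ne_zero]
      · rw [if_neg e1]
        split_ifs
        · exact sq_nonneg _
        · exact le_rfl
  have hK4' : mean (fun y => K y ^ 4) ≤ μ * (16 * β ^ (4 * t)) := by
    have e1 : (∑ α, c α ^ 2) ^ 2 ≤ μ * μ := by
      rw [pow_two]
      exact mul_le_mul hcsum hcsum hcsum0 hμ0
    have e2 : (1 + (2 : ℝ) ^ s) ^ D * τ * ∑ α, c α ^ 2 ≤ 15 * β ^ (4 * t) * μ :=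
      mul_le_mul hτD hcsum hcsum0 (by positivity)
    have e3 : μ * μ ≤ μ * β ^ (4 * t) := mul_le_mul_of_nonneg_left hμ hμ0
    nlinarith
  have hV4 : mean (fun y => h y * K y) ^ 4 ≤ (2 * μ * β ^ t) ^ 4 := by
    have e0 := Pool.Agent.P325f1f.Dich.holder4 h K h0 h1
    rw [Fintype.expect_eq_sum_div_card, Fintype.expect_eq_sum_div_card,
      Fintype.expect_eq_sum_div_card] at e0
    change mean (fun y => h y * K y) ^ 4 ≤ mean h ^ 3 * mean (fun y => K y ^ 4) at e0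
    refine e0.trans ?_
    have e1 : μ ^ 3 * mean (fun y => K y ^ 4) ≤ μ ^ 3 * (μ * (16 * β ^ (4 * t))) :=
      mul_le_mul_of_nonneg_left hK4' (pow_nonneg hμ0 3)
    refine e1.trans (le_of_eq ?_)
    have e2 : β ^ (4 * t) = (β ^ t) ^ 4 := by rw [← pow_mul, mul_comm]
    rw [e2]
    ring
  have hVle : mean (fun y => h y * K y) ≤ 2 * μ * β ^ t := by
    by_contra hlt
    push Not at hlt
    have := pow_lt_pow_left₀ hlt (by positivity) (n := 4) (by norm_num)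
    linarith
  rw [hV] at hVle
  -- from `1/2` to `1 - 1/t`
  obtain ⟨r, rfl⟩ : ∃ r, t = r + 1 := ⟨t - 1, by omega⟩
  set ρ : ℝ := 1 - 1 / ((r + 1 : ℕ) : ℝ) with hρ
  have hρ0 : 0 ≤ ρ := by
    have ht0 : (0 : ℝ) < ((r + 1 : ℕ) : ℝ) := by exact_mod_cast Nat.succ_pos r
    have : 1 / ((r + 1 : ℕ) : ℝ) ≤ 1 := by
      rw [div_le_one ht0]
      exact_mod_cast Nat.succ_le_succ (Nat.zero_le r)
    linarith
  have hpm := Pool.Agent.P325f1f.Dich.power_mean (fun α => c α ^ 2) (fun α => ρ ^ (wt α))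
    (fun α => sq_nonneg _) (fun α => pow_nonneg hρ0 _) r
  have hgoal : ∑ α with (wt α ≤ D ∧ ∀ i ∈ A, α i = 0), ρ ^ (wt α) * co h α ^ 2 =
      ∑ α, c α ^ 2 * ρ ^ (wt α) := by
    rw [Finset.sum_filter]
    refine Finset.sum_congr rfl fun α _ => ?_
    by_cases hα : (wt α ≤ D ∧ ∀ i ∈ A, α i = 0)
    · rw [hcpos α hα, if_pos hα, mul_comm]
    · rw [hcneg α hα, if_neg hα, zero_pow two_ne_zero, zero_mul]
  rw [hgoal]
  have e5 : ∑ α, c α ^ 2 * (ρ ^ (wt α)) ^ (r + 1) ≤ ∑ α, (1 / 2) ^ (wt α) * c α ^ 2 := by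
    refine Finset.sum_le_sum (fun α _ => ?_)
    rw [mul_comm]
    refine mul_le_mul_of_nonneg_right ?_ (sq_nonneg _)
    rw [← pow_mul, mul_comm, pow_mul]
    exact pow_le_pow_left₀ (pow_nonneg hρ0 _) (Pool.Agent.P325f1f.Dich.rho_pow_le (r + 1) ht) _
  have hW0 : 0 ≤ ∑ α, c α ^ 2 * ρ ^ (wt α) :=
    Finset.sum_nonneg (fun α _ => mul_nonneg (sq_nonneg _) (pow_nonneg hρ0 _))
  have e6 : (∑ α, c α ^ 2 * ρ ^ (wt α)) ^ (r + 1) ≤ μ ^ r * (2 * μ * β ^ (r + 1)) := by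
    refine hpm.trans ?_
    have a1 : (∑ α, c α ^ 2) ^ r ≤ μ ^ r := pow_le_pow_left₀ hcsum0 hcsum r
    have a2 : 0 ≤ ∑ α, c α ^ 2 * (ρ ^ (wt α)) ^ (r + 1) :=
      Finset.sum_nonneg (fun α _ => mul_nonneg (sq_nonneg _) (pow_nonneg (pow_nonneg hρ0 _) _))
    exact mul_le_mul a1 (e5.trans hVle) a2 (pow_nonneg hμ0 r)
  have e7 : (∑ α, c α ^ 2 * ρ ^ (wt α)) ^ (r + 1) ≤ (2 * μ * β) ^ (r + 1) := by
    refine e6.trans ?_
    have a1 : μ ^ r * (2 * μ * β ^ (r + 1)) = 2 * (μ * β) ^ (r + 1) := by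
      rw [mul_pow, pow_succ μ r]
      ring
    have a2 : (2 * μ * β) ^ (r + 1) = 2 ^ (r + 1) * (μ * β) ^ (r + 1) := by
      rw [← mul_pow]
      ring
    rw [a1, a2]
    refine mul_le_mul_of_nonneg_right ?_ (pow_nonneg (mul_nonneg hμ0 hβ.le) _)
    calc (2 : ℝ) = 2 ^ 1 := (pow_one 2).symm
      _ ≤ 2 ^ (r + 1) := pow_le_pow_right₀ (by norm_num) (by omega)
  by_contra hlt
  push Not at hlt
  have := pow_lt_pow_left₀ hlt (by positivity) (n := r + 1) (by omega)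
  linarith

end Pool.Agent.Lib.P325rc
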