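import Pool.Agent.Lib.P325rc.Rej0
import Pool.Agent.Lib.P325rc.Glue
import Pool.Agent.Lib.P325rc.Cheb

/-!
Testing of the dual code with products of random affine forms: functions far from the dual code
are rejected often.
-/

open scoped BigOperators

namespace Pool.Agent.Lib.P325rc

open Pool.Agent.Lib.P325x (Pt sg mean)

variable {n : ℕ} {X : Type} [AddCommGroup X] [Module (ZMod 2) X]

/-- One step. -/
theorem step {j D : ℕ} (hj : 1 ≤ j) (hD4 : 4 ≤ D) (hD : 2 * D < 2 ^ j) (β : Pt n → X)
    (h : ∀ γ, Du (j + 1) γ → 4 * D < wt (fun p => β p - γ p)) (Gd : Finset (Af n))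
    (hG : ∀ l ∈ Gd, ∃ γ, Du j γ ∧ wt (fun p => af l p • β p - γ p) ≤ D) :
    4 * Gd.card ≤ Fintype.card (Af n) := by
  by_contra hcon
  push Not at hcon
  obtain ⟨γ, hγ, hl⟩ := glue hj hD β Gd hG hcon
  exact absurd (cheb_fin (fun p => β p - γ p) (h γ hγ) (by have := h γ hγ; omega) Gd hl) (by omega)

theorem test_aux (i : ℕ) : ∀ (k : ℕ) (β : Pt n → X), i + 3 ≤ k →
    (∀ γ, Du (k + i) γ → 4 ^ (i + 1) < wt (fun p => β p - γ p)) →
    (1 / 2 : ℝ) ^ k * (3 / 4) ^ i ≤ rej (k + i) β := by
  classical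
  induction i with
  | zero =>
    intro k β _ h
    rw [add_zero, pow_zero, mul_one]
    apply rej_base
    intro hβ
    have h1 := h β (by rwa [add_zero])
    have h2 : wt (fun p => β p - β p) = 0 := by
      unfold wt
      rw [Finset.card_eq_zero, Finset.filter_eq_empty_iff]
      intro p _ hp
      exact hp (sub_self _)
    omega
  | succ i ih =>
    intro k β hk h
    set G : Finset (Af n) := Finset.univ.filter fun l =>
      ∃ γ, Du (k + i) γ ∧ wt (fun p => af l p • β p - γ p) ≤ 4 ^ (i + 1) with hG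
    have hG4 : 4 * G.card ≤ Fintype.card (Af n) := by
      refine step (j := k + i) (D := 4 ^ (i + 1)) (by omega) ?_ ?_ β ?_ G ?_
      · calc 4 = 4 ^ 1 := by norm_num
          _ ≤ 4 ^ (i + 1) := Nat.pow_le_pow_right (by norm_num) (by omega)
      · calc 2 * 4 ^ (i + 1) = 2 ^ (2 * i + 3) := by
              rw [show (4 : ℕ) = 2 ^ 2 by norm_num, ← pow_mul]
              ring
          _ < 2 ^ (k + i) := Nat.pow_lt_pow_right (by norm_num) (by omega)
      · intro γ hγ
        have := h γ hγ
        rw [pow_succ] at this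
        omega
      · intro l hl
        rw [hG, Finset.mem_filter] at hl
        exact hl.2
    have e1 : k + (i + 1) = (k + i) + 1 := by ring
    rw [e1, rej_succ]
    have h1 := mean_ge (fun l : Af n => rej (k + i) (fun p => af l p • β p))
      (fun l => rej_nonneg _ _) G (c := (1 / 2 : ℝ) ^ k * (3 / 4) ^ i) (by positivity)
      (fun l hl => ih k _ (by omega) (fun γ hγ => by
        by_contra hcon
        push Not at hcon
        apply hl
        rw [hG, Finset.mem_filter]
        exact ⟨Finset.mem_univ _, γ, hγ, hcon⟩)) (k := 4) (by norm_num) hG4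
    refine le_trans (le_of_eq ?_) h1
    rw [pow_succ]
    push_cast
    ring

theorem rej_far (I : ℕ) (α : Pt n → X)
    (h : ∀ β : Pt n → X, Du (2 * I + 3) (α - β) → 4 ^ (I + 1) < wt β) :
    (1 / 2 : ℝ) ^ (I + 3) * (3 / 4) ^ I ≤ rej (2 * I + 3) α := by
  have e : 2 * I + 3 = I + 3 + I := by ring
  rw [e] at h ⊢
  refine test_aux I (I + 3) α le_rfl fun γ hγ => h (α - γ) ?_
  rw [sub_sub_cancel]
  exact hγ

end Pool.Agent.Lib.P325rc
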